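import Pool.Agent.MP_235f01_an.Defs

/-!
# MP_235f01_an, module D: abstract facts on convex hulls
-/

set_option autoImplicit false

namespace Pool.Agent.MP_235f01_an

namespace Hull

/-- the key step: a segment between the two partial hulls stays in their union -/
lemma segment_sub {ι E : Type*} [AddCommGroup E] [Module ℝ E] (T P N : Set ι)
    (K : ι → Set E)
    (hpair : ∀ i ∈ T, i ∈ P → ∀ j ∈ T, j ∈ N → ∃ m ∈ T, m ∉ P ∧ m ∉ N ∧ ∃ θ : ℝ, 0 < θ ∧ θ < 1 ∧
      ∀ x ∈ K i, ∀ y ∈ K j, θ • x + (1 - θ) • y ∈ K m)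
    {u v : E} (hu : u ∈ convexHull ℝ (⋃ i ∈ T \ P, K i))
    (hv : v ∈ convexHull ℝ (⋃ i ∈ T \ N, K i)) :
    segment ℝ u v ⊆ convexHull ℝ (⋃ i ∈ T \ P, K i) ∪ convexHull ℝ (⋃ i ∈ T \ N, K i) := by
  set T0 : Set ι := {i | i ∈ T ∧ i ∉ P ∧ i ∉ N} with hT0
  set C0 : Set E := convexHull ℝ (⋃ i ∈ T0, K i) with hC0
  have hC0P : C0 ⊆ convexHull ℝ (⋃ i ∈ T \ P, K i) := by
    apply convexHull_mono
    intro x hx
    simp only [Set.mem_iUnion] at hx ⊢
    obtain ⟨i, hi, hx⟩ := hx
    exact ⟨i, ⟨hi.1, hi.2.1⟩, hx⟩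
  have hC0N : C0 ⊆ convexHull ℝ (⋃ i ∈ T \ N, K i) := by
    apply convexHull_mono
    intro x hx
    simp only [Set.mem_iUnion] at hx ⊢
    obtain ⟨i, hi, hx⟩ := hx
    exact ⟨i, ⟨hi.1, hi.2.2⟩, hx⟩
  by_cases hdisj : Disjoint (segment ℝ u v) C0
  · -- contradiction by Stone's theorem
    exfalso
    obtain ⟨C, hC, hCc, h1, h2⟩ := exists_convex_convex_compl_subset
      (convex_segment u v) (convex_convexHull ℝ (⋃ i ∈ T0, K i)) hdisj
    have hsub0 : ∀ i ∈ T0, K i ⊆ Cᶜ := fun i hi =>
      (Set.subset_biUnion_of_mem hi).trans ((subset_convexHull ℝ _).trans h2)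
    have hx : ∃ j ∈ T \ P, ∃ x ∈ K j, x ∈ C := by
      by_contra hcon
      push Not at hcon
      have : convexHull ℝ (⋃ i ∈ T \ P, K i) ⊆ Cᶜ := by
        apply convexHull_min _ hCc
        intro x hx
        simp only [Set.mem_iUnion] at hx
        obtain ⟨i, hi, hx⟩ := hx
        exact hcon i hi x hx
      exact this hu (h1 (left_mem_segment ℝ u v))
    have hy : ∃ i ∈ T \ N, ∃ y ∈ K i, y ∈ C := by
      by_contra hcon
      push Not at hcon
      have : convexHull ℝ (⋃ i ∈ T \ N, K i) ⊆ Cᶜ := by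
        apply convexHull_min _ hCc
        intro x hx
        simp only [Set.mem_iUnion] at hx
        obtain ⟨i, hi, hx⟩ := hx
        exact hcon i hi x hx
      exact this hv (h1 (right_mem_segment ℝ u v))
    obtain ⟨j, hj, x, hxj, hxC⟩ := hx
    obtain ⟨i, hi, y, hyi, hyC⟩ := hy
    have hjN : j ∈ N := by
      by_contra h
      exact hsub0 j ⟨hj.1, hj.2, h⟩ hxj hxC
    have hiP : i ∈ P := by
      by_contra h
      exact hsub0 i ⟨hi.1, h, hi.2⟩ hyi hyC
    obtain ⟨m, hmT, hmP, hmN, θ, hθ0, hθ1, hm⟩ := hpair i hi.1 hiP j hj.1 hjN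
    exact hsub0 m ⟨hmT, hmP, hmN⟩ (hm y hyi x hxj)
      (hC hyC hxC hθ0.le (by linarith) (by ring))
  · rw [Set.not_disjoint_iff] at hdisj
    obtain ⟨z, hz, hzC⟩ := hdisj
    intro q hq
    have hsplit : segment ℝ u v ⊆ segment ℝ u z ∪ segment ℝ z v := by
      intro q hq
      rw [segment_eq_image'] at hq hz
      obtain ⟨s, hs, rfl⟩ := hq
      obtain ⟨r, hr, hrz⟩ := hz
      have hrz' : z = u + r • (v - u) := hrz.symm
      rcases le_total s r with h | h
      · left
        rcases eq_or_lt_of_le hr.1 with hr0 | hr0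
        · have hs0 : s = 0 := le_antisymm (by linarith) hs.1
          rw [hs0]
          simp only [zero_smul, add_zero]
          exact left_mem_segment ℝ u z
        · rw [segment_eq_image']
          refine ⟨s / r, ⟨div_nonneg hs.1 hr0.le, (div_le_one hr0).2 h⟩, ?_⟩
          simp only
          rw [hrz', add_sub_cancel_left, smul_smul, div_mul_cancel₀ _ hr0.ne']
      · right
        rcases eq_or_lt_of_le hr.2 with hr1 | hr1
        · have hs1 : s = 1 := le_antisymm hs.2 (by linarith)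
          rw [hs1]
          simp only [one_smul, add_sub_cancel]
          exact right_mem_segment ℝ z v
        · rw [segment_eq_image']
          have h1r : 0 < 1 - r := by linarith
          refine ⟨(s - r) / (1 - r), ⟨div_nonneg (by linarith) h1r.le,
            (div_le_one h1r).2 (by linarith [hs.2])⟩, ?_⟩
          simp only
          have e : v - z = (1 - r) • (v - u) := by
            rw [hrz', sub_smul, one_smul]
            abel
          rw [e, smul_smul, div_mul_cancel₀ _ h1r.ne', hrz', add_assoc, ← add_smul]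
          congr 2
          ring
    rcases hsplit hq with h | h
    · left
      exact (convex_convexHull ℝ _).segment_subset hu (hC0P hzC) h
    · right
      exact (convex_convexHull ℝ _).segment_subset (hC0N hzC) hv h

end Hull

theorem covering_abstract {ι E : Type*} [AddCommGroup E] [Module ℝ E] (T P N : Set ι)
    (K : ι → Set E) (hK : ∀ i ∈ T, Convex ℝ (K i))
    (hpair : ∀ i ∈ T, i ∈ P → ∀ j ∈ T, j ∈ N → ∃ m ∈ T, m ∉ P ∧ m ∉ N ∧ ∃ θ : ℝ, 0 < θ ∧ θ < 1 ∧
      ∀ x ∈ K i, ∀ y ∈ K j, θ • x + (1 - θ) • y ∈ K m)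
    {p : E} (hp : p ∈ convexHull ℝ (⋃ i ∈ T, K i)) :
    p ∈ convexHull ℝ (⋃ i ∈ T \ P, K i) ∨ p ∈ convexHull ℝ (⋃ i ∈ T \ N, K i) := by
  set G : Set E := convexHull ℝ (⋃ i ∈ T \ P, K i) ∪ convexHull ℝ (⋃ i ∈ T \ N, K i) with hG
  have hGc : Convex ℝ G := by
    rw [convex_iff_segment_subset]
    intro u hu v hv
    rcases hu with hu | hu <;> rcases hv with hv | hv
    · exact ((convex_convexHull ℝ _).segment_subset hu hv).trans Set.subset_union_left
    · exact Hull.segment_sub T P N K hpair hu hv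
    · rw [segment_symm]
      exact Hull.segment_sub T P N K hpair hv hu
    · exact ((convex_convexHull ℝ _).segment_subset hu hv).trans Set.subset_union_right
  have hsub : (⋃ i ∈ T, K i) ⊆ G := by
    intro x hx
    simp only [Set.mem_iUnion] at hx
    obtain ⟨i, hi, hx⟩ := hx
    by_cases hP : i ∈ P
    · by_cases hN : i ∈ N
      · obtain ⟨m, hmT, hmP, _, θ, _, _, hm⟩ := hpair i hi hP i hi hN
        left
        apply subset_convexHull
        have h1 := hm x hx x hx
        rw [← add_smul, add_sub_cancel, one_smul] at h1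
        exact Set.mem_biUnion (⟨hmT, hmP⟩ : m ∈ T \ P) h1
      · right
        apply subset_convexHull
        exact Set.mem_biUnion (⟨hi, hN⟩ : i ∈ T \ N) hx
    · left
      apply subset_convexHull
      exact Set.mem_biUnion (⟨hi, hP⟩ : i ∈ T \ P) hx
  exact convexHull_min hsub hGc hp

namespace Hull

lemma isCompact_convexJoin {E : Type*} [AddCommGroup E] [Module ℝ E] [TopologicalSpace E]
    [IsTopologicalAddGroup E] [ContinuousSMul ℝ E] {s t : Set E} (hs : IsCompact s)
    (ht : IsCompact t) : IsCompact (convexJoin ℝ s t) := by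
  have h1 : convexJoin ℝ s t = (fun p : ℝ × E × E => (1 - p.1) • p.2.1 + p.1 • p.2.2) ''
      (Set.Icc (0 : ℝ) 1 ×ˢ (s ×ˢ t)) := by
    ext x
    rw [mem_convexJoin]
    constructor
    · rintro ⟨a, ha, b, hb, hx⟩
      rw [segment_eq_image] at hx
      obtain ⟨θ, hθ, rfl⟩ := hx
      exact ⟨(θ, a, b), ⟨hθ, ha, hb⟩, rfl⟩
    · rintro ⟨⟨θ, a, b⟩, ⟨hθ, ha, hb⟩, rfl⟩
      refine ⟨a, ha, b, hb, ?_⟩
      rw [segment_eq_image]
      exact ⟨θ, hθ, rfl⟩
  rw [h1]
  refine (isCompact_Icc.prod (hs.prod ht)).image ?_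
  fun_prop

end Hull

theorem isCompact_hull {ι E : Type*} [AddCommGroup E] [Module ℝ E] [TopologicalSpace E]
    [IsTopologicalAddGroup E] [ContinuousSMul ℝ E] (T : Set ι) (hT : T.Finite)
    (K : ι → Set E) (hK : ∀ i ∈ T, Convex ℝ (K i)) (hc : ∀ i ∈ T, IsCompact (K i)) :
    IsCompact (convexHull ℝ (⋃ i ∈ T, K i)) := by
  induction T, hT using Set.Finite.induction_on with
  | empty => simp
  | @insert a S _ _ ih =>
    have ih' := ih (fun i hi => hK i (Set.mem_insert_of_mem a hi))
      (fun i hi => hc i (Set.mem_insert_of_mem a hi))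
    rw [Set.biUnion_insert]
    rcases Set.eq_empty_or_nonempty (K a) with h1 | h1
    · rw [h1, Set.empty_union]
      exact ih'
    · rcases Set.eq_empty_or_nonempty (⋃ i ∈ S, K i) with h2 | h2
      · rw [h2, Set.union_empty, (hK a (Set.mem_insert a S)).convexHull_eq]
        exact hc a (Set.mem_insert a S)
      · rw [convexHull_union h1 h2, (hK a (Set.mem_insert a S)).convexHull_eq]
        exact Hull.isCompact_convexJoin (hc a (Set.mem_insert a S)) ih'

end Pool.Agent.MP_235f01_an
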