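import Pool.Agent.MP_235f01_an.Tree

set_option autoImplicit false

namespace Pool.Agent.MP_235f01_an

namespace NestAux

theorem sg_not (s : Bool) : sg (!s) = -sg s := by
  cases s <;> simp [sg]

theorem ev_neg (g : ℕ →₀ ℝ) (x y : ℕ → ℝ) (h : ∀ j ∈ g.support, x j = -y j) :
    ev g x = -ev g y := by
  simp only [ev, Finsupp.sum]
  rw [← Finset.sum_neg_distrib]
  refine Finset.sum_congr rfl fun j hj => ?_
  rw [h j hj]
  ring

theorem ev_congr' (g : ℕ →₀ ℝ) (x y : ℕ → ℝ) (h : ∀ j ∈ g.support, x j = y j) :
    ev g x = ev g y := by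
  simp only [ev, Finsupp.sum]
  refine Finset.sum_congr rfl fun j hj => ?_
  rw [h j hj]

/-- upper bounds at cluster coordinates -/
theorem u_C_ge (S : Sys) {e : Cl} {k : ℕ} (he : S.IsCl e) (hk : e.lev ≤ k) (hC : S.C k) :
    1 / 2 ≤ S.u e k := by
  by_cases h : S.le (Cl.node k true) e
  · rw [S.u_C1 e k he hk hC h]
    have := S.τ_le k hC
    linarith
  · rw [S.u_C2 e k he hk hC h]

theorem l_C_le (S : Sys) {e : Cl} {k : ℕ} (he : S.IsCl e) (hk : e.lev ≤ k) (hC : S.C k) :
    S.l e k ≤ -(1 / 2) := by
  by_cases h : S.le (Cl.node k false) e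
  · rw [S.l_C1 e k he hk hC h]
    have := S.τ_le k hC
    linarith
  · rw [S.l_C2 e k he hk hC h]

theorem u_C_le (S : Sys) {e : Cl} {k : ℕ} (he : S.IsCl e) (hk : e.lev ≤ k) (hC : S.C k) :
    S.u e k ≤ 1 - S.τ k := by
  by_cases h : S.le (Cl.node k true) e
  · rw [S.u_C1 e k he hk hC h]
  · rw [S.u_C2 e k he hk hC h]
    have := S.τ_le k hC
    linarith

theorem l_C_ge (S : Sys) {e : Cl} {k : ℕ} (he : S.IsCl e) (hk : e.lev ≤ k) (hC : S.C k) :
    -(1 - S.τ k) ≤ S.l e k := by
  by_cases h : S.le (Cl.node k false) e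
  · rw [S.l_C1 e k he hk hC h]
  · rw [S.l_C2 e k he hk hC h]
    have := S.τ_le k hC
    linarith

/-- birth coordinates above the level: three cases. -/
theorem birth_cases (S : Sys) {e : Cl} {k : ℕ} (he : S.IsCl e) (hk : e.lev ≤ k) (hC : ¬ S.C k) :
    (S.Locked (S.a k) e 1 ∧ S.l e k = 1 ∧ S.u e k = 1) ∨
    (S.Locked (S.a k) e (-1) ∧ S.l e k = -1 ∧ S.u e k = -1) ∨
    (¬ S.Locked (S.a k) e 1 ∧ ¬ S.Locked (S.a k) e (-1) ∧ S.l e k = -1 ∧ S.u e k = 1) := by
  by_cases h1 : S.Locked (S.a k) e 1
  · exact Or.inl ⟨h1, S.lock e k he hk hC 1 (Or.inl rfl) h1⟩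
  · by_cases h2 : S.Locked (S.a k) e (-1)
    · exact Or.inr (Or.inl ⟨h2, S.lock e k he hk hC (-1) (Or.inr rfl) h2⟩)
    · exact Or.inr (Or.inr ⟨h1, h2, S.free e k he hk hC h1 h2⟩)

end NestAux

open NestAux

theorem lu_neg (S : Sys) {e : Cl} (he : S.IsCl e) (k : ℕ) :
    S.l e.neg k = -S.u e k ∧ S.u e.neg k = -S.l e k := by
  induction k using Nat.strong_induction_on generalizing e with
  | _ k ih =>
    have main : ∀ e : Cl, S.IsCl e → e.lev ≤ k →
        S.l e.neg k = -S.u e k ∧ S.u e.neg k = -S.l e k := by
      intro e he hk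
      have he' := isCl_neg S he
      have hk' : e.neg.lev ≤ k := by rw [lev_neg]; exact hk
      by_cases hC : S.C k
      · have hiff : ∀ s : Bool, S.le (Cl.node k s) e.neg ↔ S.le (Cl.node k (!s)) e := by
          intro s
          constructor
          · intro h
            have := cl_le_neg S h
            rwa [neg_neg_cl] at this
          · intro h
            have := cl_le_neg S h
            simpa [Cl.neg] using this
        constructor
        · by_cases h : S.le (Cl.node k true) e
          · rw [S.u_C1 e k he hk hC h]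
            exact S.l_C1 e.neg k he' hk' hC ((hiff false).2 h)
          · rw [S.u_C2 e k he hk hC h]
            exact S.l_C2 e.neg k he' hk' hC (fun h' => h ((hiff false).1 h'))
        · by_cases h : S.le (Cl.node k false) e
          · rw [S.l_C1 e k he hk hC h, neg_neg]
            exact S.u_C1 e.neg k he' hk' hC ((hiff true).2 h)
          · rw [S.l_C2 e k he hk hC h, neg_neg]
            exact S.u_C2 e.neg k he' hk' hC (fun h' => h ((hiff true).1 h'))
      · have hsupp : ∀ j ∈ (S.a k).support, j < k := S.a_supp k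
        have hlk : ∀ f : Cl, S.IsCl f → ∀ ε : ℝ, S.Locked (S.a k) f ε →
            S.Locked (S.a k) f.neg (-ε) := by
          intro f hf ε hL
          refine ⟨fun j hj => ?_, ?_⟩
          · obtain ⟨h1, h2⟩ := ih j (hsupp j hj) hf
            rw [h1, h2, hL.1 j hj]
          · rw [← hL.2]
            refine ev_neg _ _ _ fun j hj => ?_
            obtain ⟨h1, h2⟩ := ih j (hsupp j hj) hf
            rw [h1, hL.1 j hj]
        rcases birth_cases S he hk hC with ⟨hL, h1, h2⟩ | ⟨hL, h1, h2⟩ | ⟨n1, n2, h1, h2⟩
        · rw [h1, h2]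
          exact S.lock e.neg k he' hk' hC (-1) (Or.inr rfl) (hlk e he 1 hL)
        · rw [h1, h2]
          have := hlk e he (-1) hL
          rw [neg_neg] at this
          rw [neg_neg]
          exact S.lock e.neg k he' hk' hC 1 (Or.inl rfl) this
        · rw [h1, h2, neg_neg]
          refine S.free e.neg k he' hk' hC ?_ ?_
          · intro h
            have := hlk _ he' _ h
            rw [neg_neg_cl] at this
            exact n2 this
          · intro h
            have := hlk _ he' _ h
            rw [neg_neg_cl, neg_neg] at this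
            exact n1 this
    by_cases hk : e.lev ≤ k
    · exact main e he hk
    · cases e with
      | root => simp [Cl.lev] at hk
      | node c s =>
        have hck : k ≤ c := by simp only [Cl.lev] at hk; omega
        have hC : S.C c := he
        rcases Nat.lt_or_eq_of_le hck with h | h
        · simp only [Cl.neg]
          rw [S.l_lt c (!s) k hC h, S.u_lt c (!s) k hC h, S.l_lt c s k hC h, S.u_lt c s k hC h,
            sg_not]
          constructor <;> ring
        · subst h
          simp only [Cl.neg]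
          rw [S.l_eq k (!s) hC, S.u_eq k (!s) hC, S.l_eq k s hC, S.u_eq k s hC, sg_not]
          exact ⟨rfl, rfl⟩

theorem lu_le (S : Sys) {e : Cl} (he : S.IsCl e) (k : ℕ) : S.l e k ≤ S.u e k := by
  by_cases hk : e.lev ≤ k
  · by_cases hC : S.C k
    · have h1 := u_C_ge S he hk hC
      have h2 := l_C_le S he hk hC
      linarith
    · rcases birth_cases S he hk hC with ⟨_, h1, h2⟩ | ⟨_, h1, h2⟩ | ⟨_, _, h1, h2⟩ <;>
        rw [h1, h2]
      norm_num
  · cases e with
    | root => simp [Cl.lev] at hk
    | node c s =>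
      have hck : k ≤ c := by simp only [Cl.lev] at hk; omega
      have hC : S.C c := he
      rcases Nat.lt_or_eq_of_le hck with h | h
      · rw [S.l_lt c s k hC h, S.u_lt c s k hC h]
      · subst h
        rw [S.l_eq k s hC, S.u_eq k s hC]

namespace NestAux

theorem center' (S : Sys) {c : ℕ} (s : Bool) {k : ℕ} (hC : S.C c) (h : k < c) :
    S.l (S.parent (Cl.node c s)) k ≤ sg s * S.v c k ∧
      sg s * S.v c k ≤ S.u (S.parent (Cl.node c s)) k := by
  obtain ⟨h1, h2⟩ := S.center c k hC h
  cases s with
  | true =>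
    have : S.parent (Cl.node c true) = S.par c := rfl
    rw [this]
    simp only [sg, if_true, one_mul]
    exact ⟨h1, h2⟩
  | false =>
    have : S.parent (Cl.node c false) = (S.par c).neg := rfl
    rw [this]
    obtain ⟨h3, h4⟩ := lu_neg S (S.par_cl c hC) k
    rw [h3, h4]
    have h5 : sg false = -1 := by simp [sg]
    rw [h5]
    constructor <;> linarith

end NestAux

theorem lu_bound (S : Sys) {e : Cl} (he : S.IsCl e) (k : ℕ) : -1 ≤ S.l e k ∧ S.u e k ≤ 1 := by
  have key : ∀ n : ℕ, ∀ e : Cl, S.IsCl e → e.lev ≤ n → -1 ≤ S.l e k ∧ S.u e k ≤ 1 := by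
    intro n
    induction n with
    | zero =>
      intro e he hn
      have hk : e.lev ≤ k := le_trans hn (Nat.zero_le k)
      by_cases hC : S.C k
      · have h1 := u_C_le S he hk hC
        have h2 := l_C_ge S he hk hC
        have h3 := S.τ_pos k hC
        constructor <;> linarith
      · rcases birth_cases S he hk hC with ⟨_, h1, h2⟩ | ⟨_, h1, h2⟩ | ⟨_, _, h1, h2⟩ <;>
          rw [h1, h2] <;> norm_num
    | succ n ih =>
      intro e he hn
      by_cases hk : e.lev ≤ k
      · by_cases hC : S.C k
        · have h1 := u_C_le S he hk hC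
          have h2 := l_C_ge S he hk hC
          have h3 := S.τ_pos k hC
          constructor <;> linarith
        · rcases birth_cases S he hk hC with ⟨_, h1, h2⟩ | ⟨_, h1, h2⟩ | ⟨_, _, h1, h2⟩ <;>
            rw [h1, h2] <;> norm_num
      · cases e with
        | root => simp [Cl.lev] at hk
        | node c s =>
          have hck : k ≤ c := by simp only [Cl.lev] at hk; omega
          have hC : S.C c := he
          rcases Nat.lt_or_eq_of_le hck with h | h
          · rw [S.l_lt c s k hC h, S.u_lt c s k hC h]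
            obtain ⟨h1, h2⟩ := center' S s hC h
            have hl : (S.parent (Cl.node c s)).lev ≤ n := by
              have := parent_lev S (c := c) (s := s) hC
              simp only [Cl.lev] at hn
              omega
            obtain ⟨h3, h4⟩ := ih _ (parent_cl S hC) hl
            constructor <;> linarith
          · subst h
            rw [S.l_eq k s hC, S.u_eq k s hC]
            cases s <;> simp [sg]
  exact key _ e he le_rfl

theorem root_cluster (S : Sys) {k : ℕ} (hk : S.C k) :
    S.l Cl.root k = -(1 - S.τ k) ∧ S.u Cl.root k = 1 - S.τ k := by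
  have hr : S.IsCl Cl.root := trivial
  have h0 : Cl.root.lev ≤ k := Nat.zero_le k
  refine ⟨S.l_C1 _ k hr h0 hk (cl_le_root S ?_), S.u_C1 _ k hr h0 hk (cl_le_root S ?_)⟩
  · exact hk
  · exact hk

theorem root_birth (S : Sys) {k : ℕ} (hk : ¬ S.C k) :
    S.l Cl.root k = -1 ∧ S.u Cl.root k = 1 := by
  induction k using Nat.strong_induction_on with
  | _ k ih =>
    have hr : S.IsCl Cl.root := trivial
    have h0 : Cl.root.lev ≤ k := Nat.zero_le k
    have hnl : ∀ ε : ℝ, (ε = 1 ∨ ε = -1) → ¬ S.Locked (S.a k) Cl.root ε := by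
      intro ε hε hL
      have hempty : (S.a k).support = ∅ := by
        rw [Finset.eq_empty_iff_forall_notMem]
        intro j hj
        have hjk := S.a_supp k j hj
        have heq := hL.1 j hj
        by_cases hC : S.C j
        · obtain ⟨h1, h2⟩ := root_cluster S hC
          have h3 := S.τ_le j hC
          rw [h1, h2] at heq
          linarith
        · obtain ⟨h1, h2⟩ := ih j hjk hC
          rw [h1, h2] at heq
          norm_num at heq
      have hev : ev (S.a k) (S.l Cl.root) = 0 := by
        simp [ev, Finsupp.sum, hempty]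
      have := hL.2
      rw [hev] at this
      rcases hε with h | h <;> rw [h] at this <;> norm_num at this
    exact S.free Cl.root k hr h0 hk (hnl 1 (Or.inl rfl)) (hnl (-1) (Or.inr rfl))

namespace NestAux

/-- A cluster is nondegenerate at later cluster coordinates. -/
theorem nondeg (S : Sys) {p : Cl} {j : ℕ} (hp : S.IsCl p) (hj : p.lev ≤ j) (hC : S.C j) :
    S.l p j < S.u p j := by
  have h1 := u_C_ge S hp hj hC
  have h2 := l_C_le S hp hj hC
  linarith

/-- `node j s` strictly below `p`. -/
theorem lev_of_strict (S : Sys) {p : Cl} {j : ℕ} {s : Bool} (hC : S.C j)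
    (h : S.le (Cl.node j s) p) (hne : Cl.node j s ≠ p) : p.lev ≤ j := by
  cases h with
  | refl _ => exact absurd rfl hne
  | step _ _ _ h' =>
    exact le_trans (cl_le_lev S (parent_cl S hC) h') (parent_lev S hC)

/-- One step. -/
theorem one_step (S : Sys) (k : ℕ) : ∀ (c : ℕ) (s : Bool), S.C c → k ≠ c →
    S.l (S.parent (Cl.node c s)) k ≤ S.l (Cl.node c s) k ∧
      S.u (Cl.node c s) k ≤ S.u (S.parent (Cl.node c s)) k := by
  induction k using Nat.strong_induction_on with
  | _ k ih =>
    intro c s hC hkc
    have hpl := parent_lev S (s := s) hC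
    have hpc := parent_cl S (s := s) hC
    have hec : S.IsCl (Cl.node c s) := hC
    rcases Nat.lt_or_gt_of_ne hkc with h | h
    · rw [S.l_lt c s k hC h, S.u_lt c s k hC h]
      exact center' S s hC h
    · have hke : (Cl.node c s).lev ≤ k := by simp only [Cl.lev]; omega
      have hkp : (S.parent (Cl.node c s)).lev ≤ k := by omega
      by_cases hCk : S.C k
      · constructor
        · by_cases hle : S.le (Cl.node k false) (Cl.node c s)
          · have hle' : S.le (Cl.node k false) (S.parent (Cl.node c s)) :=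
              cl_trans S hle (Raw.le.step c s _ (Raw.le.refl _))
            rw [S.l_C1 _ k hec hke hCk hle, S.l_C1 _ k hpc hkp hCk hle']
          · rw [S.l_C2 _ k hec hke hCk hle]
            exact l_C_le S hpc hkp hCk
        · by_cases hle : S.le (Cl.node k true) (Cl.node c s)
          · have hle' : S.le (Cl.node k true) (S.parent (Cl.node c s)) :=
              cl_trans S hle (Raw.le.step c s _ (Raw.le.refl _))
            rw [S.u_C1 _ k hec hke hCk hle, S.u_C1 _ k hpc hkp hCk hle']
          · rw [S.u_C2 _ k hec hke hCk hle]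
            exact u_C_ge S hpc hkp hCk
      · have hlk : ∀ ε : ℝ, S.Locked (S.a k) (S.parent (Cl.node c s)) ε →
            S.Locked (S.a k) (Cl.node c s) ε := by
          intro ε hL
          have hj1 : ∀ j ∈ (S.a k).support, S.l (Cl.node c s) j = S.l (S.parent (Cl.node c s)) j ∧
              S.u (Cl.node c s) j = S.l (S.parent (Cl.node c s)) j := by
            intro j hj
            have hjk := S.a_supp k j hj
            have heq := hL.1 j hj
            have hjc : j ≠ c := by
              intro h'
              subst h'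
              have := nondeg S hpc hpl hC
              rw [heq] at this
              exact lt_irrefl _ this
            obtain ⟨h1, h2⟩ := ih j hjk c s hC hjc
            have h3 := lu_le S hec j
            rw [← heq] at h2
            exact ⟨le_antisymm (le_trans h3 h2) h1, le_antisymm h2 (le_trans h1 h3)⟩
          refine ⟨fun j hj => ?_, ?_⟩
          · rw [(hj1 j hj).1, (hj1 j hj).2]
          · rw [← hL.2]
            exact ev_congr' _ _ _ fun j hj => (hj1 j hj).1
        have hb := lu_bound S hec k
        rcases birth_cases S hpc hkp hCk with ⟨hL, h1, h2⟩ | ⟨hL, h1, h2⟩ | ⟨_, _, h1, h2⟩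
        · have := S.lock _ k hec hke hCk 1 (Or.inl rfl) (hlk 1 hL)
          rw [h1, h2, this.1, this.2]
          exact ⟨le_rfl, le_rfl⟩
        · have := S.lock _ k hec hke hCk (-1) (Or.inr rfl) (hlk (-1) hL)
          rw [h1, h2, this.1, this.2]
          exact ⟨le_rfl, le_rfl⟩
        · rw [h1, h2]
          exact hb

end NestAux

/-- Clusters are nested, up to the exceptional coordinates. -/
theorem nest (S : Sys) {e p : Cl} (he : S.IsCl e) (h : S.le e p) (k : ℕ) :
    (S.l p k ≤ S.l e k ∧ S.u e k ≤ S.u p k) ∨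
    ∃ s, S.C k ∧ S.le e (Cl.node k s) ∧ S.le (Cl.node k s) p ∧ Cl.node k s ≠ p ∧
      S.l e k = sg s ∧ S.u e k = sg s := by
  induction h with
  | refl e => exact Or.inl ⟨le_rfl, le_rfl⟩
  | step c s p h' ih =>
    have hC : S.C c := he
    have hpc := parent_cl S (s := s) hC
    have hpl := parent_lev S (s := s) hC
    have hlev := cl_le_lev S hpc h'
    rcases ih hpc with ⟨h1, h2⟩ | ⟨s', hCk, h1, h2, h3, h4, h5⟩
    · by_cases hkc : k = c
      · subst hkc
        refine Or.inr ⟨s, hC, Raw.le.refl _, Raw.le.step k s p h', ?_, S.l_eq k s hC,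
          S.u_eq k s hC⟩
        intro heq
        rw [← heq] at hlev
        simp only [Cl.lev] at hlev
        have h6 := le_trans hlev hpl
        omega
      · obtain ⟨h3, h4⟩ := one_step S k c s hC hkc
        exact Or.inl ⟨le_trans h1 h3, le_trans h4 h2⟩
    · have hk1 : k + 1 ≤ (S.parent (Cl.node c s)).lev := cl_le_lev S hpc h1
      have hkc : k ≠ c := by omega
      obtain ⟨h6, h7⟩ := one_step S k c s hC hkc
      have h8 := lu_le S he k
      rw [h4] at h6
      rw [h5] at h7
      exact Or.inr ⟨s', hCk, Raw.le.step c s _ h1, h2, h3, le_antisymm (le_trans h8 h7) h6,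
        le_antisymm h7 (le_trans h6 h8)⟩

theorem nest_birth (S : Sys) {e p : Cl} (he : S.IsCl e) (h : S.le e p) {k : ℕ} (hk : ¬ S.C k) :
    S.l p k ≤ S.l e k ∧ S.u e k ≤ S.u p k := by
  rcases nest S he h k with h1 | ⟨s, hC, _⟩
  · exact h1
  · exact absurd hC hk

theorem locked_mono (S : Sys) {e p : Cl} (he : S.IsCl e) (h : S.le e p) {g : ℕ →₀ ℝ} {ε : ℝ}
    (hL : S.Locked g p ε) : S.Locked g e ε := by
  have hp := cl_le_cl S he h
  have hj1 : ∀ j ∈ g.support, S.l e j = S.l p j ∧ S.u e j = S.l p j := by
    intro j hj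
    have heq := hL.1 j hj
    have h3 := lu_le S he j
    rcases nest S he h j with ⟨h1, h2⟩ | ⟨s, hC, _, h2, h3, _⟩
    · rw [← heq] at h2
      exact ⟨le_antisymm (le_trans h3 h2) h1, le_antisymm h2 (le_trans h1 h3)⟩
    · exfalso
      have hl := lev_of_strict S hC h2 h3
      have := nondeg S hp hl hC
      rw [heq] at this
      exact lt_irrefl _ this
  refine ⟨fun j hj => ?_, ?_⟩
  · rw [(hj1 j hj).1, (hj1 j hj).2]
  · rw [← hL.2]
    exact ev_congr' _ _ _ fun j hj => (hj1 j hj).1

theorem box_tip (S : Sys) {e : Cl} {c : ℕ} {s : Bool} (hc : S.C c) (he : S.IsCl e)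
    (h : S.le e (Cl.node c s)) :
    (S.l e c = sg s ∧ S.u e c = sg s) ∧
      ∀ j < c, S.l e j = sg s * S.v c j ∧ S.u e j = sg s * S.v c j := by
  constructor
  · rcases nest S he h c with ⟨h1, h2⟩ | ⟨s', hC, _, h2, h3, _⟩
    · have h3 := lu_le S he c
      rw [S.l_eq c s hc] at h1
      rw [S.u_eq c s hc] at h2
      exact ⟨le_antisymm (le_trans h3 h2) h1, le_antisymm h2 (le_trans h1 h3)⟩
    · exact absurd (cl_le_eq S (e := Cl.node c s') hc h2 rfl) h3
  · intro j hj
    rcases nest S he h j with ⟨h1, h2⟩ | ⟨s', hC, _, h2, h3, _⟩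
    · have h3 := lu_le S he j
      rw [S.l_lt c s j hc hj] at h1
      rw [S.u_lt c s j hc hj] at h2
      exact ⟨le_antisymm (le_trans h3 h2) h1, le_antisymm h2 (le_trans h1 h3)⟩
    · have := cl_le_lev S (e := Cl.node j s') hC h2
      simp only [Cl.lev] at this
      omega

theorem box_not_tip (S : Sys) {e : Cl} {c : ℕ} (hc : S.C c) (he : S.IsCl e)
    (h : ¬ S.le e (Cl.node c true)) : S.u e c ≤ 1 - S.τ c := by
  rcases nest S he (cl_le_root S he) c with ⟨_, h2⟩ | ⟨s, _, h1, _, _, _, h5⟩
  · rw [(root_cluster S hc).2] at h2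
    exact h2
  · cases s with
    | true => exact absurd h1 h
    | false =>
      rw [h5]
      have := S.τ_le c hc
      simp only [sg]
      norm_num
      linarith

/-- A cluster below `node c s`, compared with the parent of `node c s`. -/
theorem nest_parent (S : Sys) {e : Cl} {c : ℕ} {s : Bool} (he : S.IsCl e)
    (h : S.le e (Cl.node c s)) (k : ℕ) :
    (S.l (S.parent (Cl.node c s)) k ≤ S.l e k ∧ S.u e k ≤ S.u (S.parent (Cl.node c s)) k) ∨
    (S.C k ∧ c ≤ k ∧ S.l (S.parent (Cl.node c s)) k - S.τ k ≤ S.l e k ∧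
      S.u e k ≤ S.u (S.parent (Cl.node c s)) k + S.τ k) := by
  have hd : S.IsCl (Cl.node c s) := cl_le_cl S he h
  have hC : S.C c := hd
  have hpc := parent_cl S (s := s) hC
  have hpl := parent_lev S (s := s) hC
  have hP : S.le e (S.parent (Cl.node c s)) :=
    cl_trans S h (Raw.le.step c s _ (Raw.le.refl _))
  rcases nest S he hP k with h1 | ⟨s', hCk, h1, h2, h3, h4, h5⟩
  · exact Or.inl h1
  · have hck : c ≤ k := by
      rcases cl_chain S h1 h with h6 | h6
      · have := cl_le_lev S (e := Cl.node k s') hCk h6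
        simp only [Cl.lev] at this
        omega
      · cases h6 with
        | refl _ => exact le_rfl
        | step _ _ _ h7 =>
          exfalso
          have a1 := cl_le_lev S hpc h7
          have a2 := cl_le_lev S (e := Cl.node k s') hCk h2
          exact h3 (cl_le_eq S (e := Cl.node k s') hCk h2 (le_antisymm a2 a1))
    have hkp : (S.parent (Cl.node c s)).lev ≤ k := by omega
    have hτ := S.τ_pos k hCk
    have hτ' := S.τ_le k hCk
    refine Or.inr ⟨hCk, hck, ?_⟩
    rw [h4, h5]
    cases s' with
    | true =>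
      rw [S.u_C1 _ k hpc hkp hCk h2]
      have := l_C_le S hpc hkp hCk
      simp only [sg, if_true]
      constructor <;> linarith
    | false =>
      rw [S.l_C1 _ k hpc hkp hCk h2]
      have := u_C_ge S hpc hkp hCk
      have h6 : sg false = -1 := by simp [sg]
      rw [h6]
      constructor <;> linarith

end Pool.Agent.MP_235f01_an
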