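import Pool.Agent.MP_235f01_an.Tree
import Pool.Agent.MP_235f01_an.Nest

/-!
# The pair lemma
-/

set_option autoImplicit false

namespace Pool.Agent.MP_235f01_an

namespace PairAux

theorem lev_node (c : ℕ) (s : Bool) : (Cl.node c s).lev = c + 1 := rfl

theorem le_parent (S : Sys) {c : ℕ} {s : Bool} {p : Cl} (h : S.le (Cl.node c s) p)
    (hne : Cl.node c s ≠ p) : S.le (S.parent (Cl.node c s)) p := by
  cases h with
  | refl => exact absurd rfl hne
  | step _ _ _ h => exact h

theorem le_antisymm' (S : Sys) {e p : Cl} (he : S.IsCl e) (h : S.le e p) (h' : S.le p e) :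
    e = p := by
  have hp := cl_le_cl S he h
  exact cl_le_eq S he h (le_antisymm (cl_le_lev S he h) (cl_le_lev S hp h'))

/-- data of two siblings -/
structure Sib (S : Sys) (c : ℕ) (s : Bool) (c' : ℕ) (s' : Bool) (m : Cl) : Prop where
  hc : S.C c
  hc' : S.C c'
  ne : Cl.node c s ≠ Cl.node c' s'
  pd : S.parent (Cl.node c s) = m
  pd' : S.parent (Cl.node c' s') = m

theorem Sib.swap {S : Sys} {c : ℕ} {s : Bool} {c' : ℕ} {s' : Bool} {m : Cl}
    (h : Sib S c s c' s' m) : Sib S c' s' c s m :=
  ⟨h.hc', h.hc, h.ne.symm, h.pd', h.pd⟩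

theorem neg_node (c : ℕ) (s : Bool) : (Cl.node c s).neg = Cl.node c (!s) := rfl

theorem Sib.neg {S : Sys} {c : ℕ} {s : Bool} {c' : ℕ} {s' : Bool} {m : Cl}
    (h : Sib S c s c' s' m) : Sib S c (!s) c' (!s') m.neg := by
  refine ⟨h.hc, h.hc', ?_, ?_, ?_⟩
  · intro h1
    apply h.ne
    have := congrArg Cl.neg h1
    rwa [neg_node, neg_node, Bool.not_not, Bool.not_not] at this
  · rw [← neg_node, parent_neg, h.pd]
  · rw [← neg_node, parent_neg, h.pd']

theorem Sib.isCl {S : Sys} {c : ℕ} {s : Bool} {c' : ℕ} {s' : Bool} {m : Cl}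
    (h : Sib S c s c' s' m) : S.IsCl m := h.pd ▸ parent_cl S h.hc

theorem Sib.lev {S : Sys} {c : ℕ} {s : Bool} {c' : ℕ} {s' : Bool} {m : Cl}
    (h : Sib S c s c' s' m) : m.lev ≤ c := h.pd ▸ parent_lev S h.hc

/-- siblings are not comparable -/
theorem Sib.not_le {S : Sys} {c : ℕ} {s : Bool} {c' : ℕ} {s' : Bool} {m : Cl}
    (h : Sib S c s c' s' m) : ¬ S.le (Cl.node c s) (Cl.node c' s') := by
  intro h1
  have h2 := le_parent S h1 h.ne
  rw [h.pd] at h2
  have h3 := cl_le_lev S h.isCl h2
  have h4 := h.swap.lev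
  rw [lev_node] at h3
  omega

theorem Sib.not_both {S : Sys} {c : ℕ} {s : Bool} {c' : ℕ} {s' : Bool} {m : Cl}
    (h : Sib S c s c' s' m) {q : Cl} (h1 : S.le q (Cl.node c s)) :
    ¬ S.le q (Cl.node c' s') := by
  intro h2
  rcases cl_chain S h1 h2 with h3 | h3
  · exact h.not_le h3
  · exact h.swap.not_le h3

/-- an exceptional cluster lies below the child -/
theorem exc_below (S : Sys) {e : Cl} {c : ℕ} {s : Bool} {m : Cl}
    (pd : S.parent (Cl.node c s) = m) (hed : S.le e (Cl.node c s)) {k : ℕ} {t : Bool} (hk : S.C k)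
    (h1 : S.le e (Cl.node k t)) (h2 : S.le (Cl.node k t) m) (h3 : Cl.node k t ≠ m) :
    S.le (Cl.node k t) (Cl.node c s) := by
  rcases cl_chain S h1 hed with h | h
  · exact h
  · by_cases h4 : Cl.node c s = Cl.node k t
    · rw [h4]; exact Raw.le.refl _
    · have h5 := le_parent S h h4
      rw [pd] at h5
      exact absurd (le_antisymm' S (e := Cl.node k t) hk h2 h5) h3

theorem half_bound (S : Sys) {e d : Cl} (he : S.IsCl e) (hed : S.le e d) {k : ℕ}
    (hk : S.C k) (hlev : d.lev ≤ k) (hn : ¬ S.le (Cl.node k true) d) : S.u e k ≤ 1 / 2 := by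
  have hd := cl_le_cl S he hed
  have hu := S.u_C2 d k hd hlev hk hn
  rcases nest S he hed k with h | ⟨t, -, -, h2, -, -, h5⟩
  · rw [← hu]; exact h.2
  · cases t with
    | true => exact absurd h2 hn
    | false => rw [h5]; simp [sg]; norm_num

/-- the upper half of the statement -/
def Up (S : Sys) (θ : ℝ) (e e' m : Cl) : Prop :=
  ∀ k, θ * S.u e k + (1 - θ) * S.u e' k ≤ S.u m k

theorem not_exc (S : Sys) {e m : Cl} (he : S.IsCl e) (h : S.le e m) (k : ℕ) :
    S.u e k ≤ S.u m k ∨ (S.C k ∧ S.le e (Cl.node k true) ∧ S.le (Cl.node k true) m ∧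
      Cl.node k true ≠ m ∧ S.u e k = 1 ∧ m.lev ≤ k ∧ S.u m k = 1 - S.τ k) := by
  have hm := cl_le_cl S he h
  rcases nest S he h k with h1 | ⟨t, hk, h2, h3, h4, -, h5⟩
  · exact Or.inl h1.2
  · cases t with
    | false =>
      left
      rw [h5]
      have := (lu_bound S hm k).1
      have := lu_le S hm k
      simp only [sg]
      norm_num
      linarith
    | true =>
      right
      have hlev : m.lev ≤ k := by
        have h6 := cl_le_lev S (e := Cl.node k true) hk h3
        rw [lev_node] at h6
        by_contra hcon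
        have h7 : m.lev = (Cl.node k true).lev := by rw [lev_node]; omega
        exact h4 (cl_le_eq S (e := Cl.node k true) hk h3 h7)
      refine ⟨hk, h2, h3, h4, ?_, hlev, S.u_C1 m k hm hlev hk h3⟩
      rw [h5]; simp [sg]

/-- existence of the weight -/
theorem exists_theta (S : Sys) {c : ℕ} (hc : S.C c) :
    ∃ θ : ℝ, 0 < θ ∧ θ ≤ 1 / 2 ∧
      (∀ j < c, S.C j → (S.v c j < 1 - S.τ j → θ * (1 - S.v c j) ≤ 1 - S.v c j - S.τ j) ∧
        (-(1 - S.τ j) < S.v c j → θ * (1 + S.v c j) ≤ 1 + S.v c j - S.τ j)) ∧
      ∀ k, c ≤ k → S.C k → 2 * S.τ k ≤ θ := by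
  have key : ∀ n ≤ c, ∃ θ : ℝ, 0 < θ ∧ θ ≤ 1 / 2 ∧
      (∀ j < n, S.C j → (S.v c j < 1 - S.τ j → θ * (1 - S.v c j) ≤ 1 - S.v c j - S.τ j) ∧
        (-(1 - S.τ j) < S.v c j → θ * (1 + S.v c j) ≤ 1 + S.v c j - S.τ j)) ∧
      ∀ k, c ≤ k → S.C k → 2 * S.τ k ≤ θ := by
    intro n
    induction n with
    | zero =>
      intro _
      refine ⟨1 / 2, by norm_num, le_refl _, fun j hj => absurd hj (Nat.not_lt_zero j), ?_⟩
      intro k _ hk
      have := S.τ_le k hk
      linarith
    | succ n ih =>
      intro hn
      obtain ⟨θ, h0, h1, h2, h3⟩ := ih (by omega)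
      by_cases hCn : S.C n
      · have hτ := S.τ_pos n hCn
        -- the two candidate bounds
        obtain ⟨A, hA0, hA1, hA2⟩ : ∃ A : ℝ, 0 < A ∧
            (S.v c n < 1 - S.τ n → A * (1 - S.v c n) ≤ 1 - S.v c n - S.τ n) ∧
            ∀ k, c ≤ k → S.C k → 2 * S.τ k ≤ A := by
          by_cases hv : S.v c n < 1 - S.τ n
          · have hp : 0 < 1 - S.v c n := by linarith
            refine ⟨(1 - S.v c n - S.τ n) / (2 * (1 - S.v c n)), ?_, ?_, ?_⟩
            · apply div_pos <;> linarith
            · intro _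
              rw [div_mul_eq_mul_div, div_le_iff₀ (by linarith)]
              nlinarith
            · intro k hk hCk
              have := S.T1 c k n hc hCk hCn (by omega) hk hv
              rw [le_div_iff₀ (by linarith)]
              linarith
          · exact ⟨1 / 2, by norm_num, fun h => absurd h hv, fun k _ hCk => by
              have := S.τ_le k hCk
              linarith⟩
        obtain ⟨B, hB0, hB1, hB2⟩ : ∃ B : ℝ, 0 < B ∧
            (-(1 - S.τ n) < S.v c n → B * (1 + S.v c n) ≤ 1 + S.v c n - S.τ n) ∧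
            ∀ k, c ≤ k → S.C k → 2 * S.τ k ≤ B := by
          by_cases hv : -(1 - S.τ n) < S.v c n
          · have hp : 0 < 1 + S.v c n := by linarith
            refine ⟨(1 + S.v c n - S.τ n) / (2 * (1 + S.v c n)), ?_, ?_, ?_⟩
            · apply div_pos <;> linarith
            · intro _
              rw [div_mul_eq_mul_div, div_le_iff₀ (by linarith)]
              nlinarith
            · intro k hk hCk
              have := S.T2 c k n hc hCk hCn (by omega) hk hv
              rw [le_div_iff₀ (by linarith)]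
              linarith
          · exact ⟨1 / 2, by norm_num, fun h => absurd h hv, fun k _ hCk => by
              have := S.τ_le k hCk
              linarith⟩
        refine ⟨min θ (min A B), lt_min h0 (lt_min hA0 hB0), (min_le_left _ _).trans h1, ?_, ?_⟩
        · intro j hj hCj
          have hτj := S.τ_pos j hCj
          rcases Nat.lt_succ_iff_lt_or_eq.1 hj with hj' | hj'
          · refine ⟨fun hv => ?_, fun hv => ?_⟩
            · refine le_trans ?_ ((h2 j hj' hCj).1 hv)
              exact mul_le_mul_of_nonneg_right (min_le_left _ _) (by linarith)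
            · refine le_trans ?_ ((h2 j hj' hCj).2 hv)
              exact mul_le_mul_of_nonneg_right (min_le_left _ _) (by linarith)
          · subst hj'
            refine ⟨fun hv => ?_, fun hv => ?_⟩
            · refine le_trans ?_ (hA1 hv)
              exact mul_le_mul_of_nonneg_right ((min_le_right _ _).trans (min_le_left _ _))
                (by linarith)
            · refine le_trans ?_ (hB1 hv)
              exact mul_le_mul_of_nonneg_right ((min_le_right _ _).trans (min_le_right _ _))
                (by linarith)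
        · intro k hk hCk
          exact le_min (h3 k hk hCk) (le_min (hA2 k hk hCk) (hB2 k hk hCk))
      · refine ⟨θ, h0, h1, ?_, h3⟩
        intro j hj hCj
        rcases Nat.lt_succ_iff_lt_or_eq.1 hj with hj' | hj'
        · exact h2 j hj' hCj
        · subst hj'; exact absurd hCj hCn
  exact key c le_rfl

/-- the upper half, different coordinates -/
theorem up_lt (S : Sys) {e e' : Cl} (he : S.IsCl e) (he' : S.IsCl e') {c c' : ℕ} {s s' : Bool}
    {m : Cl} (sib : Sib S c s c' s' m) (hed : S.le e (Cl.node c s))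
    (hed' : S.le e' (Cl.node c' s')) (hlt : c < c') {θ : ℝ} (h0 : 0 < θ) (h1 : θ ≤ 1 / 2)
    (h2 : ∀ j < c', S.C j → (S.v c' j < 1 - S.τ j → θ * (1 - S.v c' j) ≤ 1 - S.v c' j - S.τ j) ∧
        (-(1 - S.τ j) < S.v c' j → θ * (1 + S.v c' j) ≤ 1 + S.v c' j - S.τ j))
    (h3 : ∀ k, c' ≤ k → S.C k → 2 * S.τ k ≤ θ) : Up S θ e e' m := by
  have hem : S.le e m := cl_trans S hed (by rw [← sib.pd]; exact Raw.le.step _ _ _ (Raw.le.refl _))
  have hem' : S.le e' m :=
    cl_trans S hed' (by rw [← sib.pd']; exact Raw.le.step _ _ _ (Raw.le.refl _))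
  intro k
  rcases not_exc S he' hem' k with g' | ⟨hk, g1', g2', g3', g4', g5', g6'⟩
  · rcases not_exc S he hem k with g | ⟨hk, g1, g2, g3, g4, g5, g6⟩
    · nlinarith
    · -- exceptional for `e` only
      have hb := exc_below S sib.pd hed hk g1 g2 g3
      have hτ := S.τ_pos k hk
      have hτ' := S.τ_le k hk
      rw [g4, g6]
      rcases lt_trichotomy k c' with hlt' | heq | hgt
      · -- `k < c'`
        have htip := ((box_tip S sib.hc' he' hed').2 k hlt').2
        have hcs := S.center_strict c' k sib.hc' hlt' hk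
        have hlevpar : (S.par c').lev = m.lev ∧
            (s' = true → S.par c' = m) ∧ (s' = false → (S.par c').neg = m) := by
          have hp := sib.pd'
          cases s' with
          | true =>
            have h : S.par c' = m := hp
            exact ⟨by rw [h], fun _ => h, fun h => absurd h (by decide)⟩
          | false =>
            have h : (S.par c').neg = m := hp
            exact ⟨by rw [← h, lev_neg], fun h => absurd h (by decide), fun _ => h⟩
        have hcs' := hcs (by rw [hlevpar.1]; exact g5)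
        rw [htip]
        cases s' with
        | true =>
          have h4 := hlevpar.2.1 rfl
          rw [h4, g6] at hcs'
          have h5 := (h2 k hlt' hk).1 hcs'.2
          simp only [sg, if_true, one_mul]
          linarith
        | false =>
          have h4 := hlevpar.2.2 rfl
          have h5 := (lu_neg S (S.par_cl c' sib.hc') k).2
          have h6 : S.u (S.par c').neg k = 1 - S.τ k := by rw [h4]; exact g6
          have h7 : -(1 - S.τ k) < S.v c' k := by
            have : S.l (S.par c') k = -(1 - S.τ k) := by rw [← h6, h5]; ring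
            rw [← this]; exact hcs'.1
          have h8 := (h2 k hlt' hk).2 h7
          simp only [sg]
          norm_num
          linarith
      · -- `k = c'` is impossible
        exfalso
        subst heq
        have h4 : S.le (S.parent (Cl.node k true)) (Cl.node c s) :=
          le_parent S hb (by intro h; rw [Cl.node.injEq] at h; omega)
        have h5 := cl_le_lev S (parent_cl S hk) h4
        rw [lev_node] at h5
        have h6 : (S.parent (Cl.node k true)).lev = m.lev := by
          have hp := sib.pd'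
          cases s' with
          | true => rw [hp]
          | false =>
            rw [← hp, ← lev_neg, ← parent_neg]; rfl
        have h7 := sib.lev
        omega
      · have h4 := half_bound S he' hed' hk (by rw [lev_node]; omega) (sib.not_both hb)
        nlinarith
  · -- exceptional for `e'`
    have hb' := exc_below S sib.pd' hed' hk g1' g2' g3'
    have h4 : c' ≤ k := by
      have := cl_le_lev S (e := Cl.node k true) hk hb'
      rw [lev_node, lev_node] at this
      omega
    have h5 := half_bound S he hed hk (by rw [lev_node]; omega) (sib.swap.not_both hb')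
    have h6 := h3 k h4 hk
    rw [g4', g6']
    nlinarith

/-- the upper half, equal coordinates -/
theorem up_eq (S : Sys) {e e' : Cl} (he : S.IsCl e) (he' : S.IsCl e') {c : ℕ} {s s' : Bool}
    {m : Cl} (sib : Sib S c s c s' m) (hed : S.le e (Cl.node c s))
    (hed' : S.le e' (Cl.node c s')) : Up S (1 / 2) e e' m := by
  have hem : S.le e m := cl_trans S hed (by rw [← sib.pd]; exact Raw.le.step _ _ _ (Raw.le.refl _))
  have hem' : S.le e' m :=
    cl_trans S hed' (by rw [← sib.pd']; exact Raw.le.step _ _ _ (Raw.le.refl _))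
  have hss : s' = !s := by
    have := sib.ne
    rw [Ne, Cl.node.injEq] at this
    cases s <;> cases s' <;> simp_all
  intro k
  rcases not_exc S he' hem' k with g' | ⟨hk, g1', g2', g3', g4', g5', g6'⟩
  · rcases not_exc S he hem k with g | ⟨hk, g1, g2, g3, g4, g5, g6⟩
    · linarith
    · have hb := exc_below S sib.pd hed hk g1 g2 g3
      have hτ := S.τ_pos k hk
      have hτ' := S.τ_le k hk
      have hck : c ≤ k := by
        have := cl_le_lev S (e := Cl.node k true) hk hb
        rw [lev_node, lev_node] at this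
        omega
      rw [g4, g6]
      rcases Nat.eq_or_lt_of_le hck with heq | hgt
      · subst heq
        have h5 : Cl.node c true = Cl.node c s := cl_le_eq S (e := Cl.node c true) hk hb rfl
        rw [Cl.node.injEq] at h5
        have h6 := (box_tip S sib.hc' he' hed').1.2
        rw [hss, ← h5.2] at h6
        rw [h6]
        simp only [sg]
        norm_num
        linarith
      · have h4 := half_bound S he' hed' hk (by rw [lev_node]; omega) (sib.not_both hb)
        linarith
  · have hb' := exc_below S sib.pd' hed' hk g1' g2' g3'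
    have hτ := S.τ_pos k hk
    have hτ' := S.τ_le k hk
    have hck : c ≤ k := by
      have := cl_le_lev S (e := Cl.node k true) hk hb'
      rw [lev_node, lev_node] at this
      omega
    rw [g4', g6']
    rcases Nat.eq_or_lt_of_le hck with heq | hgt
    · subst heq
      have h5 : Cl.node c true = Cl.node c s' := cl_le_eq S (e := Cl.node c true) hk hb' rfl
      rw [Cl.node.injEq] at h5
      have h6 := (box_tip S sib.hc he hed).1.2
      have h7 : s = false := by
        have := h5.2.trans hss
        cases s with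
        | true => simp at this
        | false => rfl
      rw [h7] at h6
      rw [h6]
      simp only [sg]
      norm_num
      linarith
    · have h4 := half_bound S he hed hk (by rw [lev_node]; omega) (sib.swap.not_both hb')
      linarith

/-- from the two halves to the boxes -/
theorem of_up (S : Sys) {e e' m : Cl} (he : S.IsCl e) (he' : S.IsCl e') (hm : S.IsCl m) {θ : ℝ}
    (h0 : 0 < θ) (h1 : θ < 1) (hu : Up S θ e e' m) (hl : Up S θ e.neg e'.neg m.neg) :
    ∀ x ∈ S.box e, ∀ y ∈ S.box e', θ • x + (1 - θ) • y ∈ S.box m := by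
  intro x hx y hy k
  have h2 := hu k
  have h3 := hl k
  rw [(lu_neg S he k).2, (lu_neg S he' k).2, (lu_neg S hm k).2] at h3
  obtain ⟨a1, a2⟩ := hx k
  obtain ⟨b1, b2⟩ := hy k
  simp only [Pi.add_apply, Pi.smul_apply, smul_eq_mul]
  have c1 : θ * S.l e k ≤ θ * x k := mul_le_mul_of_nonneg_left a1 h0.le
  have c2 : θ * x k ≤ θ * S.u e k := mul_le_mul_of_nonneg_left a2 h0.le
  have c3 : (1 - θ) * S.l e' k ≤ (1 - θ) * y k := mul_le_mul_of_nonneg_left b1 (by linarith)
  have c4 : (1 - θ) * y k ≤ (1 - θ) * S.u e' k := mul_le_mul_of_nonneg_left b2 (by linarith)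
  constructor <;> linarith

/-- the case `c < c'` -/
theorem pair_lt (S : Sys) {e e' : Cl} (he : S.IsCl e) (he' : S.IsCl e') {c c' : ℕ} {s s' : Bool}
    {m : Cl} (sib : Sib S c s c' s' m) (hed : S.le e (Cl.node c s))
    (hed' : S.le e' (Cl.node c' s')) (hlt : c < c') : ∃ θ : ℝ, 0 < θ ∧ θ < 1 ∧
      ∀ x ∈ S.box e, ∀ y ∈ S.box e', θ • x + (1 - θ) • y ∈ S.box m := by
  obtain ⟨θ, h0, h1, h2, h3⟩ := exists_theta S sib.hc'
  refine ⟨θ, h0, by linarith, of_up S he he' sib.isCl h0 (by linarith)
    (up_lt S he he' sib hed hed' hlt h0 h1 h2 h3)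
    (up_lt S (isCl_neg S he) (isCl_neg S he') sib.neg (cl_le_neg S hed) (cl_le_neg S hed') hlt
      h0 h1 h2 h3)⟩

end PairAux

open PairAux in
theorem pair (S : Sys) {e e' : Cl} (he : S.IsCl e) (he' : S.IsCl e') (h1 : ¬ S.le e e')
    (h2 : ¬ S.le e' e) : ∃ m, S.IsCl m ∧ S.le e m ∧ S.le e' m ∧ ∃ θ : ℝ, 0 < θ ∧ θ < 1 ∧
      ∀ x ∈ S.box e, ∀ y ∈ S.box e', θ • x + (1 - θ) • y ∈ S.box m := by
  obtain ⟨c, s, c', s', hed, hed', hne, hp⟩ := cl_lca S he he' h1 h2
  have hc : S.C c := cl_le_cl S he hed
  have hc' : S.C c' := cl_le_cl S he' hed'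
  have sib : Sib S c s c' s' (S.parent (Cl.node c s)) := ⟨hc, hc', hne, rfl, hp.symm⟩
  refine ⟨S.parent (Cl.node c s), sib.isCl,
    cl_trans S hed (Raw.le.step _ _ _ (Raw.le.refl _)),
    cl_trans S hed' (by rw [hp]; exact Raw.le.step _ _ _ (Raw.le.refl _)), ?_⟩
  rcases lt_trichotomy c c' with hlt | heq | hgt
  · exact pair_lt S he he' sib hed hed' hlt
  · subst heq
    exact ⟨1 / 2, by norm_num, by norm_num, of_up S he he' sib.isCl (by norm_num) (by norm_num)
      (up_eq S he he' sib hed hed')
      (up_eq S (isCl_neg S he) (isCl_neg S he') sib.neg (cl_le_neg S hed) (cl_le_neg S hed'))⟩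
  · obtain ⟨θ, h0, h1, h2⟩ := pair_lt S he' he sib.swap hed' hed hgt
    refine ⟨1 - θ, by linarith, by linarith, fun x hx y hy => ?_⟩
    have := h2 y hy x hx
    rw [add_comm] at this
    rwa [sub_sub_cancel]

end Pool.Agent.MP_235f01_an
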