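import Pool.Agent.MP_235f01_an.Ball
import Pool.Agent.MP_235f01_an.Pair
import Pool.Agent.MP_235f01_an.Hull

/-!
# Module H: adding bumps at births of `g`
-/

set_option autoImplicit false

namespace Pool.Agent.MP_235f01_an

open Ext

namespace Birth

theorem ev_bump_zero (S : Sys) {g : ℕ →₀ ℝ} {N m : ℕ} (hsupp : ∀ j ∈ g.support, j < N)
    (hm : N ≤ m) : ev g (S.bump m) = 0 := by
  rw [ev_congr (y := 0), ev_zero]
  intro j hj
  rw [bump_lt S (lt_of_lt_of_le (hsupp j hj) hm)]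
  rfl

/-- Covering: either no box locked at `1` or no box locked at `-1` is needed. -/
theorem cover (S : Sys) (g : ℕ →₀ ℝ) (N : ℕ) {p : ℕ → ℝ} (hp : p ∈ S.B) (hpN : p ∈ S.Vn N) :
    ∃ σ : ℝ, (σ = 1 ∨ σ = -1) ∧ p ∈ convexHull ℝ
      (⋃ e ∈ {e | S.IsCl e ∧ e.lev ≤ N ∧ ¬ S.Locked g e (-σ)},
        S.box e ∩ (S.Vn N : Set (ℕ → ℝ))) := by
  have h1 := B_trunc S hp hpN
  have hne : ∀ e, S.Locked g e 1 → S.Locked g e (-1) → False := by
    intro e h h'
    have := h.2.symm.trans h'.2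
    norm_num at this
  have h2 := covering_abstract {e | S.IsCl e ∧ e.lev ≤ N} {e | S.Locked g e 1}
    {e | S.Locked g e (-1)} (fun e => S.box e ∩ (S.Vn N : Set (ℕ → ℝ)))
    (fun e _ => (box_convex S e).inter (S.Vn N).convex) (by
      rintro i ⟨hi, hil⟩ hiP j ⟨hj, hjl⟩ hjN
      simp only [Set.mem_setOf_eq] at hiP hjN
      obtain ⟨m, hm, him, hjm, θ, h0, h1, hθ⟩ := pair S hi hj
        (fun h => hne i hiP (locked_mono S hi h hjN))
        (fun h => hne j (locked_mono S hj h hiP) hjN)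
      refine ⟨m, ⟨hm, (cl_le_lev S hi him).trans hil⟩, fun h => hne j (locked_mono S hj hjm h) hjN,
        fun h => hne i hiP (locked_mono S hi him h), θ, h0, h1, ?_⟩
      rintro x ⟨hx, hxV⟩ y ⟨hy, hyV⟩
      exact ⟨hθ x hx y hy, (S.Vn N).convex hxV hyV h0.le (by linarith) (by ring)⟩) h1
  rcases h2 with h2 | h2
  · refine ⟨-1, Or.inr rfl, ?_⟩
    refine convexHull_mono ?_ h2
    apply Set.biUnion_subset_biUnion_left
    rintro e ⟨⟨he, hel⟩, hP⟩
    refine ⟨he, hel, ?_⟩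
    rw [neg_neg]
    exact hP
  · refine ⟨1, Or.inl rfl, ?_⟩
    refine convexHull_mono ?_ h2
    apply Set.biUnion_subset_biUnion_left
    rintro e ⟨⟨he, hel⟩, hP⟩
    exact ⟨he, hel, hP⟩

/-- One box. -/
theorem one_box (S : Sys) (g : ℕ →₀ ℝ) (N : ℕ) (hsupp : ∀ j ∈ g.support, j < N) {σ : ℝ}
    (hσ : σ = 1 ∨ σ = -1) {e : Cl} (he : S.IsCl e) (hel : e.lev ≤ N)
    (hL : ¬ S.Locked g e (-σ)) {x : ℕ → ℝ} (hx : x ∈ S.box e) (hxV : x ∈ S.Vn N)
    (I : Finset ℕ) (hI : ∀ m ∈ I, N ≤ m ∧ ¬ S.C m ∧ S.a m = g) :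
    x + (σ - ev g x) • ∑ m ∈ I, S.bump m ∈ S.box e := by
  apply box_of_rec S he
  intro k
  rcases lt_or_ge k N with hk | hk
  · left
    have h1 : (∑ m ∈ I, S.bump m) k = 0 := by
      rw [Finset.sum_apply]
      exact Finset.sum_eq_zero fun m hm => bump_lt S (lt_of_lt_of_le hk (hI m hm).1)
    rw [Pi.add_apply, Pi.smul_apply, h1, smul_zero, add_zero]
    exact hx k
  · by_cases hkI : k ∈ I
    · left
      obtain ⟨-, hC, ha⟩ := hI k hkI
      have h1 : (∑ m ∈ I, S.bump m) k = 1 := by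
        rw [Finset.sum_apply, Finset.sum_eq_single_of_mem k hkI, bump_self]
        intro m hm hmk
        rw [bump_ne S (Ne.symm hmk), ha]
        exact ev_bump_zero S hsupp (hI m hm).1
      have h2 : x k = ev g x := by rw [hxV k hk, ha]
      have h3 : (x + (σ - ev g x) • ∑ m ∈ I, S.bump m) k = σ := by
        rw [Pi.add_apply, Pi.smul_apply, h1, h2, smul_eq_mul]
        ring
      rw [h3]
      have hlk : e.lev ≤ k := hel.trans hk
      by_cases hl1 : S.Locked (S.a k) e σ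
      · obtain ⟨h4, h5⟩ := S.lock e k he hlk hC σ hσ hl1
        rw [h4, h5]
        exact ⟨le_rfl, le_rfl⟩
      · rw [ha] at hl1
        have h6 : ¬ S.Locked g e 1 ∧ ¬ S.Locked g e (-1) := by
          rcases hσ with h | h
          · rw [h] at hl1 hL
            exact ⟨hl1, hL⟩
          · rw [h] at hl1 hL
            rw [neg_neg] at hL
            exact ⟨hL, hl1⟩
        obtain ⟨h4, h5⟩ := S.free e k he hlk hC (by rw [ha]; exact h6.1) (by rw [ha]; exact h6.2)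
        rw [h4, h5]
        rcases hσ with h | h <;> rw [h] <;> norm_num
    · right
      refine ⟨hel.trans hk, ?_⟩
      rw [ev_add, ev_smul, ev_sum, Pi.add_apply, Pi.smul_apply, Finset.sum_apply, smul_eq_mul,
        ← hxV k hk]
      congr 2
      refine Finset.sum_congr rfl fun m hm => ?_
      exact bump_ne S (by rintro rfl; exact hkI hm)

end Birth

theorem birth_bump (S : Sys) (g : ℕ →₀ ℝ) (N : ℕ) (hsupp : ∀ j ∈ g.support, j < N) {p : ℕ → ℝ}
    (hp : p ∈ S.B) (hpN : p ∈ S.Vn N) : ∃ σ : ℝ, (σ = 1 ∨ σ = -1) ∧ ∀ I : Finset ℕ,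
      (∀ m ∈ I, N ≤ m ∧ ¬ S.C m ∧ S.a m = g) →
      p + (σ - ev g p) • ∑ m ∈ I, S.bump m ∈ S.B := by
  obtain ⟨σ, hσ, hc⟩ := Birth.cover S g N hp hpN
  refine ⟨σ, hσ, fun I hI => ?_⟩
  have hW : ∑ m ∈ I, S.bump m ∈ S.V := S.V.sum_mem fun m _ => Vn_le_V S _ (bump_mem S m)
  have hconv : Convex ℝ {x : ℕ → ℝ | x + (σ - ev g x) • ∑ m ∈ I, S.bump m ∈ S.B} := by
    intro x hx y hy a b ha hb hab
    have h1 : a • x + b • y + (σ - ev g (a • x + b • y)) • ∑ m ∈ I, S.bump m =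
        a • (x + (σ - ev g x) • ∑ m ∈ I, S.bump m) +
          b • (y + (σ - ev g y) • ∑ m ∈ I, S.bump m) := by
      rw [ev_add, ev_smul, ev_smul]
      have hb' : b = 1 - a := by linarith
      rw [hb']
      module
    simp only [Set.mem_setOf_eq] at hx hy ⊢
    rw [h1]
    exact convex_convexHull ℝ _ hx hy ha hb hab
  have hsub : convexHull ℝ (⋃ e ∈ {e | S.IsCl e ∧ e.lev ≤ N ∧ ¬ S.Locked g e (-σ)},
      S.box e ∩ (S.Vn N : Set (ℕ → ℝ))) ⊆
      {x : ℕ → ℝ | x + (σ - ev g x) • ∑ m ∈ I, S.bump m ∈ S.B} := by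
    apply convexHull_min _ hconv
    apply Set.iUnion₂_subset
    rintro e ⟨he, hel, hL⟩ x ⟨hx, hxV⟩
    have h1 := Birth.one_box S g N hsupp hσ he hel hL hx hxV I hI
    exact box_sub_B S he h1 (S.V.add_mem (Vn_le_V S N hxV) (S.V.smul_mem _ hW))
  exact hsub hc

end Pool.Agent.MP_235f01_an
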