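import Pool.Agent.MP_235f01_an.Defs

/-!
# MP_235f01_an, module F: completion of a gauge norm
-/

set_option autoImplicit false

namespace Pool.Agent.MP_235f01_an

namespace Complete

variable {E : Type} [AddCommGroup E] [Module ℝ E] {B : Set E}

lemma zero_mem (hc : Convex ℝ B) (hs : ∀ x ∈ B, -x ∈ B)
    (ha : ∀ x : E, ∃ t : ℝ, 0 < t ∧ t • x ∈ B) : (0 : E) ∈ B := by
  obtain ⟨t, _, h⟩ := ha 0
  rwa [smul_zero] at h

lemma balanced (hc : Convex ℝ B) (hs : ∀ x ∈ B, -x ∈ B)
    (ha : ∀ x : E, ∃ t : ℝ, 0 < t ∧ t • x ∈ B) : Balanced ℝ B := by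
  have h0 := zero_mem hc hs ha
  rw [balanced_iff_smul_mem]
  intro a hna x hx
  rw [Real.norm_eq_abs, abs_le] at hna
  rcases le_total 0 a with h | h
  · exact hc.smul_mem_of_zero_mem h0 hx ⟨h, hna.2⟩
  · have := hc.smul_mem_of_zero_mem h0 (hs x hx) (t := -a) ⟨by linarith, by linarith [hna.1]⟩
    rwa [smul_neg, neg_smul, neg_neg] at this

lemma absorbent (hc : Convex ℝ B) (hs : ∀ x ∈ B, -x ∈ B)
    (ha : ∀ x : E, ∃ t : ℝ, 0 < t ∧ t • x ∈ B) : Absorbent ℝ B := by
  have hb := balanced hc hs ha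
  rw [absorbent_iff_forall_absorbs_singleton]
  intro x
  rw [absorbs_iff_norm]
  obtain ⟨t, ht, hx⟩ := ha x
  refine ⟨1 / t, ?_⟩
  intro c hcn y hy
  rw [Set.mem_singleton_iff] at hy
  subst hy
  have hc0 : 0 < ‖c‖ := lt_of_lt_of_le (by positivity) hcn
  have hc1 : c ≠ 0 := norm_pos_iff.1 hc0
  rw [Set.mem_smul_set_iff_inv_smul_mem₀ hc1]
  have h1 : c⁻¹ • y = (c⁻¹ * t⁻¹) • (t • y) := by
    rw [smul_smul, mul_assoc, inv_mul_cancel₀ ht.ne', mul_one]
  rw [h1]
  refine balanced_iff_smul_mem.1 hb ?_ hx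
  rw [norm_mul, norm_inv, norm_inv, Real.norm_eq_abs t, abs_of_pos ht]
  rw [div_le_iff₀ ht] at hcn
  rw [← mul_inv]
  exact inv_le_one_of_one_le₀ hcn

end Complete

open Complete

theorem exists_completion {E : Type} [AddCommGroup E] [Module ℝ E] (B : Set E)
    (hc : Convex ℝ B) (hs : ∀ x ∈ B, -x ∈ B) (ha : ∀ x : E, ∃ t : ℝ, 0 < t ∧ t • x ∈ B)
    (hb : ∀ x : E, x ≠ 0 → ∃ t : ℝ, 0 < t ∧ t • x ∉ B) :
    ∃ (X : Type) (_ : NormedAddCommGroup X) (_ : NormedSpace ℝ X) (ι : E →ₗ[ℝ] X),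
      CompleteSpace X ∧ DenseRange ι ∧ (∀ x ∈ B, ‖ι x‖ ≤ 1) ∧ (∀ x, ‖ι x‖ < 1 → x ∈ B) ∧
      ∀ f : E →ₗ[ℝ] ℝ, (∀ x ∈ B, f x ≤ 1) → ∃ F : X →L[ℝ] ℝ, ∀ x, F (ι x) = f x := by
  have h0 := zero_mem hc hs ha
  have hbal := balanced hc hs ha
  have habs := absorbent hc hs ha
  have hlt : ∀ x : E, gauge B x < 1 → x ∈ B := fun x hx =>
    setOfPred_gauge_lt_one_subset_self hc h0 habs hx
  letI : Norm E := ⟨gauge B⟩
  have hnorm : ∀ x : E, ‖x‖ = gauge B x := fun _ => rfl
  have core : NormedSpace.Core ℝ E :=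
    { norm_nonneg := fun x => gauge_nonneg x
      norm_smul := fun c x => gauge_smul hbal c x
      norm_triangle := fun x y => gauge_add_le hc habs x y
      norm_eq_zero_iff := fun x => by
        constructor
        · intro hx
          by_contra hne
          obtain ⟨t, ht, hn⟩ := hb x hne
          apply hn
          apply hlt
          rw [gauge_smul hbal, ← hnorm, hx, mul_zero]
          exact zero_lt_one
        · intro hx
          rw [hx]
          exact gauge_zero }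
  letI i1 : NormedAddCommGroup E := NormedAddCommGroup.ofCore core
  letI i2 : NormedSpace ℝ E := NormedSpace.ofCore core
  refine ⟨UniformSpace.Completion E, inferInstance, inferInstance,
    (UniformSpace.Completion.toComplₗᵢ (𝕜 := ℝ) (E := E)).toLinearMap, inferInstance,
    UniformSpace.Completion.denseRange_coe, ?_, ?_, ?_⟩
  · intro x hx
    have h1 : ‖(UniformSpace.Completion.toComplₗᵢ (𝕜 := ℝ) (E := E)) x‖ = ‖x‖ :=
      LinearIsometry.norm_map _ x
    exact h1.le.trans (gauge_le_one_of_mem hx)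
  · intro x hx
    have h1 : ‖(UniformSpace.Completion.toComplₗᵢ (𝕜 := ℝ) (E := E)) x‖ = ‖x‖ :=
      LinearIsometry.norm_map _ x
    exact hlt x (h1.symm.le.trans_lt hx)
  · intro f hf
    have hfb : ∀ x : E, f x ≤ ‖x‖ := by
      intro x
      apply le_of_forall_pos_lt_add
      intro ε hε
      have hr : 0 < gauge B x + ε := add_pos_of_nonneg_of_pos (gauge_nonneg x) hε
      have h1 : (gauge B x + ε)⁻¹ • x ∈ B := by
        apply hlt
        rw [gauge_smul hbal, norm_inv, Real.norm_eq_abs, abs_of_pos hr, inv_mul_lt_iff₀ hr]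
        linarith
      have h2 := hf _ h1
      rw [map_smul, smul_eq_mul, inv_mul_le_iff₀ hr, mul_one] at h2
      rw [hnorm]
      -- strict inequality by using half of ε
      have hr' : 0 < gauge B x + ε / 2 :=
        add_pos_of_nonneg_of_pos (gauge_nonneg x) (half_pos hε)
      have h1' : (gauge B x + ε / 2)⁻¹ • x ∈ B := by
        apply hlt
        rw [gauge_smul hbal, norm_inv, Real.norm_eq_abs, abs_of_pos hr', inv_mul_lt_iff₀ hr']
        linarith
      have h2' := hf _ h1'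
      rw [map_smul, smul_eq_mul, inv_mul_le_iff₀ hr', mul_one] at h2'
      linarith
    have hfn : ∀ x : E, ‖f x‖ ≤ 1 * ‖(UniformSpace.Completion.toComplₗᵢ (𝕜 := ℝ)
        (E := E)).toLinearMap x‖ := by
      intro x
      have h1 : ‖(UniformSpace.Completion.toComplₗᵢ (𝕜 := ℝ) (E := E)) x‖ = ‖x‖ :=
        LinearIsometry.norm_map _ x
      have h3 : ‖(UniformSpace.Completion.toComplₗᵢ (𝕜 := ℝ) (E := E)).toLinearMap x‖ = ‖x‖ := h1
      rw [h3, one_mul, Real.norm_eq_abs, abs_le]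
      constructor
      · have := hfb (-x)
        rw [map_neg, norm_neg] at this
        linarith
      · exact hfb x
    refine ⟨f.extendOfNorm (UniformSpace.Completion.toComplₗᵢ (𝕜 := ℝ) (E := E)).toLinearMap, ?_⟩
    intro x
    exact LinearMap.extendOfNorm_eq UniformSpace.Completion.denseRange_coe ⟨1, hfn⟩ x

end Pool.Agent.MP_235f01_an
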