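import Pool.Agent.MP_235f01_an.Ball
import Pool.Agent.MP_235f01_an.Complete

/-!
# MP_235f01_an, module J: basic facts on the model
-/

set_option autoImplicit false

namespace Pool.Agent.MP_235f01_an

open Filter Topology

theorem exists_model (S : Sys) : ∃ (X : Type) (_ : NormedAddCommGroup X) (_ : NormedSpace ℝ X),
    CompleteSpace X ∧ Nonempty (Model S X) := by
  classical
  let B' : Set S.V := {x | (x : ℕ → ℝ) ∈ S.B}
  have hc : Convex ℝ B' := by
    have h : Convex ℝ S.B := convex_convexHull ℝ _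
    exact h.linear_preimage S.V.subtype
  have hs : ∀ x ∈ B', -x ∈ B' := fun x hx => B_neg S hx
  have ha : ∀ x : S.V, ∃ t : ℝ, 0 < t ∧ t • x ∈ B' := by
    rintro ⟨x, n, hn⟩
    set M : ℝ := ∑ k ∈ Finset.range n, |x k| + 1 with hM
    have hM0 : 0 < M := by
      have : 0 ≤ ∑ k ∈ Finset.range n, |x k| := Finset.sum_nonneg fun _ _ => abs_nonneg _
      rw [hM]; linarith
    refine ⟨7 / 8 / M, by positivity, ?_⟩
    show (7 / 8 / M) • x ∈ S.B
    refine root_ball_n S (n := n) ((S.Vn n).smul_mem _ hn) fun k hk => ?_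
    rw [Pi.smul_apply, smul_eq_mul, abs_mul, abs_of_pos (by positivity : (0 : ℝ) < 7 / 8 / M)]
    have h1 : |x k| ≤ M := by
      have := Finset.single_le_sum (f := fun k => |x k|) (fun i _ => abs_nonneg (x i))
        (Finset.mem_range.2 hk)
      rw [hM]
      linarith
    calc 7 / 8 / M * |x k| ≤ 7 / 8 / M * M := mul_le_mul_of_nonneg_left h1 (by positivity)
      _ = 7 / 8 := by field_simp
  have hb : ∀ x : S.V, x ≠ 0 → ∃ t : ℝ, 0 < t ∧ t • x ∉ B' := by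
    rintro ⟨x, hx⟩ hne
    have hx0 : x ≠ 0 := fun h => hne (Subtype.ext h)
    obtain ⟨k, hk⟩ := Function.ne_iff.1 hx0
    have hk' : 0 < |x k| := abs_pos.2 hk
    refine ⟨2 / |x k|, by positivity, fun h => ?_⟩
    have h1 : |((2 / |x k|) • x) k| ≤ 1 := B_coord S h k
    rw [Pi.smul_apply, smul_eq_mul, abs_mul, abs_of_pos (by positivity : (0 : ℝ) < 2 / |x k|),
      div_mul_cancel₀ _ hk'.ne'] at h1
    norm_num at h1
  obtain ⟨X, i1, i2, ι0, hX, hd, hle, hlt, hf⟩ := exists_completion B' hc hs ha hb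
  obtain ⟨ι, hι⟩ := ι0.exists_extend
  have hι' : ∀ (x : ℕ → ℝ) (hx : x ∈ S.V), ι x = ι0 ⟨x, hx⟩ := by
    intro x hx
    rw [← hι]
    rfl
  have hco : ∀ m : ℕ, ∃ F : X →L[ℝ] ℝ, ∀ x, F (ι0 x) =
      ((LinearMap.proj m : (ℕ → ℝ) →ₗ[ℝ] ℝ) ∘ₗ S.V.subtype) x := by
    intro m
    refine hf _ fun x hx => ?_
    exact (le_abs_self _).trans (B_coord S hx m)
  choose co hco' using hco
  refine ⟨X, i1, i2, hX, ⟨⟨ι, ?_, ?_, ?_, co, ?_⟩⟩⟩
  · have : ι '' (S.V : Set (ℕ → ℝ)) = Set.range ι0 := by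
      ext y
      constructor
      · rintro ⟨x, hx, rfl⟩
        exact ⟨⟨x, hx⟩, (hι' x hx).symm⟩
      · rintro ⟨⟨x, hx⟩, rfl⟩
        exact ⟨x, hx, hι' x hx⟩
    rw [this]
    exact hd
  · intro x hx
    rw [hι' x (B_sub_V S hx)]
    exact hle _ hx
  · intro x hx h
    rw [hι' x hx] at h
    exact hlt _ h
  · intro m x hx
    rw [hι' x hx, hco' m]
    rfl

section model

variable {X : Type} [NormedAddCommGroup X] [NormedSpace ℝ X]

theorem model_abs_le (S : Sys) (M : Model S X) {x : ℕ → ℝ} (hx : x ∈ S.V) (m : ℕ) :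
    |x m| ≤ ‖M.ι x‖ := by
  by_contra hcon
  rw [not_le] at hcon
  obtain ⟨r, hr1, hr2⟩ := exists_between hcon
  have hr0 : 0 < r := (norm_nonneg _).trans_lt hr1
  have h1 : ‖M.ι ((1 / r) • x)‖ < 1 := by
    rw [map_smul, norm_smul, Real.norm_of_nonneg (by positivity), one_div, inv_mul_lt_iff₀ hr0,
      mul_one]
    exact hr1
  have h2 := B_coord S (M.lt_ball _ (S.V.smul_mem _ hx) h1) m
  rw [Pi.smul_apply, smul_eq_mul, abs_mul, abs_of_pos (by positivity : (0 : ℝ) < 1 / r), one_div,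
    inv_mul_le_iff₀ hr0, mul_one] at h2
  linarith

theorem model_coord_le (S : Sys) (M : Model S X) (m : ℕ) : ‖M.coord m‖ ≤ 1 := by
  refine ContinuousLinearMap.opNorm_le_bound _ zero_le_one fun y => ?_
  have hcl : IsClosed {y : X | ‖M.coord m y‖ ≤ 1 * ‖y‖} :=
    isClosed_le (M.coord m).continuous.norm (continuous_const.mul continuous_norm)
  have hsub : M.ι '' (S.V : Set (ℕ → ℝ)) ⊆ {y : X | ‖M.coord m y‖ ≤ 1 * ‖y‖} := by
    rintro _ ⟨x, hx, rfl⟩
    simp only [Set.mem_ofPred_eq]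
    rw [M.coord_ι m x hx, one_mul]
    exact model_abs_le S M hx m
  have := hcl.closure_subset_iff.2 hsub
  rw [M.dense.closure_eq] at this
  exact this (Set.mem_univ y)

theorem model_norm_le (S : Sys) (M : Model S X) {x : ℕ → ℝ} (hx : x ∈ S.V) {r : ℝ} (hr : 0 ≤ r)
    (h : ∀ m, |x m| ≤ r) : ‖M.ι x‖ ≤ 8 / 7 * r := by
  rcases hr.eq_or_lt with h0 | h0
  · have : x = 0 := by
      funext k
      have := h k
      rw [← h0] at this
      exact abs_nonpos_iff.1 this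
    rw [this, map_zero, norm_zero, ← h0, mul_zero]
  · have h1 : (7 / 8 / r) • x ∈ S.B := by
      refine root_ball S (S.V.smul_mem _ hx) fun k => ?_
      rw [Pi.smul_apply, smul_eq_mul, abs_mul, abs_of_pos (by positivity : (0 : ℝ) < 7 / 8 / r)]
      calc 7 / 8 / r * |x k| ≤ 7 / 8 / r * r := mul_le_mul_of_nonneg_left (h k) (by positivity)
        _ = 7 / 8 := by field_simp
    have h2 := M.ball_le _ h1
    rw [map_smul, norm_smul, Real.norm_of_nonneg (by positivity)] at h2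
    have h3 : ‖M.ι x‖ = 8 / 7 * r * (7 / 8 / r * ‖M.ι x‖) := by
      field_simp
    rw [h3]
    calc 8 / 7 * r * (7 / 8 / r * ‖M.ι x‖) ≤ 8 / 7 * r * 1 :=
          mul_le_mul_of_nonneg_left h2 (by positivity)
      _ = 8 / 7 * r := mul_one _

theorem model_approx (S : Sys) (M : Model S X) {y : X} (hy : ‖y‖ ≤ 1) {ε : ℝ} (hε : 0 < ε) :
    ∃ x ∈ S.B, ‖M.ι x‖ < 1 ∧ ‖M.ι x - y‖ < ε := by
  set η : ℝ := min (ε / 2) (1 / 2) with hη
  have hη0 : 0 < η := lt_min (by positivity) (by norm_num)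
  have hη1 : η ≤ ε / 2 := min_le_left _ _
  have hη2 : η ≤ 1 / 2 := min_le_right _ _
  obtain ⟨z, ⟨x, hx, rfl⟩, hz⟩ := M.dense.exists_dist_lt ((1 - η) • y) hη0
  rw [dist_comm, dist_eq_norm] at hz
  have hy' : ‖(1 - η) • y‖ ≤ 1 - η := by
    rw [norm_smul, Real.norm_of_nonneg (by linarith)]
    calc (1 - η) * ‖y‖ ≤ (1 - η) * 1 := mul_le_mul_of_nonneg_left hy (by linarith)
      _ = 1 - η := mul_one _
  have h1 : ‖M.ι x‖ < 1 := by
    calc ‖M.ι x‖ = ‖(M.ι x - (1 - η) • y) + (1 - η) • y‖ := by rw [sub_add_cancel]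
      _ ≤ ‖M.ι x - (1 - η) • y‖ + ‖(1 - η) • y‖ := norm_add_le _ _
      _ < η + (1 - η) := by linarith
      _ = 1 := by ring
  refine ⟨x, M.lt_ball x hx h1, h1, ?_⟩
  have h2 : ‖η • y‖ ≤ η := by
    rw [norm_smul, Real.norm_of_nonneg hη0.le]
    calc η * ‖y‖ ≤ η * 1 := mul_le_mul_of_nonneg_left hy hη0.le
      _ = η := mul_one _
  calc ‖M.ι x - y‖ = ‖(M.ι x - (1 - η) • y) - η • y‖ := by
        congr 1
        module
    _ ≤ ‖M.ι x - (1 - η) • y‖ + ‖η • y‖ := norm_sub_le _ _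
    _ < η + η := by linarith
    _ ≤ ε := by linarith

theorem model_approx_sphere (S : Sys) (M : Model S X) {y : X} (hy : ‖y‖ = 1) {ε : ℝ}
    (hε : 0 < ε) : ∃ x ∈ S.V, ‖M.ι x‖ = 1 ∧ ‖M.ι x - y‖ < ε := by
  set η : ℝ := min (ε / 2) (1 / 2) with hη
  have hη0 : 0 < η := lt_min (by positivity) (by norm_num)
  have hη1 : η ≤ ε / 2 := min_le_left _ _
  have hη2 : η ≤ 1 / 2 := min_le_right _ _
  obtain ⟨z, ⟨x, hx, rfl⟩, hz⟩ := M.dense.exists_dist_lt y hη0
  rw [dist_comm, dist_eq_norm] at hz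
  have h0 : |‖M.ι x‖ - 1| < η := by
    rw [← hy]
    exact (abs_norm_sub_norm_le _ _).trans_lt hz
  have hpos : 0 < ‖M.ι x‖ := by
    have := (abs_lt.1 h0).1
    linarith
  refine ⟨(1 / ‖M.ι x‖) • x, S.V.smul_mem _ hx, ?_, ?_⟩
  · rw [map_smul, norm_smul, Real.norm_of_nonneg (by positivity), one_div,
      inv_mul_cancel₀ hpos.ne']
  · have h1 : ‖M.ι ((1 / ‖M.ι x‖) • x) - M.ι x‖ < η := by
      have : M.ι ((1 / ‖M.ι x‖) • x) - M.ι x = (1 / ‖M.ι x‖ - 1) • M.ι x := by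
        rw [map_smul, sub_smul, one_smul]
      rw [this, norm_smul, Real.norm_eq_abs]
      have h2 : |1 / ‖M.ι x‖ - 1| * ‖M.ι x‖ = |‖M.ι x‖ - 1| := by
        rw [← abs_of_pos hpos, ← abs_mul, abs_of_pos hpos, sub_mul, one_div,
          inv_mul_cancel₀ hpos.ne', one_mul, abs_sub_comm]
      rw [h2]
      exact h0
    calc ‖M.ι ((1 / ‖M.ι x‖) • x) - y‖
        = ‖(M.ι ((1 / ‖M.ι x‖) • x) - M.ι x) + (M.ι x - y)‖ := by rw [sub_add_sub_cancel]
      _ ≤ ‖M.ι ((1 / ‖M.ι x‖) • x) - M.ι x‖ + ‖M.ι x - y‖ := norm_add_le _ _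
      _ < η + η := by linarith
      _ ≤ ε := by linarith

theorem model_infinite (S : Sys) (M : Model S X) : ¬ FiniteDimensional ℝ X := by
  intro hfd
  set n := Module.finrank ℝ X + 1 with hn
  let T : X →ₗ[ℝ] (Fin n → ℝ) := LinearMap.pi fun i => (M.coord i).toLinearMap
  have hT : Function.Surjective T := by
    intro w
    refine ⟨M.ι (S.ext n fun k => if h : k < n then w ⟨k, h⟩ else 0), ?_⟩
    funext i
    show M.coord i (M.ι _) = w i
    rw [M.coord_ι i _ (Vn_le_V S n (ext_mem S n _)), ext_lt S i.2, dif_pos i.2]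
  have := LinearMap.finrank_le_finrank_of_surjective hT
  rw [Module.finrank_fin_fun] at this
  omega

/-- Sums of small functionals on the cluster bumps. -/
theorem model_cbump (S : Sys) (M : Model S X) (h : X →L[ℝ] ℝ) (hh : ‖h‖ ≤ 1) {ε : ℝ}
    (hε : 0 < ε) : ∃ N, ∀ c, N ≤ c → S.C c → |h (M.ι (S.bump c))| ≤ ε := by
  classical
  by_contra hcon
  push Not at hcon
  have hinf : {c | S.C c ∧ ε < |h (M.ι (S.bump c))|}.Infinite := by
    rw [Set.infinite_iff_exists_gt]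
    intro a
    obtain ⟨c, hc1, hc2, hc3⟩ := hcon (a + 1)
    exact ⟨c, ⟨hc2, hc3⟩, by omega⟩
  obtain ⟨K, hK⟩ := exists_nat_gt (8 / (7 * ε))
  obtain ⟨I, hI, hcard⟩ := hinf.exists_subset_card_eq K
  set θ : ℕ → ℝ := fun c => if 0 < h (M.ι (S.bump c)) then 7 / 8 else -(7 / 8) with hθ
  have hB : ∑ c ∈ I, θ c • S.bump c ∈ S.B := by
    refine cbump S I (fun c hc => (hI hc).1) θ fun c _ => ?_
    simp only [hθ]
    split_ifs
    · rw [abs_of_pos (by norm_num)]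
    · rw [abs_neg, abs_of_pos (by norm_num)]
  have h1 := M.ball_le _ hB
  have h2 : h (M.ι (∑ c ∈ I, θ c • S.bump c)) ≤ 1 := by
    refine (le_abs_self _).trans ?_
    rw [← Real.norm_eq_abs]
    calc ‖h (M.ι (∑ c ∈ I, θ c • S.bump c))‖ ≤ ‖h‖ * ‖M.ι (∑ c ∈ I, θ c • S.bump c)‖ :=
          h.le_opNorm _
      _ ≤ 1 * 1 := mul_le_mul hh h1 (norm_nonneg _) zero_le_one
      _ = 1 := one_mul 1
  have h3 : h (M.ι (∑ c ∈ I, θ c • S.bump c)) = ∑ c ∈ I, 7 / 8 * |h (M.ι (S.bump c))| := by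
    rw [map_sum, map_sum]
    refine Finset.sum_congr rfl fun c _ => ?_
    rw [map_smul, map_smul, smul_eq_mul]
    simp only [hθ]
    split_ifs with hp
    · rw [abs_of_pos hp]
    · rw [abs_of_nonpos (not_lt.1 hp)]
      ring
  have h4 : ∑ c ∈ I, 7 / 8 * ε ≤ ∑ c ∈ I, 7 / 8 * |h (M.ι (S.bump c))| :=
    Finset.sum_le_sum fun c hc => mul_le_mul_of_nonneg_left (hI hc).2.le (by norm_num)
  rw [Finset.sum_const, hcard, nsmul_eq_mul] at h4
  rw [h3] at h2
  have h5 : 1 < (K : ℝ) * (7 / 8 * ε) := by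
    rw [div_lt_iff₀ (by positivity)] at hK
    linarith
  linarith

end model

end Pool.Agent.MP_235f01_an
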