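import Pool.Agent.MP_235f01_an.Beta
import Pool.Agent.MP_235f01_an.ModelBasic
import Pool.Agent.MP_235f01_an.Hull

/-!
# MP_235f01_an, module K: norming functionals
-/

set_option autoImplicit false

namespace Pool.Agent.MP_235f01_an

open Filter Topology

namespace Norming

/-- the functional with the coefficients `a j`, `j < n` -/
noncomputable def mk (n : ℕ) (a : ℕ → ℝ) : ℕ →₀ ℝ :=
  Finsupp.onFinset (Finset.range n) (fun j => if j < n then a j else 0) (by
    intro j hj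
    by_contra h
    rw [Finset.mem_range] at h
    exact hj (if_neg h))

lemma mk_apply (n : ℕ) (a : ℕ → ℝ) (j : ℕ) : mk n a j = if j < n then a j else 0 := rfl

lemma mk_supp (n : ℕ) (a : ℕ → ℝ) {j : ℕ} (hj : j ∈ (mk n a).support) : j < n := by
  rw [Finsupp.mem_support_iff, mk_apply] at hj
  by_contra h
  exact hj (if_neg h)

lemma ev_eq {g : ℕ →₀ ℝ} {n : ℕ} (hg : ∀ j ∈ g.support, j < n) (y : ℕ → ℝ) :
    ev g y = ∑ j ∈ Finset.range n, g j * y j := by
  unfold ev Finsupp.sum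
  refine Finset.sum_subset (fun j hj => Finset.mem_range.2 (hg j hj)) fun j _ hj => ?_
  simp only [Finsupp.notMem_support_iff.1 hj, zero_mul]

lemma ev_mk (n : ℕ) (a : ℕ → ℝ) (y : ℕ → ℝ) :
    ev (mk n a) y = ∑ j ∈ Finset.range n, a j * y j := by
  rw [ev_eq (fun j hj => mk_supp n a hj)]
  refine Finset.sum_congr rfl fun j hj => ?_
  rw [mk_apply, if_pos (Finset.mem_range.1 hj)]

lemma beta_eq (S : Sys) {g : ℕ →₀ ℝ} {n : ℕ} (hg : ∀ j ∈ g.support, j < n) :
    S.beta g = ∑ j ∈ Finset.range n, Set.indicator {j | ¬ S.C j} (fun j => |g j|) j := by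
  classical
  unfold Raw.beta
  refine Finset.sum_subset (fun j hj => Finset.mem_range.2 (hg j hj)) fun j _ hj => ?_
  rw [Set.indicator_apply]
  split_ifs
  · rw [Finsupp.notMem_support_iff.1 hj, abs_zero]
  · rfl

lemma ext_box (S : Sys) {n : ℕ} {e : Cl} (he : S.IsCl e) (hl : e.lev ≤ n) {y : ℕ → ℝ}
    (hy : ∀ j < n, S.l e j ≤ y j ∧ y j ≤ S.u e j) : S.ext n y ∈ S.box e := by
  refine box_of_rec S he fun k => ?_
  by_cases hk : k < n
  · left
    rw [ext_lt S hk]
    exact hy k hk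
  · right
    exact ⟨hl.trans (not_lt.1 hk), ext_mem S n y k (not_lt.1 hk)⟩

lemma finite_T (S : Sys) (n : ℕ) : {e | S.IsCl e ∧ e.lev ≤ n}.Finite := by
  have h : ({Cl.root} ∪ ((fun p : ℕ × Bool => Cl.node p.1 p.2) ''
      ((Set.Iio n) ×ˢ (Set.univ : Set Bool)))).Finite :=
    (Set.finite_singleton _).union (((Set.finite_Iio n).prod Set.finite_univ).image _)
  refine h.subset ?_
  rintro e ⟨-, he⟩
  cases e with
  | root => exact Or.inl rfl
  | node c s =>
    right
    refine ⟨(c, s), ⟨?_, Set.mem_univ _⟩, rfl⟩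
    have : c + 1 ≤ n := he
    exact Set.mem_Iio.2 (by omega)

lemma box_compact (S : Sys) (e : Cl) : IsCompact (S.box e) := by
  have : S.box e = Set.pi Set.univ fun k => Set.Icc (S.l e k) (S.u e k) := by
    ext x
    simp only [Raw.box, Set.mem_ofPred_eq, Set.mem_pi, Set.mem_univ, true_implies, Set.mem_Icc]
  rw [this]
  exact isCompact_univ_pi fun k => isCompact_Icc

end Norming

open Norming

variable {X : Type} [NormedAddCommGroup X] [NormedSpace ℝ X]

/-- a point of norm one lies in the hull of the boxes of small level -/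
lemma Norming.mem_hull (S : Sys) (M : Model S X) {n : ℕ} {x : ℕ → ℝ} (hx : x ∈ S.Vn n)
    (h1 : ‖M.ι x‖ = 1) : x ∈ convexHull ℝ (⋃ e ∈ {e | S.IsCl e ∧ e.lev ≤ n}, S.box e) := by
  have hcomp := isCompact_hull {e | S.IsCl e ∧ e.lev ≤ n} (finite_T S n) S.box
    (fun e _ => box_convex S e) (fun e _ => box_compact S e)
  have hcl := hcomp.isClosed
  have hmem : ∀ i : ℕ, (1 - 1 / ((i : ℝ) + 1)) • x ∈
      convexHull ℝ (⋃ e ∈ {e | S.IsCl e ∧ e.lev ≤ n}, S.box e) := by
    intro i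
    have hi : 0 < (i : ℝ) + 1 := by positivity
    have ht0 : 0 ≤ 1 - 1 / ((i : ℝ) + 1) := by
      rw [sub_nonneg, div_le_one hi]
      linarith [(Nat.cast_nonneg i : (0 : ℝ) ≤ i)]
    have ht1 : 1 - 1 / ((i : ℝ) + 1) < 1 := by
      have : 0 < 1 / ((i : ℝ) + 1) := by positivity
      linarith
    have hn : (1 - 1 / ((i : ℝ) + 1)) • x ∈ S.Vn n := (S.Vn n).smul_mem _ hx
    have hlt : ‖M.ι ((1 - 1 / ((i : ℝ) + 1)) • x)‖ < 1 := by
      rw [map_smul, norm_smul, h1, mul_one, Real.norm_of_nonneg ht0]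
      exact ht1
    have hB := M.lt_ball _ (Vn_le_V S n hn) hlt
    refine convexHull_mono ?_ (B_trunc S hB hn)
    exact Set.iUnion₂_mono fun e _ => Set.inter_subset_left
  have hlim : Tendsto (fun i : ℕ => (1 - 1 / ((i : ℝ) + 1)) • x) atTop (𝓝 x) := by
    have h2 : Tendsto (fun i : ℕ => 1 - 1 / ((i : ℝ) + 1)) atTop (𝓝 (1 - 0)) :=
      tendsto_const_nhds.sub tendsto_one_div_add_atTop_nhds_zero_nat
    rw [sub_zero] at h2
    have := h2.smul_const x
    rwa [one_smul] at this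
  exact hcl.mem_of_tendsto hlim (Eventually.of_forall hmem)

theorem norming (S : Sys) (M : Model S X) {n : ℕ} {x : ℕ → ℝ} (hx : x ∈ S.Vn n)
    (h1 : ‖M.ι x‖ = 1) {η : ℝ} (hη : 0 < η) :
    ∃ g : ℕ →₀ ℝ, (∀ j ∈ g.support, j < n) ∧ (∀ N, ∃ k, N ≤ k ∧ ¬ S.C k ∧ S.a k = g) ∧
      1 - η < |ev g x| := by
  classical
  by_cases hcase : ∃ j < n, ¬ S.C j ∧ 1 ≤ |x j|
  · obtain ⟨j, hjn, hjC, hj⟩ := hcase
    refine ⟨Finsupp.single j 1, ?_, S.birth_pure j hjC, ?_⟩
    · intro i hi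
      have := Finsupp.support_single_subset hi
      rw [Finset.mem_singleton] at this
      rw [this]
      exact hjn
    · rw [ev_single, one_mul]
      linarith
  push Not at hcase
  have hne : ‖M.ι x‖ ≠ 0 := by
    rw [h1]
    exact one_ne_zero
  obtain ⟨F, hF1, hFx⟩ := exists_dual_vector ℝ (M.ι x) hne
  have hFx' : F (M.ι x) = 1 := by
    rw [hFx, h1]
    norm_num
  set a : ℕ → ℝ := fun j => F (M.ι (S.ext n (Pi.single j 1))) with ha
  set g : ℕ →₀ ℝ := mk n a with hg
  have hgn : ∀ j ∈ g.support, j < n := fun j hj => mk_supp n a hj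
  have hev : ∀ y ∈ S.Vn n, ev g y = F (M.ι y) := by
    intro y hy
    have hy' : y = ∑ j ∈ Finset.range n, y j • S.ext n (Pi.single j 1) := by
      refine Vn_unique S hy ((S.Vn n).sum_mem fun j _ => (S.Vn n).smul_mem _ (ext_mem S n _)) ?_
      intro k hk
      rw [Finset.sum_apply]
      simp only [Pi.smul_apply, smul_eq_mul]
      rw [Finset.sum_eq_single k]
      · rw [ext_lt S hk, Pi.single_eq_same, mul_one]
      · intro j _ hjk
        rw [ext_lt S hk, Pi.single_eq_of_ne (Ne.symm hjk), mul_zero]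
      · intro h
        exact absurd (Finset.mem_range.2 hk) h
    rw [hg, ev_mk]
    conv_rhs => rw [hy']
    rw [map_sum, map_sum]
    refine Finset.sum_congr rfl fun j _ => ?_
    rw [map_smul, map_smul, smul_eq_mul, mul_comm]
  -- bound on the boxes
  have hbd : ∀ e, S.IsCl e → e.lev ≤ n → ∀ y : ℕ → ℝ, (∀ j < n, S.l e j ≤ y j ∧ y j ≤ S.u e j) →
      |ev g y| ≤ 1 := by
    intro e he hl y hy
    have h2 : S.ext n y ∈ S.B := box_sub_B S he (ext_box S he hl hy) (Vn_le_V S n (ext_mem S n y))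
    have h3 : ev g y = ev g (S.ext n y) := ev_congr fun j hj => (ext_lt S (hgn j hj) y).symm
    rw [h3, hev _ (ext_mem S n y), ← Real.norm_eq_abs]
    calc ‖F (M.ι (S.ext n y))‖ ≤ ‖F‖ * ‖M.ι (S.ext n y)‖ := F.le_opNorm _
      _ ≤ 1 * 1 := mul_le_mul hF1.le (M.ball_le _ h2) (norm_nonneg _) zero_le_one
      _ = 1 := one_mul 1
  have hbeta : S.beta g ≤ 1 / 5 := by
    refine beta_le S n g hgn ?_ (Norming.mem_hull S M hx h1) ?_ fun j hj hC => hcase j hj hC
    · intro e he hl y hy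
      exact (le_abs_self _).trans (hbd e he hl y fun j _ => hy j)
    · rw [hev x hx, hFx']
  -- rational approximation
  set δ : ℝ := min (η / 3) (1 / 20) with hδ
  have hδ0 : 0 < δ := lt_min (by positivity) (by norm_num)
  have hδ1 : δ ≤ η / 3 := min_le_left _ _
  have hδ2 : δ ≤ 1 / 20 := min_le_right _ _
  have hδn : 0 < δ / ((n : ℝ) + 1) := by positivity
  have hq : ∀ j, ∃ q : ℚ, |(q : ℝ) - (1 - δ) * a j| < δ / ((n : ℝ) + 1) := by
    intro j
    obtain ⟨q, hq1, hq2⟩ := exists_rat_btwn (show (1 - δ) * a j - δ / ((n : ℝ) + 1) <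
      (1 - δ) * a j + δ / ((n : ℝ) + 1) by linarith)
    refine ⟨q, ?_⟩
    rw [abs_lt]
    constructor <;> linarith
  choose q hq using hq
  set g' : ℕ →₀ ℝ := mk n (fun j => (q j : ℝ)) with hg'
  have hsum : ∑ j ∈ Finset.range n, δ / ((n : ℝ) + 1) ≤ δ := by
    rw [Finset.sum_const, Finset.card_range, nsmul_eq_mul]
    have h3 : (n : ℝ) * (δ / ((n : ℝ) + 1)) = δ * (n / ((n : ℝ) + 1)) := by ring
    rw [h3]
    have h4 : (n : ℝ) / ((n : ℝ) + 1) ≤ 1 := by
      rw [div_le_one (by positivity)]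
      linarith
    calc δ * (n / ((n : ℝ) + 1)) ≤ δ * 1 := mul_le_mul_of_nonneg_left h4 hδ0.le
      _ = δ := mul_one δ
  have hdiff : ∀ y : ℕ → ℝ, (∀ j < n, |y j| ≤ 1) → |ev g' y - (1 - δ) * ev g y| ≤ δ := by
    intro y hy
    rw [hg', hg, ev_mk, ev_mk, Finset.mul_sum, ← Finset.sum_sub_distrib]
    refine (Finset.abs_sum_le_sum_abs _ _).trans ((Finset.sum_le_sum fun j hj => ?_).trans hsum)
    rw [← mul_assoc, ← sub_mul, abs_mul]
    calc |(q j : ℝ) - (1 - δ) * a j| * |y j| ≤ δ / ((n : ℝ) + 1) * 1 :=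
          mul_le_mul (hq j).le (hy j (Finset.mem_range.1 hj)) (abs_nonneg _) hδn.le
      _ = _ := mul_one _
  refine ⟨g', fun j hj => mk_supp n _ hj, S.birth_g g' ?_ ?_ ?_, ?_⟩
  · intro j
    by_cases hj : j < n
    · exact ⟨q j, by rw [hg', mk_apply, if_pos hj]⟩
    · exact ⟨0, by rw [hg', mk_apply, if_neg hj, Rat.cast_zero]⟩
  · intro e he y hy
    obtain ⟨e', he', hl', -, hy'⟩ := box_trunc S he hy n
    have h2 := hbd e' he' hl' y hy'
    have h3 := hdiff y fun j _ => by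
      have hb := lu_bound S he j
      rw [abs_le]
      exact ⟨hb.1.trans (hy j).1, (hy j).2.trans hb.2⟩
    rw [abs_le] at h2 h3 ⊢
    constructor <;> nlinarith [h2.1, h2.2, h3.1, h3.2]
  · rw [beta_eq S (n := n) (fun j hj => mk_supp n _ hj)]
    rw [beta_eq S (n := n) hgn] at hbeta
    have h2 : ∑ j ∈ Finset.range n, Set.indicator {j | ¬ S.C j} (fun j => |g' j|) j ≤
        ∑ j ∈ Finset.range n, (Set.indicator {j | ¬ S.C j} (fun j => |g j|) j +
          δ / ((n : ℝ) + 1)) := by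
      refine Finset.sum_le_sum fun j hj => ?_
      rw [Set.indicator_apply, Set.indicator_apply]
      split_ifs
      · rw [hg', hg, mk_apply, mk_apply, if_pos (Finset.mem_range.1 hj),
          if_pos (Finset.mem_range.1 hj)]
        have h3 : |(q j : ℝ)| ≤ |(q j : ℝ) - (1 - δ) * a j| + |(1 - δ) * a j| := by
          have := abs_add_le ((q j : ℝ) - (1 - δ) * a j) ((1 - δ) * a j)
          rwa [sub_add_cancel] at this
        have h4 : |(1 - δ) * a j| ≤ |a j| := by
          rw [abs_mul, abs_of_nonneg (by linarith : (0 : ℝ) ≤ 1 - δ)]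
          calc (1 - δ) * |a j| ≤ 1 * |a j| :=
                mul_le_mul_of_nonneg_right (by linarith) (abs_nonneg _)
            _ = |a j| := one_mul _
        linarith [hq j]
      · linarith
    rw [Finset.sum_add_distrib] at h2
    linarith
  · have h2 := hdiff x fun j _ => (model_abs_le S M (Vn_le_V S n hx) j).trans h1.le
    rw [hev x hx, hFx', mul_one] at h2
    have h3 := (abs_le.1 h2).1
    have h4 := le_abs_self (ev g' x)
    linarith

end Pool.Agent.MP_235f01_an
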