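import Pool.Agent.MP_235f01_an.Ball
import Pool.Agent.MP_235f01_an.Birth
import Pool.Agent.MP_235f01_an.ModelBasic
import Pool.Agent.MP_235f01_an.Norming

/-!
Module L: the super alternative Daugavet property.
-/

set_option autoImplicit false

namespace Pool.Agent.MP_235f01_an

open Filter Topology

section model

variable {X : Type} [NormedAddCommGroup X] [NormedSpace ℝ X]

/-- The images of the bumps of one functional are weakly null. -/
theorem adp_null (S : Sys) (M : Model S X) (g : ℕ →₀ ℝ) (N : ℕ)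
    (hsupp : ∀ j ∈ g.support, j < N) (m : ℕ → ℕ) (hm : StrictMono m)
    (hmN : ∀ i, N ≤ m i ∧ ¬ S.C (m i) ∧ S.a (m i) = g) (h : X →L[ℝ] ℝ) :
    Tendsto (fun i => h (M.ι (S.bump (m i)))) atTop (𝓝 0) := by
  obtain ⟨σ, hσ, hI⟩ := birth_bump S g N hsupp (p := 0)
    (root_ball S S.V.zero_mem (fun k => by
      simp only [Pi.zero_apply, abs_zero]; norm_num)) (S.Vn N).zero_mem
  have hev : ev g (0 : ℕ → ℝ) = 0 := by simp [ev, Finsupp.sum]
  have hsum : ∀ J : Finset ℕ, |∑ i ∈ J, h (M.ι (S.bump (m i)))| ≤ ‖h‖ := by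
    intro J
    have h1 := hI (J.image m) (by
      intro k hk
      obtain ⟨i, _, rfl⟩ := Finset.mem_image.1 hk
      exact hmN i)
    rw [hev, sub_zero, zero_add, Finset.sum_image (fun a _ b _ hab => hm.injective hab)] at h1
    have h2 := M.ball_le _ h1
    have h3 : ‖M.ι (∑ i ∈ J, S.bump (m i))‖ ≤ 1 := by
      rw [map_smul, norm_smul] at h2
      rcases hσ with rfl | rfl <;> simpa using h2
    calc |∑ i ∈ J, h (M.ι (S.bump (m i)))| = ‖h (M.ι (∑ i ∈ J, S.bump (m i)))‖ := by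
          rw [map_sum, map_sum, Real.norm_eq_abs]
      _ ≤ ‖h‖ * ‖M.ι (∑ i ∈ J, S.bump (m i))‖ := h.le_opNorm _
      _ ≤ ‖h‖ * 1 := by gcongr
      _ = ‖h‖ := mul_one _
  have habs : ∀ J : Finset ℕ, ∑ i ∈ J, |h (M.ι (S.bump (m i)))| ≤ ‖h‖ + ‖h‖ := by
    intro J
    have e1 := hsum (J.filter fun i => 0 ≤ h (M.ι (S.bump (m i))))
    have e2 := hsum (J.filter fun i => ¬ 0 ≤ h (M.ι (S.bump (m i))))
    rw [← Finset.sum_filter_add_sum_filter_not J (fun i => 0 ≤ h (M.ι (S.bump (m i))))]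
    refine add_le_add ?_ ?_
    · refine le_trans (le_of_eq ?_) (le_trans (le_abs_self _) e1)
      refine Finset.sum_congr rfl fun i hi => ?_
      exact abs_of_nonneg (Finset.mem_filter.1 hi).2
    · refine le_trans (le_of_eq ?_) (le_trans (neg_le_abs _) e2)
      rw [← Finset.sum_neg_distrib]
      refine Finset.sum_congr rfl fun i hi => ?_
      exact abs_of_neg (not_le.1 (Finset.mem_filter.1 hi).2)
  have hs : Summable (fun i => |h (M.ι (S.bump (m i)))|) :=
    summable_of_sum_le (fun i => abs_nonneg _) habs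
  exact (tendsto_zero_iff_abs_tendsto_zero _).2 hs.tendsto_atTop_zero

theorem superADP (S : Sys) (M : Model S X) : SuperADP X := by
  intro x hx U hU hne
  constructor
  · rintro _ ⟨y, ⟨hy, _⟩, rfl⟩
    refine max_le ?_ ?_
    · exact le_trans (norm_add_le _ _) (by linarith)
    · exact le_trans (norm_sub_le _ _) (by linarith)
  · intro b hb
    by_contra hlt
    push Not at hlt
    set ε : ℝ := 2 - b with hε
    have hεp : 0 < ε := by linarith
    obtain ⟨y₀, hy₀, hy₀U⟩ := hne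
    -- the weak neighbourhood is norm open
    have hcont : Continuous (toWeakSpace ℝ X) := by
      exact (toWeakSpaceCLM ℝ X).continuous
    have hopen : IsOpen ((toWeakSpace ℝ X) ⁻¹' U) := hU.preimage hcont
    obtain ⟨δ, hδ, hball⟩ := Metric.isOpen_iff.1 hopen y₀ hy₀U
    obtain ⟨p, hp, -, hpy⟩ := model_approx S M hy₀ hδ
    have hpU : toWeakSpace ℝ X (M.ι p) ∈ U := by
      have h0 : M.ι p ∈ Metric.ball y₀ δ := by
        rw [Metric.mem_ball, dist_eq_norm]; exact hpy
      exact hball h0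
    obtain ⟨x₀, hx₀V, hx₀1, hx₀x⟩ := model_approx_sphere S M hx (half_pos hεp)
    obtain ⟨n₁, hn₁⟩ := hx₀V
    obtain ⟨n₂, hn₂⟩ := B_sub_V S hp
    have hx₀N : x₀ ∈ S.Vn (max n₁ n₂) := Vn_mono S (le_max_left _ _) hn₁
    have hpN : p ∈ S.Vn (max n₁ n₂) := Vn_mono S (le_max_right _ _) hn₂
    obtain ⟨g, hsupp, hbirth, hgx⟩ := norming S M hx₀N hx₀1 (half_pos hεp)
    obtain ⟨σ, hσ, hI⟩ := birth_bump S g (max n₁ n₂) hsupp hp hpN
    -- a strictly increasing sequence of births
    have hfreq : ∃ᶠ k in atTop, (max n₁ n₂) ≤ k ∧ ¬ S.C k ∧ S.a k = g := by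
      rw [frequently_atTop]
      intro N
      obtain ⟨k, hk, h1, h2⟩ := hbirth (max N (max n₁ n₂))
      exact ⟨k, le_trans (le_max_left _ _) hk, le_trans (le_max_right _ _) hk, h1, h2⟩
    obtain ⟨m, hm, hmN⟩ := extraction_of_frequently_atTop hfreq
    have hnull := adp_null S M g (max n₁ n₂) hsupp m hm hmN
    set y : ℕ → X := fun i => M.ι (p + (σ - ev g p) • S.bump (m i)) with hydef
    have hyB : ∀ i, p + (σ - ev g p) • S.bump (m i) ∈ S.B := by
      intro i
      have := hI {m i} (by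
        intro k hk
        rw [Finset.mem_singleton.1 hk]
        exact hmN i)
      simpa using this
    have hyt : Tendsto (fun i => toWeakSpace ℝ X (y i)) atTop (𝓝 (toWeakSpace ℝ X (M.ι p))) := by
      have hind : Topology.IsInducing (fun (x : WeakSpace ℝ X) (f : X →L[ℝ] ℝ) =>
          (topDualPairing ℝ X).flip ((toWeakSpace ℝ X).symm x) f) := ⟨rfl⟩
      rw [hind.tendsto_nhds_iff, tendsto_pi_nhds]
      intro f
      have h1 := (hnull f).const_mul (σ - ev g p)
      have h2 := h1.const_add (f (M.ι p))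
      simp only [mul_zero, add_zero] at h2
      refine Tendsto.congr ?_ h2
      intro i
      change f (M.ι p) + (σ - ev g p) * f (M.ι (S.bump (m i))) =
        f (M.ι (p + (σ - ev g p) • S.bump (m i)))
      rw [map_add, map_smul, map_add, map_smul, smul_eq_mul]
    have hev : ∀ᶠ i in atTop, toWeakSpace ℝ X (y i) ∈ U := hyt.eventually (hU.mem_nhds hpU)
    obtain ⟨i, hi⟩ := hev.exists
    obtain ⟨hmi, hCi, hai⟩ := hmN i
    have hx₀m : x₀ (m i) = ev g x₀ := by rw [← hai]; exact hx₀N (m i) hmi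
    have hpm : p (m i) = ev g p := by rw [← hai]; exact hpN (m i) hmi
    have hym : (p + (σ - ev g p) • S.bump (m i)) (m i) = σ := by
      simp [bump_self, hpm]
    have hyn : ‖y i‖ ≤ 1 := M.ball_le _ (hyB i)
    have hyV : p + (σ - ev g p) • S.bump (m i) ∈ S.V := B_sub_V S (hyB i)
    have hx₀V : x₀ ∈ S.V := ⟨n₁, hn₁⟩
    have hplus := model_abs_le S M (S.V.add_mem hx₀V hyV) (m i)
    have hminus := model_abs_le S M (S.V.sub_mem hx₀V hyV) (m i)
    rw [map_add, Pi.add_apply, hym, hx₀m] at hplus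
    rw [map_sub, Pi.sub_apply, hym, hx₀m] at hminus
    have hmax : |ev g x₀| + 1 ≤ max ‖M.ι x₀ + y i‖ ‖M.ι x₀ - y i‖ := by
      have hσ1 : |ev g x₀| + 1 ≤ |ev g x₀ + σ| ∨ |ev g x₀| + 1 ≤ |ev g x₀ - σ| := by
        rcases hσ with rfl | rfl <;> rcases abs_cases (ev g x₀) with ⟨h1, h2⟩ | ⟨h1, h2⟩
        · left; rw [h1]; exact le_abs_self _
        · right; rw [h1]; have := neg_le_abs (ev g x₀ - 1); linarith
        · right; rw [h1]; have := le_abs_self (ev g x₀ - -1); linarith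
        · left; rw [h1]; have := neg_le_abs (ev g x₀ + -1); linarith
      rcases hσ1 with h | h
      · exact le_trans (le_trans h hplus) (le_max_left _ _)
      · exact le_trans (le_trans h hminus) (le_max_right _ _)
    have hb' := hb ⟨y i, ⟨hyn, hi⟩, rfl⟩
    have h1 : ‖M.ι x₀ + y i‖ ≤ ‖x + y i‖ + ‖M.ι x₀ - x‖ := by
      have : M.ι x₀ + y i = (x + y i) + (M.ι x₀ - x) := by abel
      rw [this]; exact norm_add_le _ _
    have h2 : ‖M.ι x₀ - y i‖ ≤ ‖x - y i‖ + ‖M.ι x₀ - x‖ := by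
      have : M.ι x₀ - y i = (x - y i) + (M.ι x₀ - x) := by abel
      rw [this]; exact norm_add_le _ _
    have h3 : max ‖M.ι x₀ + y i‖ ‖M.ι x₀ - y i‖ ≤
        max ‖x + y i‖ ‖x - y i‖ + ‖M.ι x₀ - x‖ := by
      refine max_le (le_trans h1 ?_) (le_trans h2 ?_)
      · gcongr; exact le_max_left _ _
      · gcongr; exact le_max_right _ _
    simp only at hb'
    linarith

end model

end Pool.Agent.MP_235f01_an
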