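import Pool.Agent.MP_235f01_an.Ext

/-!
# Module G: basic facts on the unit ball
-/

set_option autoImplicit false

namespace Pool.Agent.MP_235f01_an

open Ext

theorem box_convex (S : Sys) (e : Cl) : Convex ℝ (S.box e) := by
  intro x hx y hy a b ha hb hab k
  obtain ⟨h1, h2⟩ := hx k
  obtain ⟨h3, h4⟩ := hy k
  have hb' : b = 1 - a := by linarith
  simp only [Pi.add_apply, Pi.smul_apply, smul_eq_mul]
  constructor
  · have := mul_le_mul_of_nonneg_left h1 ha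
    have := mul_le_mul_of_nonneg_left h3 hb
    have e1 : a * S.l e k + b * S.l e k = S.l e k := by rw [← add_mul, hab, one_mul]
    linarith
  · have := mul_le_mul_of_nonneg_left h2 ha
    have := mul_le_mul_of_nonneg_left h4 hb
    have e1 : a * S.u e k + b * S.u e k = S.u e k := by rw [← add_mul, hab, one_mul]
    linarith

theorem box_sub_B (S : Sys) {e : Cl} (he : S.IsCl e) {x : ℕ → ℝ} (hx : x ∈ S.box e)
    (hV : x ∈ S.V) : x ∈ S.B := by
  apply subset_convexHull ℝ _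
  simp only [Set.mem_iUnion]
  exact ⟨e, he, hx, hV⟩

theorem B_sub_V (S : Sys) {x : ℕ → ℝ} (hx : x ∈ S.B) : x ∈ S.V := by
  have h : S.B ⊆ (S.V : Set (ℕ → ℝ)) := by
    apply convexHull_min _ S.V.convex
    apply Set.iUnion₂_subset
    intro e _
    exact Set.inter_subset_right
  exact h hx

namespace Ball

theorem box_neg (S : Sys) {e : Cl} (he : S.IsCl e) {x : ℕ → ℝ} (hx : x ∈ S.box e) :
    -x ∈ S.box e.neg := by
  intro k
  obtain ⟨h1, h2⟩ := lu_neg S he k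
  obtain ⟨h3, h4⟩ := hx k
  rw [h1, h2, Pi.neg_apply]
  exact ⟨neg_le_neg h4, neg_le_neg h3⟩

/-- `ext n` as a linear map. -/
noncomputable def extL (S : Sys) (n : ℕ) : (ℕ → ℝ) →ₗ[ℝ] (ℕ → ℝ) where
  toFun := S.ext n
  map_add' := by
    intro x y
    apply Vn_unique S (ext_mem S n _) ((S.Vn n).add_mem (ext_mem S n _) (ext_mem S n _))
    intro k hk
    rw [Pi.add_apply, ext_lt S hk, ext_lt S hk, ext_lt S hk, Pi.add_apply]
  map_smul' := by
    intro c x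
    apply Vn_unique S (ext_mem S n _) ((S.Vn n).smul_mem c (ext_mem S n _))
    intro k hk
    rw [ext_lt S hk, Pi.smul_apply, Pi.smul_apply, ext_lt S hk]

theorem extL_apply (S : Sys) (n : ℕ) (x : ℕ → ℝ) : extL S n x = S.ext n x := rfl

theorem ext_of_mem (S : Sys) {n : ℕ} {x : ℕ → ℝ} (hx : x ∈ S.Vn n) : S.ext n x = x :=
  Vn_unique S (ext_mem S n x) hx fun _ hk => ext_lt S hk x

/-- The extension of a point of a box lies in a box of level at most `n`. -/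
theorem ext_box (S : Sys) {e : Cl} (he : S.IsCl e) (n : ℕ) {x : ℕ → ℝ} (hx : x ∈ S.box e) :
    ∃ e', S.IsCl e' ∧ e'.lev ≤ n ∧ S.le e e' ∧ S.ext n x ∈ S.box e' := by
  obtain ⟨e', h1, h2, h3, h4⟩ := box_trunc S he hx n
  refine ⟨e', h1, h2, h3, box_of_rec S h1 fun k => ?_⟩
  by_cases hk : k < n
  · left
    rw [ext_lt S hk]
    exact h4 k hk
  · right
    exact ⟨h2.trans (not_lt.1 hk), ext_mem S n x k (not_lt.1 hk)⟩

end Ball

theorem B_neg (S : Sys) {x : ℕ → ℝ} (hx : x ∈ S.B) : -x ∈ S.B := by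
  have h : S.B ⊆ (-LinearMap.id : (ℕ → ℝ) →ₗ[ℝ] (ℕ → ℝ)) ⁻¹' S.B := by
    apply convexHull_min _ ((convex_convexHull ℝ _).linear_preimage _)
    apply Set.iUnion₂_subset
    rintro e he y ⟨hy, hV⟩
    have h1 : -y ∈ S.B := box_sub_B S (isCl_neg S he) (Ball.box_neg S he hy) (S.V.neg_mem hV)
    exact h1
  exact h hx

theorem B_coord (S : Sys) {x : ℕ → ℝ} (hx : x ∈ S.B) (k : ℕ) : |x k| ≤ 1 := by
  have hconv : Convex ℝ {x : ℕ → ℝ | -1 ≤ x k ∧ x k ≤ 1} := by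
    have : {x : ℕ → ℝ | -1 ≤ x k ∧ x k ≤ 1} =
        (LinearMap.proj k : (ℕ → ℝ) →ₗ[ℝ] ℝ) ⁻¹' (Set.Icc (-1) 1) := by
      ext x
      simp
    rw [this]
    exact (convex_Icc _ _).linear_preimage _
  have h : S.B ⊆ {x : ℕ → ℝ | -1 ≤ x k ∧ x k ≤ 1} := by
    apply convexHull_min _ hconv
    apply Set.iUnion₂_subset
    rintro e he y ⟨hy, -⟩
    have h1 := lu_bound S he k
    have h2 := hy k
    exact ⟨h1.1.trans h2.1, h2.2.trans h1.2⟩
  exact abs_le.2 (h hx)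

theorem Ball.root_lu (S : Sys) (k : ℕ) : S.l Cl.root k ≤ -(7 / 8) ∧ 7 / 8 ≤ S.u Cl.root k := by
  by_cases hC : S.C k
  · obtain ⟨h1, h2⟩ := root_cluster S hC
    have h3 := S.τ_le k hC
    rw [h1, h2]
    constructor <;> linarith
  · obtain ⟨h1, h2⟩ := root_birth S hC
    rw [h1, h2]
    norm_num

/-- The root ball. -/
theorem root_ball (S : Sys) {x : ℕ → ℝ} (hV : x ∈ S.V) (h : ∀ k, |x k| ≤ 7 / 8) : x ∈ S.B := by
  apply box_sub_B S (e := Cl.root) trivial _ hV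
  intro k
  have h1 := abs_le.1 (h k)
  have h2 := Ball.root_lu S k
  exact ⟨h2.1.trans h1.1, h1.2.trans h2.2⟩

theorem root_ball_n (S : Sys) {n : ℕ} {x : ℕ → ℝ} (hV : x ∈ S.Vn n) (h : ∀ k < n, |x k| ≤ 7 / 8) :
    x ∈ S.B := by
  apply box_sub_B S (e := Cl.root) trivial _ (Vn_le_V S n hV)
  apply box_of_rec S (e := Cl.root) trivial
  intro k
  by_cases hk : k < n
  · left
    have h1 := abs_le.1 (h k hk)
    have h2 := Ball.root_lu S k
    exact ⟨h2.1.trans h1.1, h1.2.trans h2.2⟩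
  · right
    exact ⟨Nat.zero_le k, hV k (not_lt.1 hk)⟩

theorem B_trunc (S : Sys) {n : ℕ} {x : ℕ → ℝ} (hx : x ∈ S.B) (hn : x ∈ S.Vn n) :
    x ∈ convexHull ℝ (⋃ e ∈ {e | S.IsCl e ∧ e.lev ≤ n}, S.box e ∩ (S.Vn n : Set (ℕ → ℝ))) := by
  have h : S.B ⊆ Ball.extL S n ⁻¹'
      convexHull ℝ (⋃ e ∈ {e | S.IsCl e ∧ e.lev ≤ n}, S.box e ∩ (S.Vn n : Set (ℕ → ℝ))) := by
    apply convexHull_min _ ((convex_convexHull ℝ _).linear_preimage _)
    apply Set.iUnion₂_subset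
    rintro e he y ⟨hy, -⟩
    obtain ⟨e', h1, h2, -, h4⟩ := Ball.ext_box S he n hy
    apply subset_convexHull ℝ _
    simp only [Set.mem_iUnion]
    exact ⟨e', ⟨h1, h2⟩, h4, ext_mem S n y⟩
  have h1 := h hx
  rwa [Set.mem_preimage, Ball.extL_apply, Ball.ext_of_mem S hn] at h1

theorem F_sub_B (S : Sys) {c : ℕ} {x : ℕ → ℝ} (hx : x ∈ S.F c) : x ∈ S.B := by
  have h : S.F c ⊆ S.B := by
    apply convexHull_mono
    apply Set.biUnion_subset_biUnion_left
    exact fun e he => he.1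
  exact h hx

theorem cbump (S : Sys) (I : Finset ℕ) (hI : ∀ c ∈ I, S.C c) (θ : ℕ → ℝ)
    (hθ : ∀ c ∈ I, |θ c| ≤ 7 / 8) : ∑ c ∈ I, θ c • S.bump c ∈ S.B := by
  have hV : ∑ c ∈ I, θ c • S.bump c ∈ S.V :=
    S.V.sum_mem fun c _ => S.V.smul_mem _ (Vn_le_V S _ (bump_mem S c))
  apply box_sub_B S (e := Cl.root) trivial _ hV
  apply box_of_rec S (e := Cl.root) trivial
  intro k
  by_cases hk : k ∈ I
  · left
    have h1 : (∑ c ∈ I, θ c • S.bump c) k = θ k := by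
      rw [Finset.sum_apply, Finset.sum_eq_single_of_mem k hk]
      · rw [Pi.smul_apply, bump_self, smul_eq_mul, mul_one]
      · intro c _ hc
        rw [Pi.smul_apply, bump_ne S (Ne.symm hc), S.a_C k (hI k hk), ev_zero_left, smul_zero]
    rw [h1]
    have h2 := abs_le.1 (hθ k hk)
    have h3 := Ball.root_lu S k
    exact ⟨h3.1.trans h2.1, h2.2.trans h3.2⟩
  · right
    refine ⟨Nat.zero_le k, ?_⟩
    rw [ev_sum, Finset.sum_apply]
    refine Finset.sum_congr rfl fun c hc => ?_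
    rw [Pi.smul_apply, ev_smul, smul_eq_mul, bump_ne S (by rintro rfl; exact hk hc)]

end Pool.Agent.MP_235f01_an
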