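import Pool.Agent.MP_235f01_an.Tree
import Pool.Agent.MP_235f01_an.Nest

/-!
# MP_235f01_an, module I: the norming lemma (bound for beta)
-/

set_option autoImplicit false

namespace Pool.Agent.MP_235f01_an

open Classical in
/-- the sign of a coefficient -/
noncomputable def Beta.sgn (g : ℕ →₀ ℝ) (j : ℕ) : ℝ := if 0 < g j then 1 else -1

namespace Beta

lemma sgn_cases (g : ℕ →₀ ℝ) (j : ℕ) : sgn g j = 1 ∨ sgn g j = -1 := by
  unfold sgn
  split_ifs
  · exact Or.inl rfl
  · exact Or.inr rfl

lemma sgn_mul (g : ℕ →₀ ℝ) (j : ℕ) : g j * sgn g j = |g j| := by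
  unfold sgn
  split_ifs with h
  · rw [mul_one, abs_of_pos h]
  · rw [mul_neg, mul_one, abs_of_nonpos (not_lt.1 h)]

lemma sgn_mem (g : ℕ →₀ ℝ) (j : ℕ) : -1 ≤ sgn g j ∧ sgn g j ≤ 1 := by
  rcases sgn_cases g j with h | h <;> rw [h] <;> norm_num

lemma abs_sgn_mul (g : ℕ →₀ ℝ) (j : ℕ) (t : ℝ) : |sgn g j * t| = |t| := by
  rcases sgn_cases g j with h | h <;> rw [h] <;> simp

lemma ev_sub (g : ℕ →₀ ℝ) (x y : ℕ → ℝ) :
    ev g x - ev g y = ∑ k ∈ g.support, g k * (x k - y k) := by
  simp only [ev, Finsupp.sum]
  rw [← Finset.sum_sub_distrib]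
  refine Finset.sum_congr rfl fun k _ => ?_
  ring

lemma ev_add' (g : ℕ →₀ ℝ) (x y : ℕ → ℝ) (a b : ℝ) :
    ev g (a • x + b • y) = a * ev g x + b * ev g y := by
  simp only [ev, Finsupp.sum, Finset.mul_sum]
  rw [← Finset.sum_add_distrib]
  refine Finset.sum_congr rfl fun k _ => ?_
  simp only [Pi.add_apply, Pi.smul_apply, smul_eq_mul]
  ring

/-- a birth coordinate is degenerate or free on a cluster -/
lemma deg_or_free (S : Sys) {e : Cl} (he : S.IsCl e) {j : ℕ} (hj : ¬ S.C j) :
    S.l e j = S.u e j ∨ (S.l e j = -1 ∧ S.u e j = 1) := by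
  cases e with
  | root => exact Or.inr (root_birth S hj)
  | node c s =>
    have hc : S.C c := he
    rcases lt_trichotomy j c with h | h | h
    · left
      rw [S.l_lt c s j hc h, S.u_lt c s j hc h]
    · rw [h] at hj
      exact absurd hc hj
    · have hlev : (Cl.node c s).lev ≤ j := h
      by_cases h1 : S.Locked (S.a j) (Cl.node c s) 1
      · left
        have := S.lock _ j he hlev hj 1 (Or.inl rfl) h1
        rw [this.1, this.2]
      · by_cases h2 : S.Locked (S.a j) (Cl.node c s) (-1)
        · left
          have := S.lock _ j he hlev hj (-1) (Or.inr rfl) h2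
          rw [this.1, this.2]
        · exact Or.inr (S.free _ j he hlev hj h1 h2)

/-- the value at a degenerate birth coordinate -/
lemma deg_value (S : Sys) {c : ℕ} {s : Bool} (hc : S.C c) {j : ℕ} (hj : ¬ S.C j)
    (hd : S.l (Cl.node c s) j = S.u (Cl.node c s) j) :
    |S.l (Cl.node c s) j| = 1 ∨ (j < c ∧ |S.l (Cl.node c s) j| = |S.v c j|) := by
  rcases lt_trichotomy j c with h | h | h
  · right
    refine ⟨h, ?_⟩
    rw [S.l_lt c s j hc h, abs_mul]
    cases s <;> simp [sg]
  · rw [h] at hj
    exact absurd hc hj
  · have hlev : (Cl.node c s).lev ≤ j := h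
    have he : S.IsCl (Cl.node c s) := hc
    left
    by_cases h1 : S.Locked (S.a j) (Cl.node c s) 1
    · rw [(S.lock _ j he hlev hj 1 (Or.inl rfl) h1).1, abs_one]
    · by_cases h2 : S.Locked (S.a j) (Cl.node c s) (-1)
      · rw [(S.lock _ j he hlev hj (-1) (Or.inr rfl) h2).1, abs_neg, abs_one]
      · have := S.free _ j he hlev hj h1 h2
        rw [this.1, this.2] at hd
        norm_num at hd

/-- the place in the chain of ancestors where a coordinate becomes degenerate -/
lemma transition (S : Sys) (D : Cl → Prop) {e p : Cl} (h : S.le e p) (he : S.IsCl e) (h1 : D e)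
    (h2 : ¬ D p) : ∃ c s, S.C c ∧ S.le e (Cl.node c s) ∧ D (Cl.node c s) ∧
      ¬ D (S.parent (Cl.node c s)) := by
  induction h with
  | refl e => exact absurd h1 h2
  | step c s p h ih =>
    have hc : S.C c := he
    by_cases h3 : D (S.parent (Cl.node c s))
    · obtain ⟨c', s', hC, hle, hD, hD'⟩ := ih (parent_cl S hc) h3 h2
      exact ⟨c', s', hC, Raw.le.step c s _ hle, hD, hD'⟩
    · exact ⟨c, s, hc, Raw.le.refl _, h1, h3⟩

lemma geom (n : ℕ) : ∑ c ∈ Finset.range n, (1 : ℝ) / 2 ^ (c + 5) = 1 / 16 - 1 / 2 ^ (n + 4) := by
  induction n with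
  | zero => norm_num
  | succ n ih =>
    rw [Finset.sum_range_succ, ih]
    have h : (2 : ℝ) ^ (n + 1 + 4) = 2 * 2 ^ (n + 4) := by ring
    rw [h]
    field_simp
    ring

end Beta

open Beta

theorem beta_le (S : Sys) (n : ℕ) (g : ℕ →₀ ℝ) (hsupp : ∀ j ∈ g.support, j < n)
    (hg : ∀ e, S.IsCl e → e.lev ≤ n → ∀ x ∈ S.box e, ev g x ≤ 1) {x : ℕ → ℝ}
    (hx : x ∈ convexHull ℝ (⋃ e ∈ {e | S.IsCl e ∧ e.lev ≤ n}, S.box e)) (hgx : ev g x = 1)
    (hB : ∀ j < n, ¬ S.C j → |x j| < 1) : S.beta g ≤ 1 / 5 := by
  classical
  set σ : ℕ → ℝ := sgn g with hσ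
  set J : Finset ℕ := g.support.filter (fun j => ¬ S.C j) with hJ
  set Q : ℝ := ∑ k ∈ g.support.filter (fun k => S.C k), |g k| with hQ
  have hQ0 : 0 ≤ Q := Finset.sum_nonneg fun _ _ => abs_nonneg _
  have hbeta : S.beta g = ∑ j ∈ J, |g j| := by
    rw [Raw.beta, hJ, Finset.sum_filter]
    refine Finset.sum_congr rfl fun j _ => ?_
    simp only [Set.indicator, Set.mem_ofPred_eq]
  have hsplit : ∀ f : ℕ → ℝ, ∑ k ∈ g.support, f k =
      ∑ j ∈ J, f j + ∑ k ∈ g.support.filter (fun k => S.C k), f k := by
    intro f
    rw [← Finset.sum_filter_add_sum_filter_not g.support (fun k => ¬ S.C k) f]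
    congr 1
    refine Finset.sum_congr ?_ fun _ _ => rfl
    ext k
    simp
  -- root inequality
  have hroot : S.beta g + 7 / 8 * Q ≤ 1 := by
    have hy : (fun k => if S.C k then σ k * (1 - S.τ k) else σ k) ∈ S.box Cl.root := by
      intro k
      by_cases hk : S.C k
      · have h1 := root_cluster S hk
        have h2 := S.τ_le k hk
        simp only [if_pos hk]
        rw [h1.1, h1.2]
        rcases sgn_cases g k with h | h
        · rw [hσ, h]
          constructor <;> linarith
        · rw [hσ, h]
          constructor <;> linarith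
      · have h1 := root_birth S hk
        simp only [if_neg hk]
        rw [h1.1, h1.2]
        exact sgn_mem g k
    have h1 := hg Cl.root trivial (Nat.zero_le n) _ hy
    have h2 : ev g (fun k => if S.C k then σ k * (1 - S.τ k) else σ k) =
        ∑ j ∈ J, |g j| + ∑ k ∈ g.support.filter (fun k => S.C k), |g k| * (1 - S.τ k) := by
      rw [ev, Finsupp.sum, hsplit]
      congr 1
      · refine Finset.sum_congr rfl fun j hj => ?_
        rw [hJ, Finset.mem_filter] at hj
        simp only [if_neg hj.2]
        exact sgn_mul g j
      · refine Finset.sum_congr rfl fun k hk => ?_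
        rw [Finset.mem_filter] at hk
        simp only [if_pos hk.2]
        rw [← mul_assoc, hσ, sgn_mul g k]
    have h3 : 7 / 8 * Q ≤ ∑ k ∈ g.support.filter (fun k => S.C k), |g k| * (1 - S.τ k) := by
      rw [hQ, Finset.mul_sum]
      refine Finset.sum_le_sum fun k hk => ?_
      rw [Finset.mem_filter] at hk
      have := S.τ_le k hk.2
      nlinarith [abs_nonneg (g k)]
    rw [hbeta]
    linarith
  have hbeta0 : 0 ≤ S.beta g := by
    rw [hbeta]
    exact Finset.sum_nonneg fun _ _ => abs_nonneg _
  -- witnesses
  set W : ℕ → Bool → Prop := fun c s => ∃ e w, S.IsCl e ∧ e.lev ≤ n ∧ S.le e (Cl.node c s) ∧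
    w ∈ S.box e ∧ ev g w = 1 with hW
  set good : ℕ → Bool → ℕ → Prop := fun c s i => S.C c ∧ W c s ∧
    S.l (Cl.node c s) i = S.u (Cl.node c s) i ∧ S.l (S.parent (Cl.node c s)) i = -1 ∧
    S.u (S.parent (Cl.node c s)) i = 1 ∧ σ i * S.l (Cl.node c s) i < 1 with hgood
  -- every birth coordinate of the support is good for some cluster
  have hex : ∀ j ∈ J, ∃ c ∈ Finset.range n, ∃ s ∈ (Finset.univ : Finset Bool), good c s j := by
    intro j hj
    rw [hJ, Finset.mem_filter] at hj
    have hjn : j < n := hsupp j hj.1
    have hgj : g j ≠ 0 := Finsupp.mem_support_iff.1 hj.1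
    -- a point of a box
    have hpt : ∃ e w, S.IsCl e ∧ e.lev ≤ n ∧ w ∈ S.box e ∧ ev g w = 1 ∧ σ j * w j < 1 := by
      by_contra hcon
      push Not at hcon
      have hHc : Convex ℝ {y : ℕ → ℝ | ev g y < 1 ∨ (ev g y = 1 ∧ 1 ≤ σ j * y j)} := by
        intro y hy z hz a b ha hb hab
        rcases eq_or_lt_of_le ha with ha0 | ha0
        · have hb1 : b = 1 := by linarith
          rw [← ha0, hb1, zero_smul, one_smul, zero_add]
          exact hz
        · rcases eq_or_lt_of_le hb with hb0 | hb0
          · have ha1 : a = 1 := by linarith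
            rw [← hb0, ha1, zero_smul, one_smul, add_zero]
            exact hy
          · have hyle : ev g y ≤ 1 := by
              rcases hy with h | h
              · exact h.le
              · exact h.1.le
            have hzle : ev g z ≤ 1 := by
              rcases hz with h | h
              · exact h.le
              · exact h.1.le
            simp only [Set.mem_ofPred_eq]
            rw [ev_add']
            rcases hy with hy | hy
            · left
              nlinarith
            · rcases hz with hz | hz
              · left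
                nlinarith
              · right
                refine ⟨by rw [hy.1, hz.1]; linarith, ?_⟩
                simp only [Pi.add_apply, Pi.smul_apply, smul_eq_mul]
                nlinarith [hy.2, hz.2]
      have hsub : (⋃ e ∈ {e | S.IsCl e ∧ e.lev ≤ n}, S.box e) ⊆
          {y : ℕ → ℝ | ev g y < 1 ∨ (ev g y = 1 ∧ 1 ≤ σ j * y j)} := by
        intro y hy
        simp only [Set.mem_iUnion, Set.mem_ofPred_eq] at hy
        obtain ⟨e, ⟨he, hl⟩, hy⟩ := hy
        rcases lt_or_eq_of_le (hg e he hl y hy) with h | h
        · exact Or.inl h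
        · exact Or.inr ⟨h, hcon e y he hl hy h⟩
      have hxH := convexHull_min hsub hHc hx
      rcases hxH with h | h
      · rw [hgx] at h
        exact lt_irrefl _ h
      · have h1 := hB j hjn hj.2
        have h2 := (le_abs_self (σ j * x j)).trans (abs_sgn_mul g j (x j)).le
        linarith [h.2]
    obtain ⟨e, w, he, hl, hw, hgw, hlt⟩ := hpt
    -- the coordinate is degenerate at e
    have hdeg : S.l e j = S.u e j := by
      rcases deg_or_free S he hj.2 with h | h
      · exact h
      · exfalso
        have hw' : Function.update w j (σ j) ∈ S.box e := by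
          intro k
          rcases eq_or_ne k j with hk | hk
          · rw [hk, Function.update_self, h.1, h.2]
            exact sgn_mem g j
          · rw [Function.update_of_ne hk]
            exact hw k
        have h1 := hg e he hl _ hw'
        have h2 : ev g (Function.update w j (σ j)) - ev g w = g j * (σ j - w j) := by
          rw [ev_sub, Finset.sum_eq_single j]
          · rw [Function.update_self]
          · intro k _ hk
            rw [Function.update_of_ne hk, sub_self, mul_zero]
          · intro h'
            exact absurd hj.1 h'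
        have h3 : g j * (σ j - w j) = |g j| * (1 - σ j * w j) := by
          have e1 : σ j * σ j = 1 := by
            rcases sgn_cases g j with h' | h' <;> rw [hσ, h'] <;> norm_num
          rw [← sgn_mul g j, ← hσ]
          calc g j * (σ j - w j) = g j * (σ j - (σ j * σ j) * w j) := by rw [e1, one_mul]
            _ = g j * σ j * (1 - σ j * w j) := by ring
        have h4 : 0 < |g j| * (1 - σ j * w j) := mul_pos (abs_pos.2 hgj) (by linarith)
        rw [h3, hgw] at h2
        linarith
    have hnroot : ¬ (S.l Cl.root j = S.u Cl.root j) := by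
      have := root_birth S hj.2
      rw [this.1, this.2]
      norm_num
    obtain ⟨c, s, hC, hle, hD, hD'⟩ := transition S (fun e => S.l e j = S.u e j)
      (cl_le_root S he) he hdeg hnroot
    have hlev : c < n := by
      have h1 := cl_le_lev S he hle
      have h2 : (Cl.node c s).lev = c + 1 := rfl
      omega
    have hfree : S.l (S.parent (Cl.node c s)) j = -1 ∧ S.u (S.parent (Cl.node c s)) j = 1 := by
      rcases deg_or_free S (parent_cl S (s := s) hC) hj.2 with h | h
      · exact absurd h hD'
      · exact h
    have hwj : w j = S.l (Cl.node c s) j := by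
      have h1 := nest_birth S he hle hj.2
      have h2 := hw j
      apply le_antisymm
      · rw [hD]
        exact h2.2.trans h1.2
      · exact h1.1.trans h2.1
    refine ⟨c, Finset.mem_range.2 hlev, s, Finset.mem_univ s, hC, ⟨e, w, he, hl, hle, hw, hgw⟩,
      hD, hfree.1, hfree.2, ?_⟩
    rw [← hwj]
    exact hlt
  -- the inequality for one cluster
  have hone : ∀ c s, ∑ i ∈ J.filter (fun i => good c s i), |g i| ≤ Q * (1 / 2 ^ (c + 5)) := by
    intro c s
    rcases Finset.eq_empty_or_nonempty (J.filter (fun i => good c s i)) with hemp | ⟨i0, hi0⟩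
    · rw [hemp, Finset.sum_empty]
      positivity
    · rw [Finset.mem_filter] at hi0
      obtain ⟨-, hC, ⟨e, w, he, hl, hle, hw, hgw⟩, -⟩ := hi0
      set d : Cl := Cl.node c s with hd
      set p : Cl := S.parent d with hp
      have hpcl : S.IsCl p := parent_cl S hC
      have hplev : p.lev ≤ n := by
        have h1 := cl_le_lev S he hle
        have h2 : (Cl.node c s).lev = c + 1 := rfl
        have h3 := parent_lev S (s := s) hC
        rw [← hd, ← hp] at h3
        rw [← hd] at h2
        omega
      set Jd : Finset ℕ := J.filter (fun i => S.l d i = S.u d i ∧ S.l p i = -1 ∧ S.u p i = 1)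
        with hJd
      set w' : ℕ → ℝ := fun k => if k ∈ Jd then σ k else max (S.l p k) (min (w k) (S.u p k))
        with hw'
      have hw'box : w' ∈ S.box p := by
        intro k
        by_cases hk : k ∈ Jd
        · simp only [hw', if_pos hk]
          rw [hJd, Finset.mem_filter] at hk
          rw [hk.2.2.1, hk.2.2.2]
          exact sgn_mem g k
        · simp only [hw', if_neg hk]
          exact ⟨le_max_left _ _, max_le (lu_le S hpcl k) (min_le_right _ _)⟩
      have h1 := hg p hpcl hplev w' hw'box
      have h2 : ev g w' - ev g w ≤ 0 := by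
        rw [hgw]
        linarith
      rw [ev_sub, hsplit] at h2
      have hκ := S.κ_pos c hC
      -- cluster coordinates
      have h3 : -(Q * (S.κ c / 2 ^ (c + 5))) ≤
          ∑ k ∈ g.support.filter (fun k => S.C k), g k * (w' k - w k) := by
        rw [hQ, Finset.sum_mul, ← Finset.sum_neg_distrib]
        refine Finset.sum_le_sum fun k hk => ?_
        rw [Finset.mem_filter] at hk
        have hkJ : k ∉ Jd := by
          rw [hJd, Finset.mem_filter, hJ, Finset.mem_filter]
          intro h
          exact h.1.2 hk.2
        have hwk : |w' k - w k| ≤ S.κ c / 2 ^ (c + 5) := by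
          simp only [hw', if_neg hkJ]
          have hwb := hw k
          rcases nest_parent S he hle k with h | h
          · rw [min_eq_left (hwb.2.trans h.2), max_eq_right (h.1.trans hwb.1), sub_self, abs_zero]
            positivity
          · obtain ⟨_, hck, ha, hb⟩ := h
            have hτ := S.τκ c k hC hk.2 hck
            refine le_trans ?_ hτ
            rw [abs_le]
            have hlu := lu_le S hpcl k
            have hτ0 := S.τ_pos k hk.2
            constructor
            · have : min (w k) (S.u p k) ≥ w k - S.τ k := by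
                apply le_min
                · linarith
                · linarith [hwb.2]
              linarith [le_max_right (S.l p k) (min (w k) (S.u p k))]
            · have : max (S.l p k) (min (w k) (S.u p k)) ≤ w k + S.τ k := by
                apply max_le
                · linarith [hwb.1]
                · linarith [min_le_left (w k) (S.u p k)]
              linarith
        have h4 : |g k * (w' k - w k)| ≤ |g k| * (S.κ c / 2 ^ (c + 5)) := by
          rw [abs_mul]
          exact mul_le_mul_of_nonneg_left hwk (abs_nonneg _)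
        exact (abs_le.1 h4).1
      -- birth coordinates
      have h4 : ∑ i ∈ Jd, |g i| * (1 - σ i * S.l d i) = ∑ j ∈ J, g j * (w' j - w j) := by
        have hJdJ : Jd ⊆ J := by
          rw [hJd]
          exact Finset.filter_subset _ _
        rw [← Finset.sum_subset hJdJ (f := fun j => g j * (w' j - w j))]
        · refine Finset.sum_congr rfl fun i hi => ?_
          have hi' := hi
          rw [hJd, Finset.mem_filter, hJ, Finset.mem_filter] at hi'
          have hwi : w i = S.l d i := by
            have h5 := nest_birth S he hle hi'.1.2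
            have h6 := hw i
            apply le_antisymm
            · rw [hi'.2.1]
              exact h6.2.trans h5.2
            · exact h5.1.trans h6.1
          have e1 : σ i * σ i = 1 := by
            rcases sgn_cases g i with h' | h' <;> rw [hσ, h'] <;> norm_num
          rw [← sgn_mul g i, ← hσ]
          simp only [hw', if_pos hi]
          rw [hwi]
          calc g i * σ i * (1 - σ i * S.l d i) = g i * (σ i - (σ i * σ i) * S.l d i) := by ring
            _ = g i * (σ i - S.l d i) := by rw [e1, one_mul]
        · intro j hj hjd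
          have hj' := hj
          rw [hJ, Finset.mem_filter] at hj'
          simp only [hw', if_neg hjd]
          have hwb := hw j
          rcases nest_parent S he hle j with h | h
          · rw [min_eq_left (hwb.2.trans h.2), max_eq_right (h.1.trans hwb.1), sub_self, mul_zero]
          · exact absurd h.1 hj'.2
      rw [← h4] at h2
      have h5 : ∑ i ∈ Jd, |g i| * (1 - σ i * S.l d i) ≤ Q * (S.κ c / 2 ^ (c + 5)) := by linarith
      -- comparison
      have h6 : S.κ c * ∑ i ∈ J.filter (fun i => good c s i), |g i| ≤
          ∑ i ∈ Jd, |g i| * (1 - σ i * S.l d i) := by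
        rw [Finset.mul_sum]
        have hsubset : J.filter (fun i => good c s i) ⊆ Jd := by
          intro i hi
          rw [Finset.mem_filter] at hi
          rw [hJd, Finset.mem_filter]
          exact ⟨hi.1, hi.2.2.2.1, hi.2.2.2.2.1, hi.2.2.2.2.2.1⟩
        refine le_trans (Finset.sum_le_sum (g := fun i => |g i| * (1 - σ i * S.l d i)) ?_)
          (Finset.sum_le_sum_of_subset_of_nonneg hsubset ?_)
        · intro i hi
          rw [Finset.mem_filter] at hi
          obtain ⟨hiJ, -, -, hdi, -, -, hlt⟩ := hi
          rw [hJ, Finset.mem_filter] at hiJ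
          rw [mul_comm]
          refine mul_le_mul_of_nonneg_left ?_ (abs_nonneg _)
          have habs := abs_sgn_mul g i (S.l d i)
          rw [← hσ] at habs
          have hκ1 := S.κ_le_one c hC
          rcases deg_value S hC hiJ.2 hdi with h | ⟨hic, h⟩
          · rw [h] at habs
            rcases abs_eq (by norm_num : (0 : ℝ) ≤ 1) |>.1 habs with h' | h'
            · rw [h'] at hlt
              exact absurd hlt (lt_irrefl _)
            · rw [h']
              linarith
          · rw [h] at habs
            rcases lt_or_ge |S.v c i| 1 with hv | hv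
            · have := S.κ_le c i hC hiJ.2 hic hv
              have h7 := le_abs_self (σ i * S.l d i)
              linarith
            · rw [← habs] at hv
              rcases le_abs.1 hv with h' | h'
              · linarith
              · linarith
        · intro i hi _
          rw [hJd, Finset.mem_filter] at hi
          refine mul_nonneg (abs_nonneg _) ?_
          have habs := abs_sgn_mul g i (S.l d i)
          have hb := lu_bound S (e := d) hC i
          have h7 := le_abs_self (σ i * S.l d i)
          have h8 : |S.l d i| ≤ 1 := by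
            rw [abs_le]
            exact ⟨hb.1, (lu_le S (e := d) hC i).trans hb.2⟩
          rw [← hσ] at habs
          linarith
      have h7 : S.κ c * ∑ i ∈ J.filter (fun i => good c s i), |g i| ≤
          S.κ c * (Q * (1 / 2 ^ (c + 5))) := by
        refine (h6.trans h5).trans (le_of_eq ?_)
        ring
      exact le_of_mul_le_mul_left h7 hκ
  -- summation
  have hsum : ∑ j ∈ J, |g j| ≤ ∑ c ∈ Finset.range n, ∑ s ∈ (Finset.univ : Finset Bool),
      ∑ i ∈ J.filter (fun i => good c s i), |g i| := by
    have h1 : ∀ j ∈ J, |g j| ≤ ∑ c ∈ Finset.range n, ∑ s ∈ (Finset.univ : Finset Bool),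
        (if good c s j then |g j| else 0) := by
      intro j hj
      obtain ⟨c, hc, s, hs, h⟩ := hex j hj
      have hn : ∀ c s, 0 ≤ (if good c s j then |g j| else 0) := by
        intro c s
        split_ifs
        · exact abs_nonneg _
        · exact le_rfl
      calc |g j| = (if good c s j then |g j| else 0) := by rw [if_pos h]
        _ ≤ ∑ s ∈ (Finset.univ : Finset Bool), (if good c s j then |g j| else 0) :=
            Finset.single_le_sum (f := fun s => if good c s j then |g j| else 0)
              (fun s _ => hn c s) hs
        _ ≤ _ := Finset.single_le_sum (f := fun c => ∑ s ∈ (Finset.univ : Finset Bool),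
              (if good c s j then |g j| else 0))
              (fun c _ => Finset.sum_nonneg fun s _ => hn c s) hc
    refine (Finset.sum_le_sum h1).trans (le_of_eq ?_)
    rw [Finset.sum_comm]
    refine Finset.sum_congr rfl fun c _ => ?_
    rw [Finset.sum_comm]
    refine Finset.sum_congr rfl fun s _ => ?_
    exact (Finset.sum_filter _ _).symm
  have hfin : ∑ c ∈ Finset.range n, ∑ s ∈ (Finset.univ : Finset Bool),
      ∑ i ∈ J.filter (fun i => good c s i), |g i| ≤ Q / 8 := by
    calc _ ≤ ∑ c ∈ Finset.range n, ∑ s ∈ (Finset.univ : Finset Bool), Q * (1 / 2 ^ (c + 5)) :=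
          Finset.sum_le_sum fun c _ => Finset.sum_le_sum fun s _ => hone c s
      _ = 2 * Q * ∑ c ∈ Finset.range n, (1 : ℝ) / 2 ^ (c + 5) := by
          rw [Finset.mul_sum]
          refine Finset.sum_congr rfl fun c _ => ?_
          rw [Finset.sum_const, Finset.card_univ, Fintype.card_bool]
          simp only [nsmul_eq_mul, Nat.cast_ofNat]
          ring
      _ ≤ 2 * Q * (1 / 16) := by
          rw [geom]
          refine mul_le_mul_of_nonneg_left ?_ (by positivity)
          have : (0 : ℝ) < 1 / 2 ^ (n + 4) := by positivity
          linarith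
      _ = Q / 8 := by ring
  rw [hbeta] at hroot hbeta0 ⊢
  linarith

end Pool.Agent.MP_235f01_an
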