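import Pool.Agent.MP_235f01_an.Tree
import Pool.Agent.MP_235f01_an.Nest

/-!
# Module E: evaluation, extension by the recursion, points of the boxes
-/

set_option autoImplicit false

namespace Pool.Agent.MP_235f01_an

theorem ev_congr {g : ℕ →₀ ℝ} {x y : ℕ → ℝ} (h : ∀ j ∈ g.support, x j = y j) :
    ev g x = ev g y := by
  unfold ev Finsupp.sum
  exact Finset.sum_congr rfl fun j hj => by simp only [h j hj]

theorem ev_add (g : ℕ →₀ ℝ) (x y : ℕ → ℝ) : ev g (x + y) = ev g x + ev g y := by
  simp [ev, Finsupp.sum, mul_add, Finset.sum_add_distrib]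

theorem ev_smul (g : ℕ →₀ ℝ) (c : ℝ) (x : ℕ → ℝ) : ev g (c • x) = c * ev g x := by
  simp only [ev, Finsupp.sum, Pi.smul_apply, smul_eq_mul, Finset.mul_sum]
  refine Finset.sum_congr rfl fun j _ => ?_
  ring

theorem ev_single (j : ℕ) (r : ℝ) (x : ℕ → ℝ) : ev (Finsupp.single j r) x = r * x j := by
  simp [ev, Finsupp.sum_single_index]

namespace Ext

theorem ev_zero (g : ℕ →₀ ℝ) : ev g 0 = 0 := by simp [ev]

theorem ev_zero_left (x : ℕ → ℝ) : ev 0 x = 0 := by simp [ev]

theorem ev_sum {ι : Type*} (g : ℕ →₀ ℝ) (I : Finset ι) (f : ι → ℕ → ℝ) :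
    ev g (∑ i ∈ I, f i) = ∑ i ∈ I, ev g (f i) := by
  classical
  induction I using Finset.induction_on with
  | empty => simp [ev_zero]
  | insert a s ha ih => rw [Finset.sum_insert ha, Finset.sum_insert ha, ev_add, ih]

/-- `ev g` as a linear map. -/
noncomputable def evL (g : ℕ →₀ ℝ) : (ℕ → ℝ) →ₗ[ℝ] ℝ where
  toFun := ev g
  map_add' := ev_add g
  map_smul' := fun c x => by simp [ev_smul]

@[simp] theorem evL_apply (g : ℕ →₀ ℝ) (x : ℕ → ℝ) : evL g x = ev g x := rfl

theorem ext_ge (S : Sys) {n k : ℕ} (h : n ≤ k) (x : ℕ → ℝ) :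
    S.ext n x k = ∑ j : Fin k, S.a k j * S.ext n x j := by
  rw [Raw.ext, if_neg (not_lt.2 h)]

theorem ev_eq_fin (S : Sys) (k : ℕ) (y : ℕ → ℝ) :
    ev (S.a k) y = ∑ j : Fin k, S.a k j * y j := by
  rw [Fin.sum_univ_eq_sum_range (fun j => S.a k j * y j) k]
  unfold ev Finsupp.sum
  apply Finset.sum_subset
  · intro j hj
    exact Finset.mem_range.2 (S.a_supp k j hj)
  · intro j _ hj
    simp only [Finsupp.notMem_support_iff.1 hj, zero_mul]

end Ext

open Ext

theorem ext_lt (S : Sys) {n k : ℕ} (h : k < n) (x : ℕ → ℝ) : S.ext n x k = x k := by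
  rw [Raw.ext, if_pos h]

theorem ext_mem (S : Sys) (n : ℕ) (x : ℕ → ℝ) : S.ext n x ∈ S.Vn n := by
  intro k hk
  rw [ext_ge S hk, ev_eq_fin]

theorem Vn_unique (S : Sys) {n : ℕ} {x y : ℕ → ℝ} (hx : x ∈ S.Vn n) (hy : y ∈ S.Vn n)
    (h : ∀ k < n, x k = y k) : x = y := by
  funext k
  induction k using Nat.strong_induction_on with
  | _ k ih =>
    by_cases hk : k < n
    · exact h k hk
    · rw [hx k (not_lt.1 hk), hy k (not_lt.1 hk)]
      exact ev_congr fun j hj => ih j (S.a_supp k j hj)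

theorem Vn_mono (S : Sys) {n m : ℕ} (h : n ≤ m) : S.Vn n ≤ S.Vn m :=
  fun _ hx k hk => hx k (h.trans hk)

theorem Vn_le_V (S : Sys) (n : ℕ) : S.Vn n ≤ S.V := fun _ hx => ⟨n, hx⟩

theorem bump_lt (S : Sys) {m k : ℕ} (h : k < m) : S.bump m k = 0 := by
  unfold Raw.bump
  rw [ext_lt S (by omega)]
  simp [h.ne]

theorem bump_self (S : Sys) (m : ℕ) : S.bump m m = 1 := by
  unfold Raw.bump
  rw [ext_lt S (by omega)]
  simp

theorem bump_mem (S : Sys) (m : ℕ) : S.bump m ∈ S.Vn (m + 1) := ext_mem S _ _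

theorem bump_ne (S : Sys) {m k : ℕ} (h : k ≠ m) : S.bump m k = ev (S.a k) (S.bump m) := by
  rcases lt_or_gt_of_ne h with h | h
  · rw [bump_lt S h]
    symm
    rw [ev_congr (y := 0), ev_zero]
    intro j hj
    rw [bump_lt S ((S.a_supp k j hj).trans h)]
    rfl
  · exact bump_mem S m k h

theorem cv_lt (S : Sys) {c j : ℕ} (h : j < c) : S.cv c j = S.v c j := by
  unfold Raw.cv
  rw [ext_lt S (by omega), if_pos h]

theorem cv_self (S : Sys) (c : ℕ) : S.cv c c = 1 := by
  unfold Raw.cv
  rw [ext_lt S (by omega), if_neg (lt_irrefl c)]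

theorem cv_mem (S : Sys) (c : ℕ) : S.cv c ∈ S.Vn (c + 1) := ext_mem S _ _

/-- If each coordinate satisfies the box constraint or the recursion, `x` lies in the box. -/
theorem box_of_rec (S : Sys) {e : Cl} (he : S.IsCl e) {x : ℕ → ℝ}
    (h : ∀ k, (S.l e k ≤ x k ∧ x k ≤ S.u e k) ∨ (e.lev ≤ k ∧ x k = ev (S.a k) x)) :
    x ∈ S.box e := by
  intro k
  induction k using Nat.strong_induction_on with
  | _ k ih =>
    rcases h k with h | ⟨hk, hx⟩
    · exact h
    by_cases hC : S.C k
    · rw [hx, S.a_C k hC, ev_zero_left]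
      have h1 := S.τ_le k hC
      have h2 := S.τ_pos k hC
      constructor
      · by_cases hl : S.le (Cl.node k false) e
        · rw [S.l_C1 e k he hk hC hl]
          linarith
        · rw [S.l_C2 e k he hk hC hl]
          norm_num
      · by_cases hl : S.le (Cl.node k true) e
        · rw [S.u_C1 e k he hk hC hl]
          linarith
        · rw [S.u_C2 e k he hk hC hl]
          norm_num
    · have hb := S.a6 k hC e he hk x (fun j hj => ih j hj)
      have key : ∀ ε : ℝ, (ε = 1 ∨ ε = -1) → S.Locked (S.a k) e ε →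
          S.l e k ≤ x k ∧ x k ≤ S.u e k := by
        intro ε hε h1
        obtain ⟨hl, hu⟩ := S.lock e k he hk hC ε hε h1
        have : ev (S.a k) x = ε := by
          rw [← h1.2]
          apply ev_congr
          intro j hj
          have h3 := ih j (S.a_supp k j hj)
          have h4 := h1.1 j hj
          linarith [h3.1, h3.2]
        rw [hx, this, hl, hu]
        exact ⟨le_rfl, le_rfl⟩
      by_cases h1 : S.Locked (S.a k) e 1
      · exact key 1 (Or.inl rfl) h1
      · by_cases h2 : S.Locked (S.a k) e (-1)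
        · exact key (-1) (Or.inr rfl) h2
        · obtain ⟨hl, hu⟩ := S.free e k he hk hC h1 h2
          rw [hl, hu, hx]
          exact abs_le.1 hb

theorem cv_box (S : Sys) {c : ℕ} (hc : S.C c) : S.cv c ∈ S.box (Cl.node c true) := by
  apply box_of_rec S (show S.IsCl (Cl.node c true) from hc)
  intro k
  rcases lt_trichotomy k c with hk | hk | hk
  · left
    rw [S.l_lt c true k hc hk, S.u_lt c true k hc hk, cv_lt S hk]
    simp [sg]
  · left
    subst hk
    rw [S.l_eq k true hc, S.u_eq k true hc, cv_self]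
    simp [sg]
  · right
    exact ⟨hk, cv_mem S c k hk⟩

theorem Ext.trunc_aux (S : Sys) (n : ℕ) (x : ℕ → ℝ) (L : ℕ) : ∀ e : Cl, e.lev = L → S.IsCl e →
    (∀ j < n, S.l e j ≤ x j ∧ x j ≤ S.u e j) →
    ∃ e', S.IsCl e' ∧ e'.lev ≤ n ∧ S.le e e' ∧ ∀ j < n, S.l e' j ≤ x j ∧ x j ≤ S.u e' j := by
  induction L using Nat.strong_induction_on with
  | _ L ih =>
    intro e heL he hx
    by_cases hn : e.lev ≤ n
    · exact ⟨e, he, hn, Raw.le.refl e, hx⟩
    match e, heL, he, hx, hn with
    | Cl.root, _, _, _, hn => exact absurd (Nat.zero_le n) hn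
    | Cl.node c s, heL, he, hx, hn =>
      have hc : S.C c := he
      have hlev : (Cl.node c s).lev = c + 1 := rfl
      have hnc : n ≤ c := by omega
      have hpl := parent_lev S (s := s) hc
      obtain ⟨e', h1, h2, h3, h4⟩ := ih (S.parent (Cl.node c s)).lev (by omega)
        (S.parent (Cl.node c s)) rfl (parent_cl S hc) (by
          intro j hj
          have h5 := hx j hj
          have hjc : j < c := lt_of_lt_of_le hj hnc
          rw [S.l_lt c s j hc hjc, S.u_lt c s j hc hjc] at h5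
          have h6 : x j = sg s * S.v c j := le_antisymm h5.2 h5.1
          have h7 := S.center c j hc hjc
          rw [h6]
          cases s with
          | true => simpa [sg, Raw.parent] using h7
          | false =>
            have h8 := lu_neg S (S.par_cl c hc) j
            have h9 : S.parent (Cl.node c false) = (S.par c).neg := rfl
            rw [h9, h8.1, h8.2]
            simp only [sg]
            constructor <;> simp <;> linarith [h7.1, h7.2])
      exact ⟨e', h1, h2, Raw.le.step c s e' h3, h4⟩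

theorem box_trunc (S : Sys) {e : Cl} (he : S.IsCl e) {x : ℕ → ℝ} (hx : x ∈ S.box e) (n : ℕ) :
    ∃ e', S.IsCl e' ∧ e'.lev ≤ n ∧ S.le e e' ∧ ∀ j < n, S.l e' j ≤ x j ∧ x j ≤ S.u e' j :=
  Ext.trunc_aux S n x e.lev e rfl he fun j _ => hx j

end Pool.Agent.MP_235f01_an
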