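import Pool.Agent.MP_235f01_an.Nest
import Pool.Agent.MP_235f01_an.Ext
import Pool.Agent.MP_235f01_an.Ball

set_option autoImplicit false

namespace Pool.Agent.MP_235f01_an

namespace KboundAux

/-- The standing hypotheses of `Kbound`. -/
structure KH (S : Sys) (c M : ℕ → ℕ) (y : ℕ → ℕ → ℝ) : Prop where
  hC : ∀ k, S.C (c k)
  hcM : ∀ k, c k < M k
  hMc : ∀ k, M k ≤ c (k + 1)
  hpar : ∀ k, S.par (c (k + 1)) = Cl.node (c k) true
  hy : ∀ k, y k ∈ S.F (c k)
  hyM : ∀ k, y k ∈ S.Vn (M k)
  hwin : ∀ k j, c k < j → j < M k → ¬ S.C j → |S.v (c (k + 1)) j| = 1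
  hrec : ∀ k j, M k ≤ j → j < c (k + 1) →
    S.v (c (k + 1)) j = ev (S.a j) (S.v (c (k + 1)))

theorem F_between (S : Sys) {c j : ℕ} {a b : ℝ}
    (h : ∀ e, S.IsCl e → S.le e (Cl.node c true) → a ≤ S.l e j ∧ S.u e j ≤ b)
    {x : ℕ → ℝ} (hx : x ∈ S.F c) : a ≤ x j ∧ x j ≤ b := by
  have hconv : Convex ℝ {x : ℕ → ℝ | x j ∈ Set.Icc a b} := by
    have := (convex_Icc a b).linear_preimage (LinearMap.proj (R := ℝ) (φ := fun _ : ℕ => ℝ) j)
    exact this
  have hsub : S.F c ⊆ {x : ℕ → ℝ | x j ∈ Set.Icc a b} := by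
    refine convexHull_min ?_ hconv
    refine Set.iUnion₂_subset ?_
    rintro e ⟨he, hle⟩ x ⟨hx, _⟩
    obtain ⟨h1, h2⟩ := h e he hle
    obtain ⟨h3, h4⟩ := hx j
    exact ⟨h1.trans h3, h4.trans h2⟩
  exact hsub hx

theorem single_node {S : Sys} {c : ℕ} (hc : S.C c) : S.IsCl (Cl.node c true) := hc

theorem sg_true : sg true = 1 := rfl

theorem F_lt (S : Sys) {c j : ℕ} (hc : S.C c) (hj : j < c) {x : ℕ → ℝ} (hx : x ∈ S.F c) :
    x j = S.v c j := by
  have := F_between S (c := c) (j := j) (a := S.v c j) (b := S.v c j) (fun e he hle => by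
    have := (box_tip S hc he hle).2 j hj
    rw [sg_true, one_mul] at this
    exact ⟨this.1.ge, this.2.le⟩) hx
  exact le_antisymm this.2 this.1

theorem F_self (S : Sys) {c : ℕ} (hc : S.C c) {x : ℕ → ℝ} (hx : x ∈ S.F c) :
    x c = 1 := by
  have := F_between S (c := c) (j := c) (a := 1) (b := 1) (fun e he hle => by
    have := (box_tip S hc he hle).1
    rw [sg_true] at this
    exact ⟨this.1.ge, this.2.le⟩) hx
  exact le_antisymm this.2 this.1

variable {S : Sys} {c M : ℕ → ℕ} {y : ℕ → ℕ → ℝ}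

theorem KH.cmono (H : KH S c M y) : StrictMono c :=
  strictMono_nat_of_lt_succ fun k => lt_of_lt_of_le (H.hcM k) (H.hMc k)

theorem KH.M_le (H : KH S c M y) {k k' : ℕ} (h : k < k') : M k ≤ c k' :=
  (H.hMc k).trans (H.cmono.monotone h)

/-- the differences -/
noncomputable def w (S : Sys) (c : ℕ → ℕ) (y : ℕ → ℕ → ℝ) (k m : ℕ) : ℝ := y k m - S.cv (c k) m

theorem cv_abs (H : KH S c M y) (k m : ℕ) : |S.cv (c k) m| ≤ 1 := by
  have h1 := cv_box S (H.hC k) m
  have h2 := lu_bound S (e := Cl.node (c k) true) (H.hC k) m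
  exact abs_le.2 ⟨h2.1.trans h1.1, h1.2.trans h2.2⟩

theorem y_abs (H : KH S c M y) (k m : ℕ) : |y k m| ≤ 1 := B_coord S (F_sub_B S (H.hy k)) m

theorem w_abs (H : KH S c M y) (k m : ℕ) : |w S c y k m| ≤ 2 := by
  have h1 := cv_abs H k m
  have h2 := y_abs H k m
  unfold w
  calc |y k m - S.cv (c k) m| ≤ |y k m| + |S.cv (c k) m| := abs_sub _ _
    _ ≤ 2 := by linarith

theorem w_le (H : KH S c M y) {k m : ℕ} (h : m ≤ c k) : w S c y k m = 0 := by
  unfold w
  rcases lt_or_eq_of_le h with h | h
  · rw [F_lt S (H.hC k) h (H.hy k), cv_lt S h, sub_self]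
  · subst h
    rw [F_self S (H.hC k) (H.hy k), cv_self, sub_self]

theorem cv_Vn (H : KH S c M y) (k : ℕ) : S.cv (c k) ∈ S.Vn (M k) :=
  Vn_mono S (H.hcM k) (cv_mem S (c k))

theorem w_Vn (H : KH S c M y) (k : ℕ) : w S c y k ∈ S.Vn (M k) := by
  have : w S c y k = y k - S.cv (c k) := rfl
  rw [this]
  exact (S.Vn (M k)).sub_mem (H.hyM k) (cv_Vn H k)

theorem w_rec (H : KH S c M y) {k m : ℕ} (h : M k ≤ m) :
    w S c y k m = ev (S.a m) (w S c y k) := w_Vn H k m h

theorem ev_zero (x : ℕ → ℝ) : ev 0 x = 0 := by simp [ev]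

theorem w_C_zero (H : KH S c M y) {k m : ℕ} (hm : S.C m) (h : ¬ (c k < m ∧ m < M k)) :
    w S c y k m = 0 := by
  by_cases h1 : m ≤ c k
  · exact w_le H h1
  · have h2 : M k ≤ m := by
      by_contra h3
      exact h ⟨lt_of_not_ge h1, lt_of_not_ge h3⟩
    rw [w_rec H h2, S.a_C m hm, ev_zero]

theorem w_C_abs (H : KH S c M y) {k m : ℕ} (hm : S.C m) : |w S c y k m| ≤ 1 := by
  by_cases h1 : m ≤ c k
  · rw [w_le H h1]; simp
  · have h2 : S.cv (c k) m = 0 := by
      have := cv_mem S (c k) m (by omega)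
      rw [this, S.a_C m hm, ev_zero]
    unfold w
    rw [h2, sub_zero]
    exact y_abs H k m

/-- At most one window contains `m`. -/
theorem win_unique (H : KH S c M y) {k k' m : ℕ} (h : c k < m ∧ m < M k)
    (h' : c k' < m ∧ m < M k') : k = k' := by
  rcases lt_trichotomy k k' with hk | hk | hk
  · have := H.M_le hk
    omega
  · exact hk
  · have := H.M_le hk
    omega

theorem win_unique' (H : KH S c M y) {k k' m : ℕ} (h : c k < m ∧ m < M k) (h1 : c k' < m)
    (h' : m < M k') : k = k' := win_unique H h ⟨h1, h'⟩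

theorem sum_win (H : KH S c M y) (m L : ℕ) {r : ℝ} (hr : 0 ≤ r) (f : ℕ → ℝ)
    (h0 : ∀ k, ¬ (c k < m ∧ m < M k) → f k = 0) (h1 : ∀ k, f k ≤ r) :
    ∑ k ∈ Finset.range L, f k ≤ r := by
  by_cases hex : ∃ k, c k < m ∧ m < M k
  · obtain ⟨k, hk⟩ := hex
    have h2 : ∀ k' ∈ Finset.range L, f k' ≤ if k' = k then r else 0 := by
      intro k' _
      by_cases hkk : k' = k
      · rw [if_pos hkk]; exact h1 k'
      · rw [if_neg hkk]
        exact (h0 k' fun h => hkk (win_unique H h hk)).le
    refine (Finset.sum_le_sum h2).trans ?_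
    rw [Finset.sum_ite_eq']
    split_ifs
    · exact le_rfl
    · exact hr
  · have : ∀ k ∈ Finset.range L, f k = 0 := fun k _ => h0 k fun h => hex ⟨k, h⟩
    rw [Finset.sum_eq_zero this]
    exact hr

theorem sum_C (H : KH S c M y) {m : ℕ} (hm : S.C m) (L : ℕ) :
    ∑ k ∈ Finset.range L, |w S c y k m| ≤ 1 :=
  sum_win H m L zero_le_one _ (fun k h => by rw [w_C_zero H hm h, abs_zero])
    (fun k => w_C_abs H hm)

/-! ### the centres -/

theorem v_succ (H : KH S c M y) {k j : ℕ} (h : j < c k) : S.v (c (k + 1)) j = S.v (c k) j := by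
  have h1 : j < c (k + 1) := h.trans (H.cmono (Nat.lt_succ_self k))
  have := S.center (c (k + 1)) j (H.hC _) h1
  rw [H.hpar, S.l_lt _ _ _ (H.hC k) h, S.u_lt _ _ _ (H.hC k) h, sg_true, one_mul] at this
  exact le_antisymm this.2 this.1

theorem v_mono (H : KH S c M y) {k k' j : ℕ} (hk : k ≤ k') (h : j < c k) :
    S.v (c k') j = S.v (c k) j := by
  induction k', hk using Nat.le_induction with
  | base => rfl
  | succ n hn ih =>
    rw [v_succ H (lt_of_lt_of_le h (H.cmono.monotone hn)), ih]

/-- The fixed birth coordinates of the `k`-th cluster. -/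
def E (S : Sys) (c : ℕ → ℕ) (k j : ℕ) : Prop :=
  ¬ S.C j ∧ ∃ ε : ℝ, (ε = 1 ∨ ε = -1) ∧ S.l (Cl.node (c k) true) j = ε ∧
    S.u (Cl.node (c k) true) j = ε

theorem le_succ (H : KH S c M y) (k : ℕ) :
    S.le (Cl.node (c (k + 1)) true) (Cl.node (c k) true) := by
  refine Raw.le.step _ _ _ ?_
  show S.le (S.par (c (k + 1))) _
  rw [H.hpar]
  exact Raw.le.refl _

theorem E_succ (H : KH S c M y) {k j : ℕ} (h : E S c k j) : E S c (k + 1) j := by
  obtain ⟨hj, ε, hε, h1, h2⟩ := h
  have h3 := nest_birth S (e := Cl.node (c (k + 1)) true) (H.hC _) (le_succ H k) hj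
  have h4 := lu_le S (e := Cl.node (c (k + 1)) true) (H.hC _) j
  rw [h1, h2] at h3
  exact ⟨hj, ε, hε, le_antisymm (h4.trans h3.2) h3.1, le_antisymm h3.2 (h3.1.trans h4)⟩

theorem E_mono (H : KH S c M y) {k k' j : ℕ} (hk : k ≤ k') (h : E S c k j) : E S c k' j := by
  induction k', hk using Nat.le_induction with
  | base => exact h
  | succ n hn ih => exact E_succ H ih

theorem E_of_v (H : KH S c M y) {k j : ℕ} (hj : ¬ S.C j) (hjk : j < c k)
    (h : |S.v (c k) j| = 1) : E S c k j := by
  refine ⟨hj, S.v (c k) j, ?_, ?_, ?_⟩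
  · rcases abs_eq (zero_le_one (α := ℝ)) |>.1 h with h | h
    · exact Or.inl h
    · exact Or.inr h
  · rw [S.l_lt _ _ _ (H.hC k) hjk, sg_true, one_mul]
  · rw [S.u_lt _ _ _ (H.hC k) hjk, sg_true, one_mul]

theorem E_win (H : KH S c M y) {k j : ℕ} (hj : ¬ S.C j) (h1 : c k < j) (h2 : j < M k) :
    E S c (k + 1) j :=
  E_of_v H hj (lt_of_lt_of_le h2 (H.hMc k)) (H.hwin k j h1 h2 hj)

theorem E_zero (H : KH S c M y) {k j : ℕ} (h : E S c k j) : w S c y k j = 0 := by
  obtain ⟨hj, ε, hε, h1, h2⟩ := h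
  have h3 := F_between S (c := c k) (j := j) (a := ε) (b := ε) (fun e he hle => by
    have := nest_birth S he hle hj
    rw [h1, h2] at this
    exact this) (H.hy k)
  have h4 := cv_box S (H.hC k) j
  rw [h1, h2] at h4
  unfold w
  rw [le_antisymm h3.2 h3.1, le_antisymm h4.2 h4.1, sub_self]

theorem ev_single_one (j : ℕ) (x : ℕ → ℝ) : ev (Finsupp.single j 1) x = x j := by
  rw [ev_single, one_mul]

/-- Births of pure coordinates are fixed with the coordinate. -/
theorem E_pure (H : KH S c M y) {k i j : ℕ} (hi : ¬ S.C i) (hji : j < i)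
    (ha : S.a i = Finsupp.single j 1) (h0 : c 0 < i) (h : E S c k j) : E S c k i := by
  rcases lt_trichotomy i (c k) with hik | hik | hik
  · -- find the window
    have hex : ∃ n, i < c (n + 1) ∧ n < k := by
      cases k with
      | zero => omega
      | succ n => exact ⟨n, hik, Nat.lt_succ_self n⟩
    classical
    have hex' : ∃ n, i < c (n + 1) := ⟨_, hex.choose_spec.1⟩
    obtain ⟨n, hn⟩ : ∃ n, n = Nat.find hex' := ⟨_, rfl⟩
    have hn1 : i < c (n + 1) := by rw [hn]; exact Nat.find_spec hex'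
    have hn2 : n < k := by
      obtain ⟨n', hn', hk'⟩ := hex
      exact lt_of_le_of_lt (by rw [hn]; exact Nat.find_min' hex' hn') hk'
    have hn3 : c n < i := by
      rcases Nat.eq_zero_or_pos n with h0' | h0'
      · rw [h0']; exact h0
      · have hlt : n - 1 < Nat.find hex' := by rw [← hn]; omega
        have := Nat.find_min hex' hlt
        have h5 : n - 1 + 1 = n := by omega
        rw [h5] at this
        have h6 : c n ≤ i := not_lt.1 this
        rcases lt_or_eq_of_le h6 with h7 | h7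
        · exact h7
        · exact absurd (h7 ▸ H.hC n) hi
    by_cases hM : i < M n
    · exact E_mono H hn2 (E_win H hi hn3 hM)
    · have h8 := H.hrec n i (not_lt.1 hM) hn1
      rw [ha, ev_single_one] at h8
      -- the value of `v` at `j`
      have h9 : |S.v (c (n + 1)) i| = 1 := by
        obtain ⟨hj, ε, hε, h1, _⟩ := h
        have h10 : j < c k := hji.trans hik
        rw [S.l_lt _ _ _ (H.hC k) h10, sg_true, one_mul] at h1
        have h11 := v_mono H (k := n + 1) (k' := k) hn2 (hji.trans hn1)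
        rw [h8, ← h11, h1]
        rcases hε with h | h <;> rw [h] <;> simp
      exact E_mono H hn2 (E_of_v H hi hn1 h9)
  · exact absurd (hik ▸ H.hC k) hi
  · obtain ⟨hj, ε, hε, h1, h2⟩ := h
    refine ⟨hi, ε, hε, ?_⟩
    refine S.lock (Cl.node (c k) true) i (H.hC k) (by simpa [Cl.lev] using hik) hi ε hε
      ⟨?_, ?_⟩
    · intro j' hj'
      rw [ha] at hj'
      have : j' = j := by
        have := Finsupp.support_single_subset hj'
        simpa using this
      rw [this, h1, h2]
    · rw [ha, ev_single_one, h1]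

/-! ### the sum over the cluster coordinates of a birth functional -/

theorem sum_C_le (S : Sys) {m : ℕ} (hm : ¬ S.C m) :
    ∑ j ∈ (S.a m).support, Set.indicator {j | S.C j} (fun j => |S.a m j|) j ≤ 8 / 7 := by
  classical
  set x : ℕ → ℝ := fun j => if S.C j then (SignType.sign (S.a m j) : ℝ) * (1 - S.τ j) else 0
    with hx
  have hbox : ∀ j < m, S.l Cl.root j ≤ x j ∧ x j ≤ S.u Cl.root j := by
    intro j _
    by_cases hj : S.C j
    · obtain ⟨h1, h2⟩ := root_cluster S hj
      have h3 := S.τ_pos j hj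
      have h4 := S.τ_le j hj
      rw [h1, h2]
      simp only [hx, if_pos hj]
      rcases lt_trichotomy (S.a m j) 0 with h | h | h
      · have h5 : ((SignType.sign (S.a m j) : SignType) : ℝ) = -1 := by rw [sign_neg h]; simp
        rw [h5]; constructor <;> linarith
      · have h5 : ((SignType.sign (S.a m j) : SignType) : ℝ) = 0 := by rw [h, sign_zero]; simp
        rw [h5]; constructor <;> linarith
      · have h5 : ((SignType.sign (S.a m j) : SignType) : ℝ) = 1 := by rw [sign_pos h]; simp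
        rw [h5]; constructor <;> linarith
    · obtain ⟨h1, h2⟩ := root_birth S hj
      rw [h1, h2]
      simp only [hx, if_neg hj]
      constructor <;> norm_num
  have h6 := S.a6 m hm Cl.root trivial (Nat.zero_le m) x hbox
  have h7 := (abs_le.1 h6).2
  have h8 : (7 / 8 : ℝ) *
      ∑ j ∈ (S.a m).support, Set.indicator {j | S.C j} (fun j => |S.a m j|) j ≤
      ev (S.a m) x := by
    rw [Finset.mul_sum]
    unfold ev Finsupp.sum
    refine Finset.sum_le_sum fun j _ => ?_
    by_cases hj : S.C j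
    · rw [Set.indicator_of_mem (show j ∈ {j | S.C j} from hj)]
      simp only [hx, if_pos hj]
      have h4 := S.τ_le j hj
      have h5 : S.a m j * ((SignType.sign (S.a m j) : ℝ) * (1 - S.τ j)) =
          |S.a m j| * (1 - S.τ j) := by
        rw [← mul_assoc, self_mul_sign]
      rw [h5]
      nlinarith [abs_nonneg (S.a m j)]
    · rw [Set.indicator_of_notMem (show j ∉ {j | S.C j} from hj)]
      simp only [hx, if_neg hj]
      simp
  linarith

/-! ### the main induction -/

/-- the alternatives -/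
def Alpha (S : Sys) (c M : ℕ → ℕ) (y : ℕ → ℕ → ℝ) (m : ℕ) : Prop :=
  ∀ L, ∑ k ∈ (Finset.range L).filter (fun k => M k ≤ m), |w S c y k m| ≤ 5 / 2

def Beta (S : Sys) (c : ℕ → ℕ) (y : ℕ → ℕ → ℝ) (m : ℕ) : Prop :=
  ∃ k₁, E S c (k₁ + 1) m ∧ c k₁ < m ∧ ∑ k ∈ Finset.range k₁, |w S c y k m| ≤ 5 / 2

theorem total (H : KH S c M y) {m : ℕ} (h : Alpha S c M y m ∨ Beta S c y m) (L : ℕ) :
    ∑ k ∈ Finset.range L, |w S c y k m| ≤ 9 / 2 := by
  rcases h with h | ⟨k₁, hE, hk₁, hs⟩
  · rw [← Finset.sum_filter_add_sum_filter_not (Finset.range L) (fun k => M k ≤ m)]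
    have h1 := h L
    have h2 : ∑ k ∈ (Finset.range L).filter (fun k => ¬ M k ≤ m), |w S c y k m| ≤ 2 := by
      rw [Finset.sum_filter]
      refine sum_win H m L (by norm_num) _ ?_ ?_
      · intro k hk
        by_cases hM : M k ≤ m
        · simp [hM]
        · have : m ≤ c k := by
            by_contra h3
            exact hk ⟨lt_of_not_ge h3, lt_of_not_ge hM⟩
          rw [w_le H this]
          simp
      · intro k
        split_ifs
        · norm_num
        · exact w_abs H k m
    linarith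
  · have h1 : ∑ k ∈ Finset.range L, |w S c y k m| ≤
        ∑ k ∈ Finset.range (k₁ + 1), |w S c y k m| := by
      rcases le_total L (k₁ + 1) with hL | hL
      · exact Finset.sum_le_sum_of_subset_of_nonneg (Finset.range_mono hL)
          fun _ _ _ => abs_nonneg _
      · refine le_of_eq ?_
        symm
        refine Finset.sum_subset (Finset.range_mono hL) ?_
        intro k _ hk
        have hk' : k₁ + 1 ≤ k := by simpa using hk
        rw [E_zero H (E_mono H hk' hE), abs_zero]
    rw [Finset.sum_range_succ] at h1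
    have h2 := w_abs H k₁ m
    linarith

theorem main (H : KH S c M y) : ∀ m, ¬ S.C m → Alpha S c M y m ∨ Beta S c y m := by
  intro m
  induction m using Nat.strong_induction_on with
  | _ m ih =>
  intro hm
  by_cases h0 : m ≤ c 0
  · left
    intro L
    refine (Finset.sum_nonpos ?_).trans (by norm_num)
    intro k _
    rw [w_le H (h0.trans (H.cmono.monotone (Nat.zero_le k))), abs_zero]
  · have h0' : c 0 < m := lt_of_not_ge h0
    rcases S.typ m hm with ⟨j, hj, hjm, ha⟩ | hβ
    · have hrecm : ∀ k, M k ≤ m → w S c y k m = w S c y k j := by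
        intro k hk
        rw [w_rec H hk, ha, ev_single_one]
      rcases ih j hjm hj with hα | ⟨k₁, hE, hk₁, hs⟩
      · by_cases hex : ∃ k, c k < j ∧ j < M k
        · obtain ⟨k₁, hk1, hk2⟩ := hex
          right
          refine ⟨k₁, E_pure H hm hjm ha h0' (E_win H hj hk1 hk2), hk1.trans hjm, ?_⟩
          refine le_trans (le_of_eq ?_) (hα k₁)
          rw [Finset.filter_true_of_mem]
          · refine Finset.sum_congr rfl fun k hk => ?_
            have : M k ≤ c k₁ := H.M_le (Finset.mem_range.1 hk)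
            rw [hrecm k (by omega)]
          · intro k hk
            have : M k ≤ c k₁ := H.M_le (Finset.mem_range.1 hk)
            omega
        · left
          intro L
          refine le_trans (le_of_eq ?_) (hα L)
          rw [Finset.sum_filter, Finset.sum_filter]
          refine Finset.sum_congr rfl fun k _ => ?_
          by_cases h1 : M k ≤ j
          · rw [if_pos (h1.trans hjm.le), if_pos h1, hrecm k (h1.trans hjm.le)]
          · have h2 : j ≤ c k := by
              by_contra h3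
              exact hex ⟨k, lt_of_not_ge h3, lt_of_not_ge h1⟩
            rw [if_neg h1]
            split_ifs with h3
            · rw [hrecm k h3, w_le H h2, abs_zero]
            · rfl
      · right
        refine ⟨k₁, E_pure H hm hjm ha h0' hE, hk₁.trans hjm, ?_⟩
        refine le_trans (le_of_eq ?_) hs
        refine Finset.sum_congr rfl fun k hk => ?_
        have : M k ≤ c k₁ := H.M_le (Finset.mem_range.1 hk)
        rw [hrecm k (by omega)]
    · left
      intro L
      have h1 : ∀ k ∈ (Finset.range L).filter (fun k => M k ≤ m), |w S c y k m| ≤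
          ∑ j ∈ (S.a m).support, |S.a m j| * |w S c y k j| := by
        intro k hk
        rw [w_rec H (Finset.mem_filter.1 hk).2]
        unfold ev Finsupp.sum
        refine (Finset.abs_sum_le_sum_abs _ _).trans (le_of_eq ?_)
        refine Finset.sum_congr rfl fun j _ => abs_mul _ _
      refine (Finset.sum_le_sum h1).trans ?_
      rw [Finset.sum_comm]
      have h2 : ∀ j ∈ (S.a m).support,
          ∑ k ∈ (Finset.range L).filter (fun k => M k ≤ m), |S.a m j| * |w S c y k j| ≤
          9 / 2 * Set.indicator {j | ¬ S.C j} (fun j => |S.a m j|) j +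
          Set.indicator {j | S.C j} (fun j => |S.a m j|) j := by
        intro j hj
        rw [← Finset.mul_sum]
        have h3 : ∑ k ∈ (Finset.range L).filter (fun k => M k ≤ m), |w S c y k j| ≤
            ∑ k ∈ Finset.range L, |w S c y k j| :=
          Finset.sum_le_sum_of_subset_of_nonneg (Finset.filter_subset _ _)
            fun _ _ _ => abs_nonneg _
        by_cases hCj : S.C j
        · rw [Set.indicator_of_mem (show j ∈ {j | S.C j} from hCj),
            Set.indicator_of_notMem (show j ∉ {j | ¬ S.C j} from fun h => h hCj)]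
          have h4 := sum_C H hCj L
          nlinarith [abs_nonneg (S.a m j)]
        · rw [Set.indicator_of_notMem (show j ∉ {j | S.C j} from hCj),
            Set.indicator_of_mem (show j ∈ {j | ¬ S.C j} from hCj)]
          have h4 := total H (ih j (S.a_supp m j hj) hCj) L
          nlinarith [abs_nonneg (S.a m j)]
      refine (Finset.sum_le_sum h2).trans ?_
      rw [Finset.sum_add_distrib, ← Finset.mul_sum]
      have h5 := sum_C_le S hm
      have h6 : ∑ j ∈ (S.a m).support, Set.indicator {j | ¬ S.C j} (fun j => |S.a m j|) j ≤ 1 / 4 :=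
        hβ
      linarith

end KboundAux

theorem Kbound (S : Sys) (c M : ℕ → ℕ) (y : ℕ → ℕ → ℝ) (hC : ∀ k, S.C (c k))
    (hcM : ∀ k, c k < M k) (hMc : ∀ k, M k ≤ c (k + 1))
    (hpar : ∀ k, S.par (c (k + 1)) = Cl.node (c k) true)
    (hy : ∀ k, y k ∈ S.F (c k)) (hyM : ∀ k, y k ∈ S.Vn (M k))
    (hwin : ∀ k j, c k < j → j < M k → ¬ S.C j → |S.v (c (k + 1)) j| = 1)
    (hrec : ∀ k j, M k ≤ j → j < c (k + 1) → S.v (c (k + 1)) j = ev (S.a j) (S.v (c (k + 1)))) :
    ∀ m L, ∑ k ∈ Finset.range L, |y k m - S.cv (c k) m| ≤ 9 / 2 := by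
  intro m L
  have H : KboundAux.KH S c M y := ⟨hC, hcM, hMc, hpar, hy, hyM, hwin, hrec⟩
  by_cases hm : S.C m
  · exact (KboundAux.sum_C H hm L).trans (by norm_num)
  · exact KboundAux.total H (KboundAux.main H m hm) L

end Pool.Agent.MP_235f01_an
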