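import Pool.Agent.MP_235f01_an.Path
import Pool.Agent.MP_235f01_an.ModelBasic
import Pool.Agent.MP_235f01_an.Kbound

/-!
# Every functional is almost attained on a cluster face
-/

set_option autoImplicit false

namespace Pool.Agent.MP_235f01_an

variable {X : Type} [NormedAddCommGroup X] [NormedSpace ℝ X]

namespace CoreAux

open PathAux

theorem F_sub_V (S : Sys) {c : ℕ} {x : ℕ → ℝ} (hx : x ∈ S.F c) : x ∈ S.V :=
  B_sub_V S (F_sub_B S hx)

theorem hB_le (S : Sys) (M : Model S X) (h : X →L[ℝ] ℝ) (hh : ‖h‖ = 1) {x : ℕ → ℝ}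
    (hx : x ∈ S.B) : h (M.ι x) ≤ 1 := by
  have h1 := h.le_opNorm (M.ι x)
  have h2 := M.ball_le x hx
  rw [hh, one_mul] at h1
  exact (le_abs_self _).trans (h1.trans h2)

/-- a point of a box on which `h` is almost one -/
theorem exists_box_point (S : Sys) (M : Model S X) (h : X →L[ℝ] ℝ) (hh : ‖h‖ = 1) {ε : ℝ}
    (hε : 0 < ε) : ∃ e, S.IsCl e ∧ ∃ x ∈ S.box e, x ∈ S.V ∧ 1 - ε < h (M.ι x) := by
  -- a point of the ball of `X`
  obtain ⟨y, hy, hhy⟩ : ∃ y : X, ‖y‖ ≤ 1 ∧ 1 - ε / 2 < h y := by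
    have h1 : 1 - ε / 2 < ‖h‖ := by rw [hh]; linarith
    by_cases h0 : 0 ≤ 1 - ε / 2
    · obtain ⟨y, hy, hy'⟩ := h.exists_lt_apply_of_lt_opNorm h1
      rw [Real.norm_eq_abs] at hy'
      rcases le_or_gt 0 (h y) with h2 | h2
      · rw [abs_of_nonneg h2] at hy'
        exact ⟨y, hy.le, hy'⟩
      · rw [abs_of_neg h2] at hy'
        exact ⟨-y, by rw [norm_neg]; exact hy.le, by rw [map_neg]; exact hy'⟩
    · exact ⟨0, by simp, by rw [map_zero]; push Not at h0; exact h0⟩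
  obtain ⟨x, hxB, -, hx⟩ := model_approx S M hy (by linarith : (0 : ℝ) < ε / 2)
  have hx1 : 1 - ε < h (M.ι x) := by
    have h1 := h.le_opNorm (M.ι x - y)
    rw [hh, one_mul, map_sub] at h1
    have h2 := neg_abs_le (h (M.ι x) - h y)
    rw [← Real.norm_eq_abs] at h2
    linarith
  by_contra hcon
  push Not at hcon
  have hsub : S.B ⊆ {x | h (M.ι x) ≤ 1 - ε} := by
    apply convexHull_min
    · intro z hz
      simp only [Set.mem_iUnion] at hz
      obtain ⟨e, he, hz⟩ := hz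
      exact hcon e he z hz.1 hz.2
    · intro u hu v hv a b ha hb hab
      simp only [Set.mem_ofPred_eq] at hu hv ⊢
      rw [map_add, map_smul, map_smul, map_add, map_smul, map_smul, smul_eq_mul, smul_eq_mul]
      have e1 : a * h (M.ι u) ≤ a * (1 - ε) := mul_le_mul_of_nonneg_left hu ha
      have e2 : b * h (M.ι v) ≤ b * (1 - ε) := mul_le_mul_of_nonneg_left hv hb
      calc _ ≤ a * (1 - ε) + b * (1 - ε) := add_le_add e1 e2
        _ = (a + b) * (1 - ε) := by ring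
        _ = _ := by rw [hab, one_mul]
  exact absurd (hsub hxB) (not_le.2 hx1)

/-- perturbation of a number to a rational in an open interval -/
theorem exists_rat {l u x η : ℝ} (hlu : l < u) (h1 : l ≤ x) (h2 : x ≤ u) (hη : 0 < η) :
    ∃ q : ℚ, l < q ∧ (q : ℝ) < u ∧ |(q : ℝ) - x| ≤ η := by
  have h3 : max l (x - η) < min u (x + η) := by
    rw [max_lt_iff]
    constructor
    · exact lt_min hlu (by linarith)
    · exact lt_min (by linarith) (by linarith)
  obtain ⟨q, hq1, hq2⟩ := exists_rat_btwn h3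
  refine ⟨q, (le_max_left _ _).trans_lt hq1, hq2.trans_le (min_le_left _ _), ?_⟩
  rw [abs_le]
  constructor
  · have := (le_max_right l (x - η)).trans_lt hq1
    linarith
  · have := hq2.trans_le (min_le_right u (x + η))
    linarith

/-- small elements of `Vn n` have small norm -/
theorem norm_small (S : Sys) (M : Model S X) {n : ℕ} {d : ℕ → ℝ} (hd : d ∈ S.Vn n) {η : ℝ}
    (hη : 0 < η) (h : ∀ k < n, |d k| ≤ η) : ‖M.ι d‖ ≤ 8 / 7 * η := by
  have h1 : (7 / (8 * η)) • d ∈ S.B := by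
    apply root_ball_n S ((S.Vn n).smul_mem _ hd)
    intro k hk
    rw [Pi.smul_apply, smul_eq_mul, abs_mul, abs_of_pos (by positivity)]
    calc 7 / (8 * η) * |d k| ≤ 7 / (8 * η) * η := mul_le_mul_of_nonneg_left (h k hk) (by positivity)
      _ = 7 / 8 := by field_simp
  have h2 := M.ball_le _ h1
  rw [map_smul, norm_smul, Real.norm_eq_abs, abs_of_pos (by positivity)] at h2
  calc ‖M.ι d‖ = 8 / 7 * η * (7 / (8 * η) * ‖M.ι d‖) := by field_simp
    _ ≤ 8 / 7 * η * 1 := mul_le_mul_of_nonneg_left h2 (by positivity)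
    _ = _ := by ring

/-- the tip of a new cluster -/
theorem cv_eq (S : Sys) {n c : ℕ} {x : ℕ → ℝ} (hx : x ∈ S.Vn n) (hnc : n ≤ c) (hc : S.C c)
    (h1 : ∀ j < n, S.v c j = x j) (h2 : ∀ j, n ≤ j → j < c → S.v c j = ev (S.a j) (S.v c)) :
    S.cv c = x + S.bump c := by
  -- `v c` agrees with `x` below `c`
  have h3 : ∀ j < c, S.v c j = x j := by
    intro j
    induction j using Nat.strong_induction_on with
    | _ j ih =>
      intro hj
      by_cases hjn : j < n
      · exact h1 j hjn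
      · rw [h2 j (by omega) hj, hx j (by omega)]
        apply ev_congr
        intro i hi
        have := S.a_supp j i hi
        exact ih i this (by omega)
  apply Vn_unique S (cv_mem S c) ((S.Vn (c + 1)).add_mem (Vn_mono S (by omega) hx) (bump_mem S c))
  intro k hk
  rcases Nat.lt_succ_iff_lt_or_eq.1 hk with h4 | h4
  · rw [cv_lt S h4, Pi.add_apply, bump_lt S h4, add_zero, h3 k h4]
  · subst h4
    rw [cv_self, Pi.add_apply, bump_self, Vn_C S hx hnc hc, zero_add]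

/-- strict inequalities at cluster coordinates -/
theorem C_interval (S : Sys) {e : Cl} (he : S.IsCl e) {k : ℕ} (hk : S.C k)
    (hlev : e.lev ≤ k) : S.l e k < 0 ∧ 0 < S.u e k := by
  have h1 := S.τ_le k hk
  constructor
  · by_cases h : S.le (Cl.node k false) e
    · rw [S.l_C1 e k he hlev hk h]; linarith
    · rw [S.l_C2 e k he hlev hk h]; norm_num
  · by_cases h : S.le (Cl.node k true) e
    · rw [S.u_C1 e k he hlev hk h]; linarith
    · rw [S.u_C2 e k he hlev hk h]; norm_num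

/-- the starting cluster -/
theorem start (S : Sys) (M : Model S X) (h : X →L[ℝ] ℝ) (hh : ‖h‖ = 1) {ε : ℝ}
    (hε : 0 < ε) : ∃ c, S.C c ∧ 1 - ε < h (M.ι (S.cv c)) := by
  obtain ⟨e, he, x, hxe, hxV, hx⟩ := exists_box_point S M h hh (by linarith : (0 : ℝ) < ε / 4)
  obtain ⟨n₀, hn₀⟩ := hxV
  set n := max n₀ e.lev with hn
  have hxn : x ∈ S.Vn n := Vn_mono S (le_max_left _ _) hn₀
  have hη : 0 < ε / 8 := by linarith
  -- the perturbed coordinates
  have hex : ∀ j, ∃ r : ℝ, (S.l e j ≤ r ∧ r ≤ S.u e j) ∧ |r - x j| ≤ ε / 8 ∧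
      (S.l e j ≠ S.u e j → (S.l e j < r ∧ r < S.u e j) ∧ ∃ q : ℚ, r = q) := by
    intro j
    by_cases hj : S.l e j = S.u e j
    · exact ⟨x j, hxe j, by simp [hη.le], fun h => absurd hj h⟩
    · have hlt : S.l e j < S.u e j := lt_of_le_of_ne (lu_le S he j) hj
      obtain ⟨q, q1, q2, q3⟩ := exists_rat hlt (hxe j).1 (hxe j).2 hη
      exact ⟨q, ⟨q1.le, q2.le⟩, q3, fun _ => ⟨⟨q1, q2⟩, q, rfl⟩⟩
  choose r hr1 hr2 hr3 using hex
  set x' := S.ext n r with hx'
  have hx'V : x' ∈ S.Vn n := ext_mem S n r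
  have hx'lt : ∀ j < n, x' j = r j := fun j hj => ext_lt S hj r
  have hdiff : ‖M.ι (x' - x)‖ ≤ 8 / 7 * (ε / 8) := by
    apply norm_small S M ((S.Vn n).sub_mem hx'V hxn) hη
    intro k hk
    rw [Pi.sub_apply, hx'lt k hk]
    exact hr2 k
  have hhx' : 1 - ε / 2 < h (M.ι x') := by
    have h1 := h.le_opNorm (M.ι (x' - x))
    rw [hh, one_mul, map_sub, map_sub] at h1
    have h2 := neg_abs_le (h (M.ι x') - h (M.ι x))
    rw [← Real.norm_eq_abs] at h2
    rw [map_sub] at hdiff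
    linarith
  obtain ⟨N, hN⟩ := model_cbump S M h hh.le (by linarith : (0 : ℝ) < ε / 2)
  obtain ⟨c, hc1, hc2, hc3, hc4, hc5, hc6⟩ := S.cluster e he n (le_max_right _ _) x'
    (fun j hj => by rw [hx'lt j hj]; exact hr1 j)
    (fun j hj hCj hlj => by
      rw [hx'lt j hj]
      have := C_interval S he hCj hlj
      exact (hr3 j (by linarith)).1)
    (fun j hj hne => by rw [hx'lt j hj]; exact (hr3 j hne).2) N
  refine ⟨c, hc3, ?_⟩
  rw [cv_eq S hx'V hc2 hc3 hc5 hc6, map_add, map_add]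
  have := neg_abs_le (h (M.ι (S.bump c)))
  have := hN c hc1 hc3
  linarith

/-- one step of the construction -/
theorem step (S : Sys) (M : Model S X) (h : X →L[ℝ] ℝ) (hh : ‖h‖ = 1) {δ ε : ℝ}
    (hε : 0 < ε) (hcon : ∀ c, S.C c → ∃ y ∈ S.F c, h (M.ι y) ≤ 1 - δ) (c : ℕ) (hc : S.C c) :
    ∃ (c' m : ℕ) (y : ℕ → ℝ), S.C c' ∧ c < m ∧ m ≤ c' ∧ S.par c' = Cl.node c true ∧
      y ∈ S.F c ∧ y ∈ S.Vn m ∧ h (M.ι y) ≤ 1 - δ ∧
      (∀ j, c < j → j < m → ¬ S.C j → |S.v c' j| = 1) ∧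
      (∀ j, m ≤ j → j < c' → S.v c' j = ev (S.a j) (S.v c')) ∧
      h (M.ι (S.cv c)) - ε ≤ h (M.ι (S.cv c')) := by
  obtain ⟨y, hyF, hy⟩ := hcon c hc
  obtain ⟨n₀, hn₀⟩ := F_sub_V S hyF
  set m := max n₀ (c + 1) with hm
  have hcm : c < m := by
    have := le_max_right n₀ (c + 1)
    omega
  have hym : y ∈ S.Vn m := Vn_mono S (le_max_left _ _) hn₀
  obtain ⟨p, hp, hpV, hpc, hp0, hp1, hph⟩ := path_point S M h hc hcm
  obtain ⟨N, hN⟩ := model_cbump S M h hh.le hε
  have he : S.IsCl (Cl.node c true) := hc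
  obtain ⟨c', hc1, hc2, hc3, hc4, hc5, hc6⟩ := S.cluster (Cl.node c true) he m
    (by rw [lev_node]; omega) p (fun j _ => hp j)
    (fun j hj hCj hlj => by
      rw [lev_node] at hlj
      rw [hp0 j (by omega) hj hCj]
      exact C_interval S he hCj (by rw [lev_node]; omega))
    (fun j hj hne => by
      by_cases hjc : j < c
      · exfalso
        apply hne
        rw [S.l_lt c true j hc hjc, S.u_lt c true j hc hjc]
      · by_cases hjc' : j = c
        · exfalso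
          apply hne
          rw [hjc', S.l_eq c true hc, S.u_eq c true hc]
        · by_cases hCj : S.C j
          · exact ⟨0, by rw [hp0 j (by omega) hj hCj]; simp⟩
          · rcases hp1 j (by omega) hj hCj with h1 | h1
            · exact ⟨1, by rw [h1]; simp⟩
            · exact ⟨-1, by rw [h1]; simp⟩) N
  refine ⟨c', m, y, hc3, hcm, hc2, hc4, hyF, hym, hy, ?_, hc6, ?_⟩
  · intro j h1 h2 h3
    rw [hc5 j h2]
    rcases hp1 j h1 h2 h3 with h4 | h4 <;> rw [h4] <;> simp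
  · rw [cv_eq S hpV hc2 hc3 hc5 hc6, map_add, map_add]
    have := neg_abs_le (h (M.ι (S.bump c')))
    have := hN c' hc1 hc3
    linarith

end CoreAux

open CoreAux PathAux in
theorem scd_core (S : Sys) (M : Model S X) (h : X →L[ℝ] ℝ) (hh : ‖h‖ = 1) {δ : ℝ} (hδ : 0 < δ) :
    ∃ c, S.C c ∧ ∀ y ∈ S.F c, 1 - δ < h (M.ι y) := by
  by_contra hcon
  push Not at hcon
  have hε : 0 < δ / 8 := by linarith
  obtain ⟨c₀, hc₀, hc₀h⟩ := start S M h hh hε
  have hstep : ∀ (k : ℕ) (c : {c // S.C c}), ∃ (c' : {c // S.C c}) (m : ℕ) (y : ℕ → ℝ),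
      c.1 < m ∧ m ≤ c'.1 ∧ S.par c'.1 = Cl.node c.1 true ∧
      y ∈ S.F c.1 ∧ y ∈ S.Vn m ∧ h (M.ι y) ≤ 1 - δ ∧
      (∀ j, c.1 < j → j < m → ¬ S.C j → |S.v c'.1 j| = 1) ∧
      (∀ j, m ≤ j → j < c'.1 → S.v c'.1 j = ev (S.a j) (S.v c'.1)) ∧
      h (M.ι (S.cv c.1)) - δ / 8 * (1 / 2) ^ k ≤ h (M.ι (S.cv c'.1)) := by
    intro k c
    obtain ⟨c', m, y, g1, g2⟩ := step S M h hh (by positivity : 0 < δ / 8 * (1 / 2) ^ k) hcon c.1 c.2
    exact ⟨⟨c', g1⟩, m, y, g2⟩
  choose nx mm yy h1 h2 h3 h4 h5 h6 h7 h8 h9 using hstep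
  let cs : ℕ → {c // S.C c} := fun k => Nat.rec ⟨c₀, hc₀⟩ (fun k c => nx k c) k
  have hcs0 : cs 0 = ⟨c₀, hc₀⟩ := rfl
  have hcs : ∀ k, cs (k + 1) = nx k (cs k) := fun k => rfl
  have hK := Kbound S (fun k => (cs k).1) (fun k => mm k (cs k)) (fun k => yy k (cs k))
    (fun k => (cs k).2) (fun k => h1 k (cs k)) (fun k => by rw [hcs]; exact h2 k (cs k))
    (fun k => by rw [hcs]; exact h3 k (cs k)) (fun k => h4 k (cs k)) (fun k => h5 k (cs k))
    (fun k => by rw [hcs]; exact h7 k (cs k)) (fun k => by rw [hcs]; exact h8 k (cs k))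
  -- values at the tips
  have hval : ∀ k, 1 - δ / 8 - δ / 8 * (2 - 2 * (1 / 2) ^ k) ≤ h (M.ι (S.cv (cs k).1)) := by
    intro k
    induction k with
    | zero =>
      rw [hcs0, pow_zero]
      linarith
    | succ k ih =>
      have := h9 k (cs k)
      rw [← hcs] at this
      rw [pow_succ]
      linarith
  have hval' : ∀ k, 1 - δ / 2 ≤ h (M.ι (S.cv (cs k).1)) := by
    intro k
    have h10 := hval k
    have h11 : (0 : ℝ) < (1 / 2) ^ k := by positivity
    nlinarith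
  -- the contradiction
  obtain ⟨L, hL⟩ := exists_nat_gt (8 / 7 * (9 / 2) / (δ / 2))
  set w : ℕ → ℝ := ∑ k ∈ Finset.range L, (yy k (cs k) - S.cv (cs k).1) with hw
  have hwV : w ∈ S.V := by
    apply S.V.sum_mem
    intro k _
    apply S.V.sub_mem
    · exact Vn_le_V S _ (h5 k (cs k))
    · exact Vn_le_V S _ (cv_mem S _)
  have hwn : ‖M.ι w‖ ≤ 8 / 7 * (9 / 2) := by
    apply model_norm_le S M hwV (by norm_num)
    intro m
    rw [hw, Finset.sum_apply]
    refine (Finset.abs_sum_le_sum_abs _ _).trans ?_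
    exact hK m L
  have hwh : h (M.ι w) ≤ -(L * (δ / 2)) := by
    rw [hw, map_sum, map_sum]
    calc _ ≤ ∑ k ∈ Finset.range L, (-(δ / 2)) := by
          apply Finset.sum_le_sum
          intro k _
          rw [map_sub, map_sub]
          have := h6 k (cs k)
          have := hval' k
          linarith
      _ = _ := by rw [Finset.sum_const, Finset.card_range, nsmul_eq_mul]; ring
  have h10 := h.le_opNorm (M.ι w)
  rw [hh, one_mul, Real.norm_eq_abs] at h10
  have h11 := neg_abs_le (h (M.ι w))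
  rw [div_lt_iff₀ (by linarith)] at hL
  linarith

end Pool.Agent.MP_235f01_an
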