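import Mathlib

set_option autoImplicit false

namespace Pool.Agent.MP_235f01_an

/-- Cluster names: the root, or `node c s` for a coordinate `c` and a sign `s`. -/
inductive Cl where
  | root : Cl
  | node (c : ℕ) (s : Bool) : Cl
deriving DecidableEq

/-- The opposite cluster name. -/
def Cl.neg : Cl → Cl
  | Cl.root => Cl.root
  | Cl.node c s => Cl.node c (!s)

/-- `lev root = 0` and `lev (node c s) = c + 1`. -/
def Cl.lev : Cl → ℕ
  | Cl.root => 0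
  | Cl.node c _ => c + 1

/-- The sign as a real number. -/
def sg (s : Bool) : ℝ := if s then 1 else -1

/-- Evaluation of the finitely supported functional `g` at `x`. -/
noncomputable def ev (g : ℕ →₀ ℝ) (x : ℕ → ℝ) : ℝ := g.sum fun j r => r * x j

/-- Raw data of a box system. -/
structure Raw where
  /-- the cluster coordinates; the others are the birth coordinates -/
  C : ℕ → Prop
  /-- the birth functionals -/
  a : ℕ → (ℕ →₀ ℝ)
  /-- the parent of `node c true` -/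
  par : ℕ → Cl
  /-- the centre of `node c true` -/
  v : ℕ → ℕ → ℝ
  τ : ℕ → ℝ
  κ : ℕ → ℝ
  /-- lower bounds -/
  l : Cl → ℕ → ℝ
  /-- upper bounds -/
  u : Cl → ℕ → ℝ

namespace Raw

variable (S : Raw)

/-- The parent of a cluster. -/
def parent : Cl → Cl
  | Cl.root => Cl.root
  | Cl.node c true => S.par c
  | Cl.node c false => (S.par c).neg

/-- The actual clusters. -/
def IsCl : Cl → Prop
  | Cl.root => True
  | Cl.node c _ => S.C c

/-- `S.le e p` says that `p` is `e` or an ancestor of `e`. -/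
inductive le : Cl → Cl → Prop
  | refl (e : Cl) : le e e
  | step (c : ℕ) (s : Bool) (p : Cl) : le (S.parent (Cl.node c s)) p → le (Cl.node c s) p

/-- The functional `g` is constant, equal to `ε`, on the box of `e`. -/
def Locked (g : ℕ →₀ ℝ) (e : Cl) (ε : ℝ) : Prop :=
  (∀ j ∈ g.support, S.l e j = S.u e j) ∧ ev g (S.l e) = ε

/-- The box of the cluster `e`. -/
def box (e : Cl) : Set (ℕ → ℝ) := {x | ∀ k, S.l e k ≤ x k ∧ x k ≤ S.u e k}

/-- The sum of the absolute values of the coefficients of `g` at the birth coordinates. -/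
noncomputable def beta (g : ℕ →₀ ℝ) : ℝ :=
  ∑ j ∈ g.support, Set.indicator {j | ¬ S.C j} (fun j => |g j|) j

/-- Sequences following the recursion from `n` on. -/
def Vn (n : ℕ) : Submodule ℝ (ℕ → ℝ) where
  carrier := {x | ∀ k, n ≤ k → x k = ev (S.a k) x}
  add_mem' := by
    intro x y hx hy k hk
    simp only [Set.mem_setOf_eq] at hx hy
    rw [Pi.add_apply, hx k hk, hy k hk]
    simp [ev, Finsupp.sum, mul_add, Finset.sum_add_distrib]
  zero_mem' := by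
    intro k hk
    simp [ev, Finsupp.sum]
  smul_mem' := by
    intro c x hx k hk
    simp only [Set.mem_setOf_eq] at hx
    rw [Pi.smul_apply, hx k hk]
    simp only [ev, Finsupp.sum, smul_eq_mul, Pi.smul_apply, Finset.mul_sum]
    refine Finset.sum_congr rfl fun j _ => ?_
    ring

/-- Sequences following the recursion eventually. -/
def V : Submodule ℝ (ℕ → ℝ) where
  carrier := {x | ∃ n, x ∈ S.Vn n}
  add_mem' := by
    rintro x y ⟨n, hn⟩ ⟨m, hm⟩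
    refine ⟨max n m, (S.Vn (max n m)).add_mem ?_ ?_⟩
    · intro k hk
      exact hn k (le_trans (le_max_left _ _) hk)
    · intro k hk
      exact hm k (le_trans (le_max_right _ _) hk)
  zero_mem' := ⟨0, (S.Vn 0).zero_mem⟩
  smul_mem' := by
    rintro c x ⟨n, hn⟩
    exact ⟨n, (S.Vn n).smul_mem c hn⟩

/-- The unit ball. -/
def B : Set (ℕ → ℝ) := convexHull ℝ (⋃ e ∈ {e | S.IsCl e}, S.box e ∩ (S.V : Set (ℕ → ℝ)))

/-- The face of the cluster `node c true`. -/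
def F (c : ℕ) : Set (ℕ → ℝ) :=
  convexHull ℝ (⋃ e ∈ {e | S.IsCl e ∧ S.le e (Cl.node c true)}, S.box e ∩ (S.V : Set (ℕ → ℝ)))

/-- The member of `Vn n` with prescribed coordinates below `n`. -/
noncomputable def ext (n : ℕ) (x : ℕ → ℝ) (k : ℕ) : ℝ :=
  if k < n then x k else ∑ j : Fin k, S.a k j * ext n x j
termination_by k
decreasing_by exact j.2

/-- The bump vector of the coordinate `m`. -/
noncomputable def bump (m : ℕ) : ℕ → ℝ := S.ext (m + 1) (Pi.single m 1)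

/-- The tip of the cluster `node c true`. -/
noncomputable def cv (c : ℕ) : ℕ → ℝ := S.ext (c + 1) (fun j => if j < c then S.v c j else 1)

end Raw

/-- A box system. -/
structure Sys extends Raw where
  a_supp : ∀ k, ∀ j ∈ (a k).support, j < k
  a_C : ∀ k, C k → a k = 0
  par_cl : ∀ c, C c → toRaw.IsCl (par c)
  par_lev : ∀ c, C c → (par c).lev ≤ c
  l_lt : ∀ c s j, C c → j < c → l (Cl.node c s) j = sg s * v c j
  u_lt : ∀ c s j, C c → j < c → u (Cl.node c s) j = sg s * v c j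
  l_eq : ∀ c s, C c → l (Cl.node c s) c = sg s
  u_eq : ∀ c s, C c → u (Cl.node c s) c = sg s
  u_C1 : ∀ e k, toRaw.IsCl e → e.lev ≤ k → C k → toRaw.le (Cl.node k true) e → u e k = 1 - τ k
  u_C2 : ∀ e k, toRaw.IsCl e → e.lev ≤ k → C k → ¬ toRaw.le (Cl.node k true) e → u e k = 1 / 2
  l_C1 : ∀ e k, toRaw.IsCl e → e.lev ≤ k → C k → toRaw.le (Cl.node k false) e →
    l e k = -(1 - τ k)
  l_C2 : ∀ e k, toRaw.IsCl e → e.lev ≤ k → C k → ¬ toRaw.le (Cl.node k false) e →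
    l e k = -(1 / 2)
  lock : ∀ e k, toRaw.IsCl e → e.lev ≤ k → ¬ C k → ∀ ε : ℝ, (ε = 1 ∨ ε = -1) →
    toRaw.Locked (a k) e ε → l e k = ε ∧ u e k = ε
  free : ∀ e k, toRaw.IsCl e → e.lev ≤ k → ¬ C k → ¬ toRaw.Locked (a k) e 1 →
    ¬ toRaw.Locked (a k) e (-1) → l e k = -1 ∧ u e k = 1
  center : ∀ c j, C c → j < c → l (par c) j ≤ v c j ∧ v c j ≤ u (par c) j
  center_strict : ∀ c j, C c → j < c → C j → (par c).lev ≤ j →
    l (par c) j < v c j ∧ v c j < u (par c) j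
  a6 : ∀ k, ¬ C k → ∀ e, toRaw.IsCl e → e.lev ≤ k → ∀ x : ℕ → ℝ,
    (∀ j < k, l e j ≤ x j ∧ x j ≤ u e j) → |ev (a k) x| ≤ 1
  τ_pos : ∀ k, C k → 0 < τ k
  τ_le : ∀ k, C k → τ k ≤ 1 / 8
  T1 : ∀ c k j, C c → C k → C j → j < c → c ≤ k → v c j < 1 - τ j →
    4 * τ k * (1 - v c j) ≤ 1 - v c j - τ j
  T2 : ∀ c k j, C c → C k → C j → j < c → c ≤ k → -(1 - τ j) < v c j →
    4 * τ k * (1 + v c j) ≤ 1 + v c j - τ j
  κ_pos : ∀ c, C c → 0 < κ c
  κ_le_one : ∀ c, C c → κ c ≤ 1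
  κ_le : ∀ c i, C c → ¬ C i → i < c → |v c i| < 1 → κ c ≤ 1 - |v c i|
  τκ : ∀ c k, C c → C k → c ≤ k → τ k ≤ κ c / 2 ^ (c + 5)
  typ : ∀ k, ¬ C k → (∃ j, ¬ C j ∧ j < k ∧ a k = Finsupp.single j 1) ∨ toRaw.beta (a k) ≤ 1 / 4
  birth_pure : ∀ j, ¬ C j → ∀ N, ∃ k, N ≤ k ∧ ¬ C k ∧ a k = Finsupp.single j 1
  birth_g : ∀ (g : ℕ →₀ ℝ), (∀ j, ∃ q : ℚ, g j = q) →
    (∀ e, toRaw.IsCl e → ∀ x ∈ toRaw.box e, |ev g x| ≤ 1) → toRaw.beta g ≤ 1 / 4 →
    ∀ N, ∃ k, N ≤ k ∧ ¬ C k ∧ a k = g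
  cluster : ∀ e, toRaw.IsCl e → ∀ n, e.lev ≤ n → ∀ x : ℕ → ℝ,
    (∀ j < n, l e j ≤ x j ∧ x j ≤ u e j) →
    (∀ j < n, C j → e.lev ≤ j → l e j < x j ∧ x j < u e j) →
    (∀ j < n, l e j ≠ u e j → ∃ q : ℚ, x j = q) →
    ∀ N, ∃ c, N ≤ c ∧ n ≤ c ∧ C c ∧ par c = e ∧ (∀ j < n, v c j = x j) ∧
      ∀ j, n ≤ j → j < c → v c j = ev (a j) (v c)

/-- Realisation of the completion of `V` normed by the gauge of `B`. -/
structure Model (S : Sys) (X : Type) [NormedAddCommGroup X] [NormedSpace ℝ X] where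
  ι : (ℕ → ℝ) →ₗ[ℝ] X
  dense : Dense (ι '' (S.V : Set (ℕ → ℝ)))
  ball_le : ∀ x ∈ S.B, ‖ι x‖ ≤ 1
  lt_ball : ∀ x ∈ S.V, ‖ι x‖ < 1 → x ∈ S.B
  coord : ℕ → (X →L[ℝ] ℝ)
  coord_ι : ∀ m, ∀ x ∈ S.V, coord m (ι x) = x m

universe w

/-- The super alternative Daugavet property. -/
def SuperADP (X : Type w) [NormedAddCommGroup X] [NormedSpace ℝ X] : Prop :=
  ∀ x : X, ‖x‖ = 1 → ∀ U : Set (WeakSpace ℝ X), IsOpen U →
    {y : X | ‖y‖ ≤ 1 ∧ toWeakSpace ℝ X y ∈ U}.Nonempty →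
    IsLUB ((fun y : X => max ‖x + y‖ ‖x - y‖) '' {y : X | ‖y‖ ≤ 1 ∧ toWeakSpace ℝ X y ∈ U}) 2

/-- Slices. -/
def slice {X : Type w} [NormedAddCommGroup X] [NormedSpace ℝ X] (A : Set X) (f : X →L[ℝ] ℝ)
    (δ : ℝ) : Set X := {x | x ∈ A ∧ sSup (f '' A) - δ < f x}

/-- Slicely countably determined sets. -/
def IsSCD {X : Type w} [NormedAddCommGroup X] [NormedSpace ℝ X] (A : Set X) : Prop :=
  ∃ (f : ℕ → X →L[ℝ] ℝ) (δ : ℕ → ℝ), (∀ n, 0 < δ n) ∧
    ∀ (g : X →L[ℝ] ℝ) (ε : ℝ), 0 < ε → ∃ n, slice A (f n) (δ n) ⊆ slice A g ε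

end Pool.Agent.MP_235f01_an
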