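import Pool.Agent.MP_235f01_an.Defs

set_option autoImplicit false

namespace Pool.Agent.MP_235f01_an

namespace Construct

/-- Strong recursion. -/
noncomputable def srec {α : Type} (step : ℕ → (ℕ → α) → α) (d : α) (k : ℕ) : α :=
  step k (fun j => if _h : j < k then srec step d j else d)
termination_by k
decreasing_by exact _h

theorem srec_eq {α : Type} (step : ℕ → (ℕ → α) → α) (d : α) (k : ℕ) :
    srec step d k = step k (fun j => if j < k then srec step d j else d) := by
  rw [srec]
  congr 1

/-- The datum of one coordinate. -/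
structure Datum where
  isC : Prop
  a : ℕ →₀ ℝ
  p : Cl
  v : ℕ → ℝ
  τ : ℝ
  κ : ℝ

/-- The trivial datum. -/
def dum : Datum := ⟨False, 0, Cl.root, 0, 0, 0⟩

/-- Auxiliary raw data without bounds. -/
noncomputable def R0 (D : ℕ → Datum) : Raw where
  C := fun k => (D k).isC
  a := fun k => (D k).a
  par := fun c => if (D c).p.lev ≤ c then (D c).p else Cl.root
  v := fun c => (D c).v
  τ := fun k => (D k).τ
  κ := fun k => (D k).κ
  l := 0
  u := 0

theorem R0_par_lev (D : ℕ → Datum) (c : ℕ) : ((R0 D).par c).lev ≤ c := by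
  unfold R0
  dsimp only
  split_ifs with h
  · exact h
  · exact Nat.zero_le _

theorem lev_neg' (e : Cl) : e.neg.lev = e.lev := by
  cases e <;> rfl

theorem R0_parent_lev (D : ℕ → Datum) (c : ℕ) (s : Bool) :
    ((R0 D).parent (Cl.node c s)).lev ≤ c := by
  cases s
  · show ((R0 D).par c).neg.lev ≤ c
    rw [lev_neg']
    exact R0_par_lev D c
  · exact R0_par_lev D c

/-- The bounds rule beyond the index of the cluster, in terms of the datum. -/
noncomputable def rule' (d : Datum) (P Q : Prop) (f : ℕ → ℝ × ℝ) : ℝ × ℝ := by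
  classical exact
  if d.isC then (if P then -(1 - d.τ) else -(1 / 2), if Q then 1 - d.τ else 1 / 2)
  else if (∀ j ∈ d.a.support, (f j).1 = (f j).2) ∧ ev d.a (fun j => (f j).1) = 1 then (1, 1)
  else if (∀ j ∈ d.a.support, (f j).1 = (f j).2) ∧ ev d.a (fun j => (f j).1) = -1 then
    (-1, -1)
  else (-1, 1)

/-- The bounds rule beyond the index of the cluster. -/
noncomputable def rule (D : ℕ → Datum) (e : Cl) (k : ℕ) (f : ℕ → ℝ × ℝ) : ℝ × ℝ :=
  rule' (D k) ((R0 D).le (Cl.node k false) e) ((R0 D).le (Cl.node k true) e) f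

/-- The step for the bounds. -/
noncomputable def lustep (D : ℕ → Datum) (e : Cl) (k : ℕ) (f : ℕ → ℝ × ℝ) : ℝ × ℝ :=
  match e with
  | Cl.root => rule D Cl.root k f
  | Cl.node c s => if k < c then (sg s * (D c).v k, sg s * (D c).v k)
      else if k = c then (sg s, sg s) else rule D (Cl.node c s) k f

/-- Lower and upper bounds. -/
noncomputable def LU (D : ℕ → Datum) (e : Cl) : ℕ → ℝ × ℝ := srec (lustep D e) (0, 0)

theorem LU_eq (D : ℕ → Datum) (e : Cl) (k : ℕ) :
    LU D e k = lustep D e k (fun j => if j < k then LU D e j else (0, 0)) :=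
  srec_eq _ _ k

/-- The raw system of a sequence of data. -/
noncomputable def SD (D : ℕ → Datum) : Raw where
  C := fun k => (D k).isC
  a := fun k => (D k).a
  par := fun c => if (D c).p.lev ≤ c then (D c).p else Cl.root
  v := fun c => (D c).v
  τ := fun k => (D k).τ
  κ := fun k => (D k).κ
  l := fun e k => (LU D e k).1
  u := fun e k => (LU D e k).2

theorem parent_congr {S S' : Raw} {c : ℕ} (h : S.par c = S'.par c) (s : Bool) :
    S.parent (Cl.node c s) = S'.parent (Cl.node c s) := by
  cases s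
  · show (S.par c).neg = (S'.par c).neg
    rw [h]
  · exact h

theorem le_of_par_eq {S S' : Raw} (h : S.par = S'.par) {e p : Cl} (hle : S.le e p) : S'.le e p := by
  induction hle with
  | refl e => exact Raw.le.refl e
  | step c s p _ ih =>
    refine Raw.le.step c s p ?_
    rw [← parent_congr (congrFun h c) s]
    exact ih

theorem le_SD_iff (D : ℕ → Datum) (e p : Cl) : (SD D).le e p ↔ (R0 D).le e p :=
  ⟨fun h => le_of_par_eq (S := SD D) (S' := R0 D) rfl h,
    fun h => le_of_par_eq (S := R0 D) (S' := SD D) rfl h⟩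

/-- Locality of the order. -/
theorem le_local {D D' : ℕ → Datum} {m : ℕ} (h : ∀ j < m, D j = D' j) {e p : Cl}
    (hle : (R0 D).le e p) (he : e.lev ≤ m) : (R0 D').le e p := by
  induction hle with
  | refl e => exact Raw.le.refl e
  | step c s p _ ih =>
    have hc : c < m := he
    refine Raw.le.step c s p ?_
    have h1 : (R0 D).par c = (R0 D').par c := by
      unfold R0
      dsimp only
      rw [h c hc]
    rw [← parent_congr h1 s]
    exact ih (le_trans (R0_parent_lev D c s) (Nat.le_of_lt hc))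

theorem le_local_iff {D D' : ℕ → Datum} {m : ℕ} (h : ∀ j < m, D j = D' j) {e p : Cl}
    (he : e.lev ≤ m) : (R0 D).le e p ↔ (R0 D').le e p :=
  ⟨fun hl => le_local h hl he, fun hl => le_local (fun j hj => (h j hj).symm) hl he⟩

theorem rule_local {D D' : ℕ → Datum} {m : ℕ} (h : ∀ j < m, D j = D' j) (e : Cl) {k : ℕ}
    (hk : k < m) (f : ℕ → ℝ × ℝ) : rule D e k f = rule D' e k f := by
  unfold rule
  have h1 : ∀ s, (R0 D).le (Cl.node k s) e = (R0 D').le (Cl.node k s) e := fun s =>
    propext (le_local_iff h (e := Cl.node k s) hk)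
  rw [h k hk, h1, h1]

/-- Locality of the bounds. -/
theorem LU_local {D D' : ℕ → Datum} {m : ℕ} (h : ∀ j < m, D j = D' j) {e : Cl}
    (he : e.lev ≤ m) {k : ℕ} (hk : k < m) : LU D e k = LU D' e k := by
  induction k using Nat.strong_induction_on with
  | _ k ih =>
    rw [LU_eq, LU_eq]
    have h2 : (fun j => if j < k then LU D e j else ((0 : ℝ), (0 : ℝ))) =
        (fun j => if j < k then LU D' e j else (0, 0)) := by
      funext j
      by_cases hj : j < k
      · rw [if_pos hj, if_pos hj, ih j hj (lt_trans hj hk)]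
      · rw [if_neg hj, if_neg hj]
    rw [h2]
    cases e with
    | root => exact rule_local h _ hk _
    | node c s =>
      have hc : c < m := he
      show (if k < c then (sg s * (D c).v k, sg s * (D c).v k)
        else if k = c then (sg s, sg s) else rule D (Cl.node c s) k _) = _
      rw [h c hc, rule_local h _ hk _]
      rfl

/-- Validity of the datum of index `k`. -/
structure Valid (D : ℕ → Datum) (k : ℕ) : Prop where
  supp : ∀ j ∈ (D k).a.support, j < k
  isC_a : (D k).isC → (D k).a = 0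
  cl : (D k).isC → (SD D).IsCl (D k).p
  lev : (D k).isC → (D k).p.lev ≤ k
  center : (D k).isC → ∀ j < k,
    (LU D (D k).p j).1 ≤ (D k).v j ∧ (D k).v j ≤ (LU D (D k).p j).2
  strict : (D k).isC → ∀ j < k, (D j).isC → (D k).p.lev ≤ j →
    (LU D (D k).p j).1 < (D k).v j ∧ (D k).v j < (LU D (D k).p j).2
  τpos : (D k).isC → 0 < (D k).τ
  τle : (D k).isC → (D k).τ ≤ 1 / 8
  T1 : (D k).isC → ∀ c < k + 1, (D c).isC → ∀ j < c, (D j).isC → (D c).v j < 1 - (D j).τ →
    4 * (D k).τ * (1 - (D c).v j) ≤ 1 - (D c).v j - (D j).τ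
  T2 : (D k).isC → ∀ c < k + 1, (D c).isC → ∀ j < c, (D j).isC → -(1 - (D j).τ) < (D c).v j →
    4 * (D k).τ * (1 + (D c).v j) ≤ 1 + (D c).v j - (D j).τ
  κpos : (D k).isC → 0 < (D k).κ
  κle1 : (D k).isC → (D k).κ ≤ 1
  κle : (D k).isC → ∀ i < k, ¬ (D i).isC → |(D k).v i| < 1 → (D k).κ ≤ 1 - |(D k).v i|
  τκ : (D k).isC → ∀ c < k + 1, (D c).isC → (D k).τ ≤ (D c).κ / 2 ^ (c + 5)
  a6 : ¬ (D k).isC → ∀ e, (SD D).IsCl e → e.lev ≤ k → ∀ x : ℕ → ℝ,
    (∀ j < k, (LU D e j).1 ≤ x j ∧ x j ≤ (LU D e j).2) → |ev (D k).a x| ≤ 1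
  typ : ¬ (D k).isC → (∃ j, ¬ (D j).isC ∧ j < k ∧ (D k).a = Finsupp.single j 1) ∨
    (SD D).beta (D k).a ≤ 1 / 4

theorem isCl_local {D D' : ℕ → Datum} {m : ℕ} (h : ∀ j < m, D j = D' j) {e : Cl}
    (he : e.lev ≤ m) (hc : (SD D).IsCl e) : (SD D').IsCl e := by
  cases e with
  | root => trivial
  | node c s =>
    have hcm : c < m := he
    show (D' c).isC
    rw [← h c hcm]
    exact hc

theorem beta_local {D D' : ℕ → Datum} {m : ℕ} (h : ∀ j < m, D j = D' j) {g : ℕ →₀ ℝ}
    (hg : ∀ j ∈ g.support, j < m) : (SD D).beta g = (SD D').beta g := by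
  classical
  unfold Raw.beta
  refine Finset.sum_congr rfl fun j hj => ?_
  have h1 : (j ∈ {j | ¬ (SD D).C j}) ↔ (j ∈ {j | ¬ (SD D').C j}) := by
    show ¬ (D j).isC ↔ ¬ (D' j).isC
    rw [h j (hg j hj)]
  by_cases hm : j ∈ {j | ¬ (SD D).C j}
  · rw [Set.indicator_of_mem hm, Set.indicator_of_mem (h1.1 hm)]
  · rw [Set.indicator_of_notMem hm, Set.indicator_of_notMem (fun h' => hm (h1.2 h'))]

theorem valid_local {D D' : ℕ → Datum} {k : ℕ} (h : ∀ j < k + 1, D j = D' j)
    (hV : Valid D k) : Valid D' k := by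
  have hk : D k = D' k := h k (Nat.lt_succ_self k)
  have hj : ∀ j < k, D j = D' j := fun j hjk => h j (Nat.lt_succ_of_lt hjk)
  have hj' : ∀ j < k, D' j = D j := fun j hjk => (hj j hjk).symm
  have hc' : ∀ j < k + 1, D' j = D j := fun j hjk => (h j hjk).symm
  have hLU : ∀ e : Cl, e.lev ≤ k → ∀ j < k, LU D' e j = LU D e j := fun e he j hjk =>
    LU_local hj' he hjk
  constructor
  · rw [← hk]; exact hV.supp
  · rw [← hk]; exact hV.isC_a
  · rw [← hk]; exact fun hC => isCl_local hj (hV.lev hC) (hV.cl hC)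
  · rw [← hk]; exact hV.lev
  · rw [← hk]; intro hC j hjk; rw [hLU _ (hV.lev hC) j hjk]; exact hV.center hC j hjk
  · rw [← hk]; intro hC j hjk h1 h2
    rw [hj' j hjk] at h1
    rw [hLU _ (hV.lev hC) j hjk]; exact hV.strict hC j hjk h1 h2
  · rw [← hk]; exact hV.τpos
  · rw [← hk]; exact hV.τle
  · rw [← hk]; intro hC c hc h1 j hjc h2 h3
    rw [hc' c hc] at h1 h3 ⊢
    rw [hc' j (lt_trans hjc hc)] at h2 h3 ⊢
    exact hV.T1 hC c hc h1 j hjc h2 h3
  · rw [← hk]; intro hC c hc h1 j hjc h2 h3
    rw [hc' c hc] at h1 h3 ⊢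
    rw [hc' j (lt_trans hjc hc)] at h2 h3 ⊢
    exact hV.T2 hC c hc h1 j hjc h2 h3
  · rw [← hk]; exact hV.κpos
  · rw [← hk]; exact hV.κle1
  · rw [← hk]; intro hC i hi h1 h2
    rw [hj' i hi] at h1
    exact hV.κle hC i hi h1 h2
  · rw [← hk]; intro hC c hc h1
    rw [hc' c hc] at h1 ⊢
    exact hV.τκ hC c hc h1
  · rw [← hk]; intro hC e he hel x hx
    refine hV.a6 hC e (isCl_local hj' hel he) hel x ?_
    intro j hjk
    rw [← hLU e hel j hjk]
    exact hx j hjk
  · rw [← hk]; intro hC
    rcases hV.typ hC with ⟨j, h1, h2, h3⟩ | h1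
    · refine Or.inl ⟨j, ?_, h2, h3⟩
      rw [hj' j h2]
      exact h1
    · refine Or.inr ?_
      rw [← beta_local hj hV.supp]
      exact h1

theorem beta_zero (S : Raw) : S.beta 0 = 0 := by
  simp [Raw.beta]

theorem valid_dum {D : ℕ → Datum} {k : ℕ} (h : D k = dum) : Valid D k := by
  have hC : ¬ (D k).isC := by rw [h]; exact id
  have ha : (D k).a = 0 := by rw [h]; rfl
  refine ⟨?_, fun h' => absurd h' hC, fun h' => absurd h' hC, fun h' => absurd h' hC,
    fun h' => absurd h' hC, fun h' => absurd h' hC, fun h' => absurd h' hC,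
    fun h' => absurd h' hC, fun h' => absurd h' hC, fun h' => absurd h' hC,
    fun h' => absurd h' hC, fun h' => absurd h' hC, fun h' => absurd h' hC,
    fun h' => absurd h' hC, ?_, ?_⟩
  · intro j hj
    rw [ha] at hj
    simp at hj
  · intro _ e _ _ x _
    rw [ha]
    simp [ev]
  · intro _
    right
    rw [ha, beta_zero]
    norm_num

/-- Tasks. -/
abbrev Task : Type := ℕ ⊕ ((ℕ →₀ ℚ) ⊕ (Option (ℕ × Bool) × ℕ × (ℕ →₀ ℚ)))

/-- Cluster names from options. -/
def toCl : Option (ℕ × Bool) → Cl
  | none => Cl.root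
  | some (c, s) => Cl.node c s

/-- Real functional of a rational one. -/
noncomputable def toR (g : ℕ →₀ ℚ) : ℕ →₀ ℝ := g.mapRange (fun q : ℚ => (q : ℝ)) Rat.cast_zero

/-- The datum of index `k` realises the task. -/
def Rz (D : ℕ → Datum) (k : ℕ) : Task → Prop
  | Sum.inl j => ¬ (D k).isC ∧ (D k).a = Finsupp.single j 1
  | Sum.inr (Sum.inl g) => ¬ (D k).isC ∧ (D k).a = toR g
  | Sum.inr (Sum.inr (o, n, r)) => (D k).isC ∧ (D k).p = toCl o ∧ (toCl o).lev ≤ n ∧ n ≤ k ∧
      (∀ j < n, ((LU D (toCl o) j).1 = (LU D (toCl o) j).2 → (D k).v j = (LU D (toCl o) j).1) ∧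
        ((LU D (toCl o) j).1 ≠ (LU D (toCl o) j).2 → (D k).v j = (r j : ℝ))) ∧
      ∀ j, n ≤ j → j < k → (D k).v j = ev (D j).a (D k).v

theorem Rz_local {D D' : ℕ → Datum} {k : ℕ} (h : ∀ j < k + 1, D j = D' j) (t : Task)
    (hR : Rz D k t) : Rz D' k t := by
  have hk : D k = D' k := h k (Nat.lt_succ_self k)
  have hj : ∀ j < k, D j = D' j := fun j hjk => h j (Nat.lt_succ_of_lt hjk)
  have hj' : ∀ j < k, D' j = D j := fun j hjk => (hj j hjk).symm
  rcases t with j | g | ⟨o, n, r⟩
  · show ¬ (D' k).isC ∧ (D' k).a = Finsupp.single j 1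
    rw [← hk]
    exact hR
  · show ¬ (D' k).isC ∧ (D' k).a = toR g
    rw [← hk]
    exact hR
  · obtain ⟨h1, h2, h3, h4, h5, h6⟩ := hR
    rw [hk] at h1 h2
    refine ⟨h1, h2, h3, h4, ?_, ?_⟩
    · intro i hi
      have hik : i < k := lt_of_lt_of_le hi h4
      rw [LU_local hj' (le_trans h3 h4) hik, ← hk]
      exact h5 i hi
    · intro i hi hik
      rw [← hk, hj' i hik]
      exact h6 i hi hik

open Classical in
/-- One step of the construction. -/
noncomputable def dstep (task : ℕ → Task) (k : ℕ) (D' : ℕ → Datum) : Datum :=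
  if h : ∃ d, Valid (Function.update D' k d) k ∧ Rz (Function.update D' k d) k (task k)
  then h.choose else dum

/-- The sequence of data. -/
noncomputable def DD (task : ℕ → Task) : ℕ → Datum := srec (dstep task) dum

theorem DD_eq (task : ℕ → Task) (k : ℕ) :
    DD task k = dstep task k (fun j => if j < k then DD task j else dum) :=
  srec_eq _ _ k

theorem upd_agree (D : ℕ → Datum) (k : ℕ) (d : Datum) : ∀ j < k + 1,
    Function.update (fun j => if j < k then D j else dum) k d j = Function.update D k d j := by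
  intro j hj
  by_cases hjk : j = k
  · subst hjk
    simp
  · rw [Function.update_of_ne hjk, Function.update_of_ne hjk, if_pos (by omega)]

theorem DD_valid (task : ℕ → Task) (k : ℕ) : Valid (DD task) k := by
  classical
  by_cases h : ∃ d, Valid (Function.update (fun j => if j < k then DD task j else dum) k d) k ∧
      Rz (Function.update (fun j => if j < k then DD task j else dum) k d) k (task k)
  · have h1 : DD task k = h.choose := by
      rw [DD_eq]
      unfold dstep
      rw [dif_pos h]
    have h2 := h.choose_spec.1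
    refine valid_local ?_ h2
    intro j hj
    rw [upd_agree _ _ _ j hj]
    by_cases hjk : j = k
    · subst hjk
      rw [Function.update_self, h1]
    · rw [Function.update_of_ne hjk]
  · apply valid_dum
    rw [DD_eq]
    unfold dstep
    rw [dif_neg h]

theorem DD_realize (task : ℕ → Task) (k : ℕ)
    (h0 : ∃ d, Valid (Function.update (DD task) k d) k ∧
      Rz (Function.update (DD task) k d) k (task k)) : Rz (DD task) k (task k) := by
  classical
  have h : ∃ d, Valid (Function.update (fun j => if j < k then DD task j else dum) k d) k ∧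
      Rz (Function.update (fun j => if j < k then DD task j else dum) k d) k (task k) := by
    obtain ⟨d, hd1, hd2⟩ := h0
    refine ⟨d, valid_local ?_ hd1, Rz_local ?_ _ hd2⟩
    · intro j hj
      rw [upd_agree _ _ _ j hj]
    · intro j hj
      rw [upd_agree _ _ _ j hj]
  have h1 : DD task k = h.choose := by
    rw [DD_eq]
    unfold dstep
    rw [dif_pos h]
  have h2 := h.choose_spec.2
  refine Rz_local ?_ _ h2
  intro j hj
  rw [upd_agree _ _ _ j hj]
  by_cases hjk : j = k
  · subst hjk
    rw [Function.update_self, h1]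
  · rw [Function.update_of_ne hjk]

/-- An enumeration of the tasks repeating each task infinitely often. -/
theorem exists_task : ∃ task : ℕ → Task, ∀ t N, ∃ k, N ≤ k ∧ task k = t := by
  obtain ⟨f, hf⟩ := exists_surjective_nat Task
  refine ⟨fun k => f (Nat.unpair k).1, ?_⟩
  intro t N
  obtain ⟨i, hi⟩ := hf t
  refine ⟨Nat.pair i N, Nat.right_le_pair i N, ?_⟩
  simp [hi]

section facts

variable {D : ℕ → Datum}

theorem LU_lt (D : ℕ → Datum) {c j : ℕ} (s : Bool) (h : j < c) :
    LU D (Cl.node c s) j = (sg s * (D c).v j, sg s * (D c).v j) := by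
  rw [LU_eq]
  show (if j < c then (sg s * (D c).v j, sg s * (D c).v j)
        else if j = c then (sg s, sg s) else rule D (Cl.node c s) j _) = _
  rw [if_pos h]

theorem LU_self (D : ℕ → Datum) (c : ℕ) (s : Bool) : LU D (Cl.node c s) c = (sg s, sg s) := by
  rw [LU_eq]
  show (if c < c then (sg s * (D c).v c, sg s * (D c).v c)
        else if c = c then (sg s, sg s) else rule D (Cl.node c s) c _) = _
  rw [if_neg (lt_irrefl c), if_pos rfl]

theorem LU_gen (D : ℕ → Datum) {e : Cl} {k : ℕ} (h : e.lev ≤ k) :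
    LU D e k = rule D e k (fun j => if j < k then LU D e j else (0, 0)) := by
  rw [LU_eq]
  cases e with
  | root => rfl
  | node c s =>
    have h1 : c + 1 ≤ k := h
    show (if k < c then (sg s * (D c).v k, sg s * (D c).v k)
          else if k = c then (sg s, sg s) else rule D (Cl.node c s) k _) = _
    rw [if_neg (by omega), if_neg (by omega)]

theorem LU_C_fst {e : Cl} {k : ℕ} (h : e.lev ≤ k) (hC : (D k).isC) :
    ((SD D).le (Cl.node k false) e → (LU D e k).1 = -(1 - (D k).τ)) ∧
    (¬ (SD D).le (Cl.node k false) e → (LU D e k).1 = -(1 / 2)) := by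
  rw [LU_gen D h, le_SD_iff]
  unfold rule rule'
  rw [if_pos hC]
  exact ⟨fun h' => by simp only [if_pos h'], fun h' => by simp only [if_neg h']⟩

theorem LU_C_snd {e : Cl} {k : ℕ} (h : e.lev ≤ k) (hC : (D k).isC) :
    ((SD D).le (Cl.node k true) e → (LU D e k).2 = 1 - (D k).τ) ∧
    (¬ (SD D).le (Cl.node k true) e → (LU D e k).2 = 1 / 2) := by
  rw [LU_gen D h, le_SD_iff]
  unfold rule rule'
  rw [if_pos hC]
  exact ⟨fun h' => by simp only [if_pos h'], fun h' => by simp only [if_neg h']⟩

theorem locked_iff (hV : ∀ k, Valid D k) {e : Cl} {k : ℕ} (ε : ℝ) :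
    ((∀ j ∈ (D k).a.support, ((fun j => if j < k then LU D e j else (0, 0)) j).1 =
      ((fun j => if j < k then LU D e j else ((0 : ℝ), (0 : ℝ))) j).2) ∧
      ev (D k).a (fun j => ((fun j => if j < k then LU D e j else ((0 : ℝ), (0 : ℝ))) j).1) = ε) ↔
    (SD D).Locked (D k).a e ε := by
  have h1 : ∀ j ∈ (D k).a.support,
      (fun j => if j < k then LU D e j else ((0 : ℝ), (0 : ℝ))) j = LU D e j := by
    intro j hj
    have := (hV k).supp j hj
    simp [this]
  have h2 : ev (D k).a (fun j => ((fun j => if j < k then LU D e j else ((0 : ℝ), (0 : ℝ))) j).1) =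
      ev (D k).a ((SD D).l e) := by
    unfold ev Finsupp.sum
    refine Finset.sum_congr rfl fun j hj => ?_
    have h3 := h1 j hj
    dsimp only at h3 ⊢
    rw [h3]
    rfl
  unfold Raw.Locked
  rw [h2]
  constructor
  · rintro ⟨h3, h4⟩
    refine ⟨fun j hj => ?_, h4⟩
    have := h3 j hj
    rw [h1 j hj] at this
    exact this
  · rintro ⟨h3, h4⟩
    refine ⟨fun j hj => ?_, h4⟩
    rw [h1 j hj]
    exact h3 j hj

theorem LU_B (hV : ∀ k, Valid D k) {e : Cl} {k : ℕ} (h : e.lev ≤ k) (hC : ¬ (D k).isC) :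
    ((SD D).Locked (D k).a e 1 → LU D e k = (1, 1)) ∧
    ((SD D).Locked (D k).a e (-1) → LU D e k = (-1, -1)) ∧
    (¬ (SD D).Locked (D k).a e 1 → ¬ (SD D).Locked (D k).a e (-1) → LU D e k = (-1, 1)) := by
  have h1 := locked_iff hV (e := e) (k := k) 1
  have h2 := locked_iff hV (e := e) (k := k) (-1)
  rw [LU_gen D h, ← h1, ← h2]
  unfold rule rule'
  rw [if_neg hC]
  refine ⟨fun h' => by rw [if_pos h'], fun h' => ?_, fun h' h'' => by rw [if_neg h', if_neg h'']⟩
  rw [if_neg, if_pos h']
  rintro ⟨_, h4⟩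
  rw [h'.2] at h4
  norm_num at h4

theorem sg_cases (s : Bool) : sg s = 1 ∨ sg s = -1 := by
  cases s
  · right; rfl
  · left; rfl

/-- Bounds. -/
theorem bounds (hV : ∀ k, Valid D k) (n : ℕ) : ∀ e, (SD D).IsCl e → e.lev ≤ n → ∀ k,
    -1 ≤ (LU D e k).1 ∧ (LU D e k).1 ≤ (LU D e k).2 ∧ (LU D e k).2 ≤ 1 := by
  have gen : ∀ e : Cl, ∀ k, e.lev ≤ k →
      -1 ≤ (LU D e k).1 ∧ (LU D e k).1 ≤ (LU D e k).2 ∧ (LU D e k).2 ≤ 1 := by
    intro e k hek
    by_cases hC : (D k).isC
    · have h1 := LU_C_fst hek hC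
      have h2 := LU_C_snd hek hC
      have h3 := (hV k).τpos hC
      have h4 := (hV k).τle hC
      have h5 : (LU D e k).1 = -(1 - (D k).τ) ∨ (LU D e k).1 = -(1 / 2) := by
        by_cases h : (SD D).le (Cl.node k false) e
        · exact Or.inl (h1.1 h)
        · exact Or.inr (h1.2 h)
      have h6 : (LU D e k).2 = 1 - (D k).τ ∨ (LU D e k).2 = 1 / 2 := by
        by_cases h : (SD D).le (Cl.node k true) e
        · exact Or.inl (h2.1 h)
        · exact Or.inr (h2.2 h)
      rcases h5 with h5 | h5 <;> rcases h6 with h6 | h6 <;> rw [h5, h6] <;>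
        refine ⟨by linarith, by linarith, by linarith⟩
    · obtain ⟨h1, h2, h3⟩ := LU_B hV hek hC
      by_cases h : (SD D).Locked (D k).a e 1
      · rw [h1 h]; norm_num
      · by_cases h' : (SD D).Locked (D k).a e (-1)
        · rw [h2 h']; norm_num
        · rw [h3 h h']; norm_num
  induction n with
  | zero =>
    intro e _ hl k
    exact gen e k (le_trans hl (Nat.zero_le k))
  | succ n ih =>
    intro e he hl k
    by_cases hek : e.lev ≤ k
    · exact gen e k hek
    · cases e with
      | root => exact absurd (Nat.zero_le k) hek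
      | node c s =>
        have hcn : c ≤ n := Nat.le_of_succ_le_succ hl
        have hkc : k ≤ c := by
          have : ¬ (c + 1 ≤ k) := hek
          omega
        rcases Nat.lt_or_ge k c with hlt | hge
        · have hC : (D c).isC := he
          have h1 := (hV c).center hC k hlt
          have h2 := ih (D c).p ((hV c).cl hC) (le_trans ((hV c).lev hC) hcn) k
          rw [LU_lt D s hlt]
          rcases sg_cases s with hs | hs
          · rw [hs]
            refine ⟨by simp only [one_mul]; linarith, le_refl _, by simp only [one_mul]; linarith⟩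
          · rw [hs]
            refine ⟨by simp only [neg_mul, one_mul]; linarith, le_refl _,
              by simp only [neg_mul, one_mul]; linarith⟩
        · have : k = c := le_antisymm hkc hge
          subst this
          rw [LU_self]
          rcases sg_cases s with hs | hs <;> rw [hs] <;> norm_num

theorem bnd (hV : ∀ k, Valid D k) {e : Cl} (he : (SD D).IsCl e) (k : ℕ) :
    -1 ≤ (LU D e k).1 ∧ (LU D e k).1 ≤ (LU D e k).2 ∧ (LU D e k).2 ≤ 1 :=
  bounds hV e.lev e he le_rfl k

theorem LU_C_half (hV : ∀ k, Valid D k) {e : Cl} {k : ℕ} (h : e.lev ≤ k) (hC : (D k).isC) :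
    (LU D e k).1 ≤ -(1 / 2) ∧ 1 / 2 ≤ (LU D e k).2 := by
  have h1 := LU_C_fst h hC
  have h2 := LU_C_snd h hC
  have h4 := (hV k).τle hC
  constructor
  · by_cases h : (SD D).le (Cl.node k false) e
    · rw [h1.1 h]; linarith
    · rw [h1.2 h]
  · by_cases h : (SD D).le (Cl.node k true) e
    · rw [h2.1 h]; linarith
    · rw [h2.2 h]

theorem ev_congr' {g : ℕ →₀ ℝ} {x y : ℕ → ℝ} (h : ∀ j ∈ g.support, x j = y j) :
    ev g x = ev g y := by
  unfold ev Finsupp.sum
  refine Finset.sum_congr rfl fun j hj => ?_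
  dsimp only
  rw [h j hj]

/-- Extension of points of boxes. -/
theorem box_rec (hV : ∀ k, Valid D k) {e : Cl} (he : (SD D).IsCl e) {x : ℕ → ℝ} {n : ℕ}
    (h : ∀ k < n, ((LU D e k).1 ≤ x k ∧ x k ≤ (LU D e k).2) ∨
      (e.lev ≤ k ∧ x k = ev (D k).a x)) :
    ∀ k < n, (LU D e k).1 ≤ x k ∧ x k ≤ (LU D e k).2 := by
  intro k
  induction k using Nat.strong_induction_on with
  | _ k ih =>
    intro hkn
    rcases h k hkn with h1 | ⟨h1, h2⟩
    · exact h1
    · by_cases hC : (D k).isC
      · have h3 := LU_C_half hV h1 hC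
        have h4 : x k = 0 := by
          rw [h2, (hV k).isC_a hC]
          simp [ev]
        rw [h4]
        constructor <;> linarith [h3.1, h3.2]
      · have h3 : |ev (D k).a x| ≤ 1 :=
          (hV k).a6 hC e he h1 x (fun j hj => ih j hj (lt_trans hj hkn))
        have h4 : ∀ ε, (SD D).Locked (D k).a e ε → x k = ε := by
          rintro ε ⟨h5, h6⟩
          rw [h2, ← h6]
          apply ev_congr'
          intro j hj
          have h7 := ih j ((hV k).supp j hj) (lt_trans ((hV k).supp j hj) hkn)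
          have h8 : (LU D e j).1 = (LU D e j).2 := h5 j hj
          show x j = (LU D e j).1
          linarith [h7.1, h7.2]
        obtain ⟨g1, g2, g3⟩ := LU_B hV h1 hC
        by_cases h : (SD D).Locked (D k).a e 1
        · rw [g1 h, h4 1 h]
          exact ⟨le_refl _, le_refl _⟩
        · by_cases h' : (SD D).Locked (D k).a e (-1)
          · rw [g2 h', h4 (-1) h']
            exact ⟨le_refl _, le_refl _⟩
          · rw [g3 h h', h2]
            exact abs_le.1 h3

theorem raw_ext_lt (S : Raw) {n k : ℕ} (h : k < n) (x : ℕ → ℝ) : S.ext n x k = x k := by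
  rw [Raw.ext, if_pos h]

theorem raw_ext_ge (S : Raw) (hS : ∀ k, ∀ j ∈ (S.a k).support, j < k) {n k : ℕ} (h : n ≤ k)
    (x : ℕ → ℝ) : S.ext n x k = ev (S.a k) (S.ext n x) := by
  rw [Raw.ext, if_neg (by omega)]
  unfold ev Finsupp.sum
  rw [Fin.sum_univ_eq_sum_range (fun j => S.a k j * S.ext n x j) k]
  symm
  apply Finset.sum_subset
  · intro j hj
    exact Finset.mem_range.2 (hS k j hj)
  · intro j _ hj
    rw [Finsupp.notMem_support_iff.1 hj]
    exact zero_mul _

/-- A common positive lower bound. -/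
theorem pos_lower {α : Type} (s : Finset α) (f : α → ℝ) (hf : ∀ i ∈ s, 0 < f i) :
    ∃ t : ℝ, 0 < t ∧ t ≤ 1 / 8 ∧ ∀ i ∈ s, t ≤ f i := by
  classical
  induction s using Finset.induction_on with
  | empty => exact ⟨1 / 8, by norm_num, le_refl _, by simp⟩
  | insert i s _ ih =>
    obtain ⟨t, h1, h2, h3⟩ := ih (fun j hj => hf j (Finset.mem_insert_of_mem hj))
    refine ⟨min t (f i), lt_min h1 (hf i (Finset.mem_insert_self i s)),
      le_trans (min_le_left _ _) h2, ?_⟩
    intro j hj
    rcases Finset.mem_insert.1 hj with rfl | hj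
    · exact min_le_right _ _
    · exact le_trans (min_le_left _ _) (h3 j hj)

end facts

section tasks

theorem Datum_bound {D : ℕ → Datum} (hV : ∀ k, Valid D k) {c : ℕ} (hC : (D c).isC) {j : ℕ}
    (hj : j < c) : -1 ≤ (D c).v j ∧ (D c).v j ≤ 1 := by
  have h1 := (hV c).center hC j hj
  have h2 := bnd hV ((hV c).cl hC) j
  constructor <;> linarith [h1.1, h1.2, h2.1, h2.2.2]

theorem ev_single' (j : ℕ) (r : ℝ) (x : ℕ → ℝ) : ev (Finsupp.single j r) x = r * x j := by
  unfold ev
  rw [Finsupp.sum_single_index]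
  exact zero_mul _

/-- Existence for birth tasks. -/
theorem birth_exists {D : ℕ → Datum} {k : ℕ} {g : ℕ →₀ ℝ}
    (hsupp : ∀ j ∈ g.support, j < k)
    (ha6 : ∀ e, (SD D).IsCl e → e.lev ≤ k → ∀ x : ℕ → ℝ,
      (∀ j < k, (LU D e j).1 ≤ x j ∧ x j ≤ (LU D e j).2) → |ev g x| ≤ 1)
    (htyp : (∃ j, ¬ (D j).isC ∧ j < k ∧ g = Finsupp.single j 1) ∨ (SD D).beta g ≤ 1 / 4) :
    Valid (Function.update D k ⟨False, g, Cl.root, 0, 0, 0⟩) k := by
  set d : Datum := ⟨False, g, Cl.root, 0, 0, 0⟩ with hd
  set D' := Function.update D k d with hD'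
  have hk : D' k = d := by rw [hD', Function.update_self]
  have hj : ∀ j < k, D' j = D j := fun j hjk => by
    rw [hD', Function.update_of_ne (ne_of_lt hjk)]
  have hj' : ∀ j < k, D j = D' j := fun j hjk => (hj j hjk).symm
  have hC : ¬ (D' k).isC := by rw [hk]; exact id
  have ha : (D' k).a = g := by rw [hk]
  refine ⟨?_, fun h' => absurd h' hC, fun h' => absurd h' hC, fun h' => absurd h' hC,
    fun h' => absurd h' hC, fun h' => absurd h' hC, fun h' => absurd h' hC,
    fun h' => absurd h' hC, fun h' => absurd h' hC, fun h' => absurd h' hC,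
    fun h' => absurd h' hC, fun h' => absurd h' hC, fun h' => absurd h' hC,
    fun h' => absurd h' hC, ?_, ?_⟩
  · rw [ha]; exact hsupp
  · intro _ e he hl x hx
    rw [ha]
    refine ha6 e (isCl_local hj hl he) hl x ?_
    intro j hjk
    rw [LU_local hj' hl hjk]
    exact hx j hjk
  · intro _
    rw [ha]
    rcases htyp with ⟨j, h1, h2, h3⟩ | h1
    · refine Or.inl ⟨j, ?_, h2, h3⟩
      rw [hj j h2]
      exact h1
    · refine Or.inr ?_
      rw [beta_local (D := D') (D' := D) hj hsupp]
      exact h1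

/-- Existence for cluster tasks. -/
theorem cluster_exists {D : ℕ → Datum} (hV : ∀ k, Valid D k) {k : ℕ} {e : Cl}
    (he : (SD D).IsCl e) (hl : e.lev ≤ k) {w : ℕ → ℝ}
    (hw : ∀ j < k, (LU D e j).1 ≤ w j ∧ w j ≤ (LU D e j).2)
    (hws : ∀ j < k, (D j).isC → e.lev ≤ j → (LU D e j).1 < w j ∧ w j < (LU D e j).2) :
    ∃ τ κ : ℝ, Valid (Function.update D k ⟨True, 0, e, w, τ, κ⟩) k := by
  classical
  -- the number κ
  obtain ⟨κ, hκ1, hκ2, hκ3⟩ := pos_lower (Finset.range k)
    (fun i => if |w i| < 1 then 1 - |w i| else 1) (by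
      intro i _
      split_ifs with h
      · linarith
      · norm_num)
  have hκ4 : ∀ i < k, |w i| < 1 → κ ≤ 1 - |w i| := by
    intro i hi h
    have := hκ3 i (Finset.mem_range.2 hi)
    rwa [if_pos h] at this
  -- bounds from the old clusters
  have hb : ∀ c j, (D c).isC → j < c → -1 ≤ (D c).v j ∧ (D c).v j ≤ 1 := fun c j hC hj =>
    Datum_bound hV hC hj
  obtain ⟨t1, ht1, _, ht1'⟩ := pos_lower (Finset.range k ×ˢ Finset.range k)
    (fun q => if (D q.1).isC ∧ q.2 < q.1 ∧ (D q.2).isC ∧ (D q.1).v q.2 < 1 - (D q.2).τ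
      then (1 - (D q.1).v q.2 - (D q.2).τ) / 8 else 1) (by
      intro q _
      split_ifs with h
      · have := h.2.2.2
        linarith
      · norm_num)
  obtain ⟨t2, ht2, _, ht2'⟩ := pos_lower (Finset.range k ×ˢ Finset.range k)
    (fun q => if (D q.1).isC ∧ q.2 < q.1 ∧ (D q.2).isC ∧ -(1 - (D q.2).τ) < (D q.1).v q.2
      then (1 + (D q.1).v q.2 - (D q.2).τ) / 8 else 1) (by
      intro q _
      split_ifs with h
      · have := h.2.2.2
        linarith
      · norm_num)
  obtain ⟨t3, ht3, _, ht3'⟩ := pos_lower (Finset.range k)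
    (fun j => if w j < 1 - (D j).τ then (1 - w j - (D j).τ) / 8 else 1) (by
      intro j _
      split_ifs with h
      · linarith
      · norm_num)
  obtain ⟨t4, ht4, _, ht4'⟩ := pos_lower (Finset.range k)
    (fun j => if -(1 - (D j).τ) < w j then (1 + w j - (D j).τ) / 8 else 1) (by
      intro j _
      split_ifs with h
      · linarith
      · norm_num)
  obtain ⟨t5, ht5, _, ht5'⟩ := pos_lower (Finset.range k)
    (fun c => if (D c).isC then (D c).κ / 2 ^ (c + 5) else 1) (by
      intro c _
      split_ifs with h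
      · have := (hV c).κpos h
        positivity
      · norm_num)
  obtain ⟨τ, hτ, hτ8, hτ'⟩ := pos_lower (Finset.range 6)
    (fun i => if i = 0 then t1 else if i = 1 then t2 else if i = 2 then t3 else if i = 3 then t4
      else if i = 4 then t5 else κ / 2 ^ (k + 5)) (by
      intro i _
      split_ifs
      · exact ht1
      · exact ht2
      · exact ht3
      · exact ht4
      · exact ht5
      · positivity)
  have hτ1 : τ ≤ t1 := by simpa using hτ' 0 (by simp)
  have hτ2 : τ ≤ t2 := by simpa using hτ' 1 (by simp)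
  have hτ3 : τ ≤ t3 := by simpa using hτ' 2 (by simp)
  have hτ4 : τ ≤ t4 := by simpa using hτ' 3 (by simp)
  have hτ5 : τ ≤ t5 := by simpa using hτ' 4 (by simp)
  have hτ6 : τ ≤ κ / 2 ^ (k + 5) := by simpa using hτ' 5 (by simp)
  refine ⟨τ, κ, ?_⟩
  set d : Datum := ⟨True, 0, e, w, τ, κ⟩ with hd
  set D' := Function.update D k d with hD'
  have hk : D' k = d := by rw [hD', Function.update_self]
  have hj : ∀ j < k, D' j = D j := fun j hjk => by
    rw [hD', Function.update_of_ne (ne_of_lt hjk)]
  have hj' : ∀ j < k, D j = D' j := fun j hjk => (hj j hjk).symm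
  have hLU : ∀ j < k, LU D' e j = LU D e j := fun j hjk => LU_local hj hl hjk
  have hwb : ∀ j < k, -1 ≤ w j ∧ w j ≤ 1 := by
    intro j hjk
    have h1 := hw j hjk
    have h2 := bnd hV he j
    constructor <;> linarith [h1.1, h1.2, h2.1, h2.2.2]
  have key : ∀ y z t : ℝ, -1 ≤ y → t ≤ (1 - y - z) / 8 → 0 < t → 4 * t * (1 - y) ≤ 1 - y - z := by
    intro y z t h1 h2 h3
    have : 4 * t * (1 - y) ≤ 4 * t * 2 := by
      apply mul_le_mul_of_nonneg_left <;> linarith
    linarith
  have key' : ∀ y z t : ℝ, y ≤ 1 → t ≤ (1 + y - z) / 8 → 0 < t →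
      4 * t * (1 + y) ≤ 1 + y - z := by
    intro y z t h1 h2 h3
    have : 4 * t * (1 + y) ≤ 4 * t * 2 := by
      apply mul_le_mul_of_nonneg_left <;> linarith
    linarith
  constructor
  · rw [hk]; intro j hj; simp [hd] at hj
  · rw [hk]; intro _; rfl
  · rw [hk]; intro _; exact isCl_local hj' hl he
  · rw [hk]; intro _; exact hl
  · rw [hk]; intro _ j hjk
    show (LU D' e j).1 ≤ w j ∧ w j ≤ (LU D' e j).2
    rw [hLU j hjk]; exact hw j hjk
  · rw [hk]; intro _ j hjk h1 h2
    show (LU D' e j).1 < w j ∧ w j < (LU D' e j).2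
    rw [hj j hjk] at h1
    rw [hLU j hjk]; exact hws j hjk h1 h2
  · rw [hk]; intro _; exact hτ
  · rw [hk]; intro _; exact hτ8
  · rw [hk]; intro _ c hc h1 j hjc h2 h3
    have hjk : j < k := by omega
    rw [hj j hjk] at h2 h3 ⊢
    show 4 * τ * (1 - (D' c).v j) ≤ 1 - (D' c).v j - (D j).τ
    rcases Nat.lt_or_ge c k with hck | hck
    · rw [hj c hck] at h1 h3 ⊢
      have := ht1' (c, j) (Finset.mem_product.2 ⟨Finset.mem_range.2 hck, Finset.mem_range.2 hjk⟩)
      dsimp only at this
      rw [if_pos ⟨h1, hjc, h2, h3⟩] at this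
      exact key _ _ _ (hb c j h1 hjc).1 (le_trans hτ1 this) hτ
    · have : c = k := by omega
      subst this
      rw [hk] at h3 ⊢
      have h3' : w j < 1 - (D j).τ := h3
      have := ht3' j (Finset.mem_range.2 hjk)
      rw [if_pos h3'] at this
      exact key _ _ _ (hwb j hjk).1 (le_trans hτ3 this) hτ
  · rw [hk]; intro _ c hc h1 j hjc h2 h3
    have hjk : j < k := by omega
    rw [hj j hjk] at h2 h3 ⊢
    show 4 * τ * (1 + (D' c).v j) ≤ 1 + (D' c).v j - (D j).τ
    rcases Nat.lt_or_ge c k with hck | hck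
    · rw [hj c hck] at h1 h3 ⊢
      have := ht2' (c, j) (Finset.mem_product.2 ⟨Finset.mem_range.2 hck, Finset.mem_range.2 hjk⟩)
      dsimp only at this
      rw [if_pos ⟨h1, hjc, h2, h3⟩] at this
      exact key' _ _ _ (hb c j h1 hjc).2 (le_trans hτ2 this) hτ
    · have : c = k := by omega
      subst this
      rw [hk] at h3 ⊢
      have h3' : -(1 - (D j).τ) < w j := h3
      have := ht4' j (Finset.mem_range.2 hjk)
      rw [if_pos h3'] at this
      exact key' _ _ _ (hwb j hjk).2 (le_trans hτ4 this) hτ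
  · rw [hk]; intro _; exact hκ1
  · rw [hk]; intro _
    show κ ≤ 1
    linarith
  · rw [hk]; intro _ i hi _ h2
    exact hκ4 i hi h2
  · rw [hk]; intro _ c hc h1
    show τ ≤ (D' c).κ / 2 ^ (c + 5)
    rcases Nat.lt_or_ge c k with hck | hck
    · rw [hj c hck] at h1 ⊢
      have := ht5' c (Finset.mem_range.2 hck)
      rw [if_pos h1] at this
      linarith
    · have : c = k := by omega
      subst this
      rw [hk]
      exact hτ6
  · intro h; exact absurd (by rw [hk]; trivial) h
  · intro h; exact absurd (by rw [hk]; trivial) h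

end tasks

section final

theorem toCl_surj (e : Cl) : ∃ o, toCl o = e := by
  cases e with
  | root => exact ⟨none, rfl⟩
  | node c s => exact ⟨some (c, s), rfl⟩

theorem SD_par {D : ℕ → Datum} (hV : ∀ k, Valid D k) {c : ℕ} (hC : (D c).isC) :
    (SD D).par c = (D c).p := if_pos ((hV c).lev hC)

theorem toR_surj (g : ℕ →₀ ℝ) (hg : ∀ j, ∃ q : ℚ, g j = q) : ∃ q : ℕ →₀ ℚ, toR q = g := by
  classical
  choose f hf using hg
  refine ⟨Finsupp.onFinset g.support f ?_, ?_⟩
  · intro j hj
    rw [Finsupp.mem_support_iff]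
    intro h0
    apply hj
    have := hf j
    rw [h0] at this
    exact_mod_cast this.symm
  · ext j
    unfold toR
    rw [Finsupp.mapRange_apply, Finsupp.onFinset_apply]
    exact (hf j).symm

end final

end Construct

open Construct in
/-- Existence of box systems. -/
theorem exists_sys : Nonempty Sys := by
  classical
  obtain ⟨task, htask⟩ := exists_task
  set D := DD task with hD
  have hV : ∀ k, Valid D k := DD_valid task
  have hR : ∀ k, (∃ d, Valid (Function.update D k d) k ∧
      Rz (Function.update D k d) k (task k)) → Rz D k (task k) := DD_realize task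
  refine ⟨⟨SD D, ?_, ?_, ?_, ?_, ?_, ?_, ?_, ?_, ?_, ?_, ?_, ?_, ?_, ?_, ?_, ?_, ?_, ?_, ?_, ?_, ?_, ?_,
    ?_, ?_, ?_, ?_, ?_, ?_, ?_⟩⟩
  · exact fun k j hj => (hV k).supp j hj
  · exact fun k hC => (hV k).isC_a hC
  · intro c hC
    have hC' : (D c).isC := hC
    rw [SD_par hV hC']
    exact (hV c).cl hC
  · exact fun c _ => R0_par_lev D c
  · intro c s j _ hj
    show (LU D (Cl.node c s) j).1 = _
    rw [LU_lt D s hj]
    rfl
  · intro c s j _ hj
    show (LU D (Cl.node c s) j).2 = _
    rw [LU_lt D s hj]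
    rfl
  · intro c s _
    show (LU D (Cl.node c s) c).1 = _
    rw [LU_self]
  · intro c s _
    show (LU D (Cl.node c s) c).2 = _
    rw [LU_self]
  · exact fun e k _ hl hC h => (LU_C_snd hl hC).1 h
  · exact fun e k _ hl hC h => (LU_C_snd hl hC).2 h
  · exact fun e k _ hl hC h => (LU_C_fst hl hC).1 h
  · exact fun e k _ hl hC h => (LU_C_fst hl hC).2 h
  · intro e k _ hl hC ε hε h
    obtain ⟨h1, h2, _⟩ := LU_B hV hl hC
    show (LU D e k).1 = ε ∧ (LU D e k).2 = ε
    rcases hε with rfl | rfl
    · rw [h1 h]; exact ⟨rfl, rfl⟩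
    · rw [h2 h]; exact ⟨rfl, rfl⟩
  · intro e k _ hl hC h h'
    obtain ⟨_, _, h3⟩ := LU_B hV hl hC
    show (LU D e k).1 = -1 ∧ (LU D e k).2 = 1
    rw [h3 h h']; exact ⟨rfl, rfl⟩
  · intro c j hC hj
    have hC' : (D c).isC := hC
    rw [SD_par hV hC']
    exact (hV c).center hC j hj
  · intro c j hC hj hCj hl
    have hC' : (D c).isC := hC
    rw [SD_par hV hC'] at hl ⊢
    exact (hV c).strict hC j hj hCj hl
  · exact fun k hC e he hl x hx => (hV k).a6 hC e he hl x hx
  · exact fun k hC => (hV k).τpos hC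
  · exact fun k hC => (hV k).τle hC
  · exact fun c k j hc hk hj hjc hck h => (hV k).T1 hk c (Nat.lt_succ_of_le hck) hc j hjc hj h
  · exact fun c k j hc hk hj hjc hck h => (hV k).T2 hk c (Nat.lt_succ_of_le hck) hc j hjc hj h
  · exact fun k hC => (hV k).κpos hC
  · exact fun k hC => (hV k).κle1 hC
  · exact fun c i hC hi hic h => (hV c).κle hC i hic hi h
  · exact fun c k hc hk hck => (hV k).τκ hk c (Nat.lt_succ_of_le hck) hc
  · exact fun k hC => (hV k).typ hC
  · -- birth_pure
    intro j hj N
    obtain ⟨k, hk, ht⟩ := htask (Sum.inl j) (max N (j + 1))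
    have hjk : j < k := lt_of_lt_of_le (Nat.lt_succ_self j) (le_trans (le_max_right _ _) hk)
    have hex := birth_exists (D := D) (k := k) (g := Finsupp.single j 1) (by
        intro i hi
        have := Finsupp.support_single_subset hi
        rw [Finset.mem_singleton] at this
        rw [this]; exact hjk) (by
        intro e he _ x hx
        rw [ev_single', one_mul]
        have h1 := bnd hV he j
        have h2 := hx j hjk
        rw [abs_le]
        constructor <;> linarith [h1.1, h1.2.2, h2.1, h2.2]) (Or.inl ⟨j, hj, hjk, rfl⟩)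
    have := hR k ⟨_, hex, by
      rw [ht]
      show ¬ (Function.update D k _ k).isC ∧ (Function.update D k _ k).a = _
      rw [Function.update_self]
      exact ⟨id, rfl⟩⟩
    rw [ht] at this
    exact ⟨k, le_trans (le_max_left _ _) hk, this.1, this.2⟩
  · -- birth_g
    intro g hq hg hβ N
    obtain ⟨q, rfl⟩ := toR_surj g hq
    obtain ⟨k, hk, ht⟩ := htask (Sum.inr (Sum.inl q)) (max N ((toR q).support.sup id + 1))
    have hsupp : ∀ j ∈ (toR q).support, j < k := by
      intro j hj
      have h1 : j ≤ (toR q).support.sup id := Finset.le_sup (f := id) hj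
      have h2 := le_trans (le_max_right N ((toR q).support.sup id + 1)) hk
      omega
    have hex := birth_exists (D := D) (k := k) (g := toR q) hsupp (by
        intro e he _ x hx
        have h1 := hg e he (fun j => if j < k then x j else (LU D e j).1) (by
          intro j
          dsimp only
          by_cases hj : j < k
          · rw [if_pos hj]; exact hx j hj
          · rw [if_neg hj]; exact ⟨le_refl _, (bnd hV he j).2.1⟩)
        rwa [ev_congr' (y := x) (fun j hj => if_pos (hsupp j hj))] at h1) (Or.inr hβ)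
    have := hR k ⟨_, hex, by
      rw [ht]
      show ¬ (Function.update D k _ k).isC ∧ (Function.update D k _ k).a = _
      rw [Function.update_self]
      exact ⟨id, rfl⟩⟩
    rw [ht] at this
    exact ⟨k, le_trans (le_max_left _ _) hk, this.1, this.2⟩
  · -- cluster
    intro e he n hl x hx hxs hxq N
    have hq : ∀ j, ∃ q : ℚ, j < n → (SD D).l e j ≠ (SD D).u e j → x j = q := by
      intro j
      by_cases h : j < n ∧ (SD D).l e j ≠ (SD D).u e j
      · obtain ⟨q, hq⟩ := hxq j h.1 h.2
        exact ⟨q, fun _ _ => hq⟩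
      · exact ⟨0, fun h1 h2 => absurd ⟨h1, h2⟩ h⟩
    choose q hq using hq
    obtain ⟨o, rfl⟩ := toCl_surj e
    set r : ℕ →₀ ℚ := Finsupp.onFinset (Finset.range n) (fun j => if j < n then q j else 0) (by
      intro j hj
      rw [Finset.mem_range]
      by_contra h
      rw [if_neg h] at hj
      exact hj rfl) with hr
    have hrj : ∀ j < n, r j = q j := by
      intro j hj
      rw [hr, Finsupp.onFinset_apply, if_pos hj]
    obtain ⟨k, hk, ht⟩ := htask (Sum.inr (Sum.inr (o, n, r))) (max N n)
    have hNk : N ≤ k := le_trans (le_max_left _ _) hk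
    have hnk : n ≤ k := le_trans (le_max_right _ _) hk
    set w := (SD D).ext n x with hw
    have hsuppD : ∀ k, ∀ j ∈ ((SD D).a k).support, j < k := fun k => (hV k).supp
    have hw1 : ∀ j < n, w j = x j := fun j hj => raw_ext_lt _ hj x
    have hw2 : ∀ j, n ≤ j → w j = ev (D j).a w := fun j hj => raw_ext_ge _ hsuppD hj x
    have hwb : ∀ j < k, (LU D (toCl o) j).1 ≤ w j ∧ w j ≤ (LU D (toCl o) j).2 := by
      apply box_rec hV he
      intro j _
      rcases Nat.lt_or_ge j n with h | h
      · left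
        rw [hw1 j h]
        exact hx j h
      · right
        exact ⟨le_trans hl h, hw2 j h⟩
    have hws : ∀ j < k, (D j).isC → (toCl o).lev ≤ j →
        (LU D (toCl o) j).1 < w j ∧ w j < (LU D (toCl o) j).2 := by
      intro j _ hC hj
      rcases Nat.lt_or_ge j n with h | h
      · rw [hw1 j h]
        exact hxs j h hC hj
      · have h1 := LU_C_half hV hj hC
        have h2 : w j = 0 := by
          rw [hw2 j h, (hV j).isC_a hC]
          simp [ev]
        rw [h2]
        constructor <;> linarith [h1.1, h1.2]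
    obtain ⟨τ, κ, hval⟩ := cluster_exists hV he (le_trans hl hnk) hwb hws
    have := hR k ⟨_, hval, by
      rw [ht]
      have hagree : ∀ j < k, D j = Function.update D k ⟨True, 0, toCl o, w, τ, κ⟩ j := by
        intro j hj
        rw [Function.update_of_ne (ne_of_lt hj)]
      refine ⟨?_, ?_, hl, hnk, ?_, ?_⟩
      · rw [Function.update_self]; trivial
      · rw [Function.update_self]
      · intro j hj
        rw [Function.update_self, ← LU_local hagree (le_trans hl hnk) (lt_of_lt_of_le hj hnk)]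
        show (_ → w j = _) ∧ (_ → w j = _)
        rw [hw1 j hj, hrj j hj]
        constructor
        · intro h
          have := hx j hj
          have h1 : (LU D (toCl o) j).1 ≤ x j := this.1
          have h2 : x j ≤ (LU D (toCl o) j).2 := this.2
          linarith
        · intro h
          exact hq j hj h
      · intro j hj hjk
        rw [Function.update_self, ← hagree j hjk]
        exact hw2 j hj⟩
    rw [ht] at this
    obtain ⟨g1, g2, _, _, g5, g6⟩ := this
    refine ⟨k, hNk, hnk, g1, ?_, ?_, g6⟩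
    · rw [SD_par hV g1]; exact g2
    · intro j hj
      by_cases h : (LU D (toCl o) j).1 = (LU D (toCl o) j).2
      · show (D k).v j = x j
        rw [(g5 j hj).1 h]
        have := hx j hj
        have h1 : (LU D (toCl o) j).1 ≤ x j := this.1
        have h2 : x j ≤ (LU D (toCl o) j).2 := this.2
        linarith
      · show (D k).v j = x j
        rw [(g5 j hj).2 h, hrj j hj]
        exact (hq j hj h).symm

end Pool.Agent.MP_235f01_an
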