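import Pool.Agent.MP_235f01_an.Nest
import Pool.Agent.MP_235f01_an.Ext
import Pool.Agent.MP_235f01_an.Ball
import Pool.Agent.MP_235f01_an.ModelBasic
import Pool.Agent.MP_235f01_an.Core

set_option autoImplicit false

namespace Pool.Agent.MP_235f01_an

variable {X : Type} [NormedAddCommGroup X] [NormedSpace ℝ X]

namespace ScdAux

/-- The remaining part of the ball: the clusters which are not below `node c true`. -/
def G (S : Sys) (c : ℕ) : Set (ℕ → ℝ) :=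
  ⋃ e ∈ {e | S.IsCl e ∧ ¬ S.le e (Cl.node c true)}, S.box e ∩ (S.V : Set (ℕ → ℝ))

theorem cv_mem_V (S : Sys) (c : ℕ) : S.cv c ∈ S.V := ⟨_, cv_mem S c⟩

theorem cv_mem_F (S : Sys) {c : ℕ} (hc : S.C c) : S.cv c ∈ S.F c := by
  refine subset_convexHull ℝ _ ?_
  refine Set.mem_iUnion₂.2 ⟨Cl.node c true, ⟨hc, Raw.le.refl _⟩, cv_box S hc, cv_mem_V S c⟩

theorem zero_mem_G (S : Sys) (c : ℕ) : (0 : ℕ → ℝ) ∈ G S c := by
  refine Set.mem_iUnion₂.2 ⟨Cl.root, ⟨trivial, ?_⟩, ?_, S.V.zero_mem⟩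
  · intro h
    have := cl_le_lev S (e := Cl.root) trivial h
    simp [Cl.lev] at this
  · intro k
    by_cases hk : S.C k
    · obtain ⟨h1, h2⟩ := root_cluster S hk
      have := S.τ_le k hk
      rw [h1, h2]
      constructor
      · show -(1 - S.τ k) ≤ (0 : ℝ)
        linarith
      · show (0 : ℝ) ≤ 1 - S.τ k
        linarith
    · obtain ⟨h1, h2⟩ := root_birth S hk
      rw [h1, h2]
      constructor
      · show (-1 : ℝ) ≤ 0
        norm_num
      · show (0 : ℝ) ≤ 1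
        norm_num

theorem B_join (S : Sys) {c : ℕ} (hc : S.C c) {x : ℕ → ℝ} (hx : x ∈ S.B) :
    ∃ z ∈ S.F c, ∃ y ∈ convexHull ℝ (G S c), ∃ a b : ℝ, 0 ≤ a ∧ 0 ≤ b ∧ a + b = 1 ∧
      a • z + b • y = x := by
  set A : Set (ℕ → ℝ) := ⋃ e ∈ {e | S.IsCl e ∧ S.le e (Cl.node c true)},
    S.box e ∩ (S.V : Set (ℕ → ℝ)) with hA
  have hAne : A.Nonempty := ⟨S.cv c,
    Set.mem_iUnion₂.2 ⟨Cl.node c true, ⟨hc, Raw.le.refl _⟩, cv_box S hc, cv_mem_V S c⟩⟩
  have hGne : (G S c).Nonempty := ⟨0, zero_mem_G S c⟩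
  have hsub : (⋃ e ∈ {e | S.IsCl e}, S.box e ∩ (S.V : Set (ℕ → ℝ))) ⊆ A ∪ G S c := by
    refine Set.iUnion₂_subset ?_
    intro e he x hx
    by_cases hle : S.le e (Cl.node c true)
    · left
      exact Set.mem_iUnion₂.2 ⟨e, ⟨he, hle⟩, hx⟩
    · right
      exact Set.mem_iUnion₂.2 ⟨e, ⟨he, hle⟩, hx⟩
  have h1 : x ∈ convexHull ℝ (A ∪ G S c) := convexHull_mono hsub hx
  rw [convexHull_union hAne hGne] at h1
  obtain ⟨z, hz, y, hy, hseg⟩ := mem_convexJoin.1 h1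
  obtain ⟨a, b, ha, hb, hab, hxe⟩ := hseg
  exact ⟨z, hz, y, hy, a, b, ha, hb, hab, hxe⟩

theorem G_coord (S : Sys) {c : ℕ} (hc : S.C c) {y : ℕ → ℝ} (hy : y ∈ convexHull ℝ (G S c)) :
    y c ≤ 1 - S.τ c := by
  have hconv : Convex ℝ {x : ℕ → ℝ | x c ∈ Set.Iic (1 - S.τ c)} := by
    have := (convex_Iic (1 - S.τ c)).linear_preimage
      (LinearMap.proj (R := ℝ) (φ := fun _ : ℕ => ℝ) c)
    exact this
  have hsub : convexHull ℝ (G S c) ⊆ {x : ℕ → ℝ | x c ∈ Set.Iic (1 - S.τ c)} := by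
    refine convexHull_min ?_ hconv
    refine Set.iUnion₂_subset ?_
    rintro e ⟨he, hle⟩ x ⟨hx, _⟩
    exact (hx c).2.trans (box_not_tip S hc he hle)
  exact hsub hy

theorem G_sub_B (S : Sys) {c : ℕ} {y : ℕ → ℝ} (hy : y ∈ convexHull ℝ (G S c)) : y ∈ S.B := by
  refine convexHull_mono ?_ hy
  refine Set.iUnion₂_subset ?_
  rintro e ⟨he, hle⟩ x hx
  exact Set.mem_iUnion₂.2 ⟨e, he, hx⟩

/-- The quantitative statement. -/
theorem key (S : Sys) (M : Model S X) (h : X →L[ℝ] ℝ) (hh : ‖h‖ = 1) {δ : ℝ} (hδ : 0 < δ) :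
    ∃ c, S.C c ∧ ∃ i : ℕ, ∀ y : X, ‖y‖ ≤ 1 → 1 - 1 / ((i : ℝ) + 1) < M.coord c y →
      1 - δ < h y := by
  obtain ⟨c, hc, hF⟩ := scd_core S M h hh (half_pos hδ)
  have hτ := S.τ_pos c hc
  obtain ⟨i, hi⟩ := exists_nat_gt (8 / (δ * S.τ c))
  refine ⟨c, hc, i, ?_⟩
  intro y hy hyc
  set η : ℝ := min (δ / 4) (M.coord c y - (1 - 1 / ((i : ℝ) + 1))) with hη
  have hη0 : 0 < η := lt_min (by linarith) (by linarith)
  obtain ⟨x, hxB, _, hxy⟩ := model_approx S M hy hη0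
  have hxV := B_sub_V S hxB
  have hnorm : ∀ f : X →L[ℝ] ℝ, ‖f‖ ≤ 1 → |f (M.ι x) - f y| < η := by
    intro f hf
    rw [← map_sub]
    calc |f (M.ι x - y)| ≤ ‖f‖ * ‖M.ι x - y‖ := f.le_opNorm _
      _ ≤ 1 * ‖M.ι x - y‖ := by gcongr
      _ < η := by rw [one_mul]; exact hxy
  have h1 := hnorm (M.coord c) (model_coord_le S M c)
  have h2 := hnorm h hh.le
  rw [M.coord_ι c x hxV] at h1
  have h3 : η ≤ δ / 4 := min_le_left _ _
  have h4 : η ≤ M.coord c y - (1 - 1 / ((i : ℝ) + 1)) := min_le_right _ _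
  have h5 : 1 - 1 / ((i : ℝ) + 1) < x c := by
    have := (abs_lt.1 h1).1
    linarith
  obtain ⟨z, hz, y', hy', a, b, ha, hb, hab, hxe⟩ := B_join S hc hxB
  have h6 : z c ≤ 1 := (abs_le.1 (B_coord S (F_sub_B S hz) c)).2
  have h7 := G_coord S hc hy'
  have h8 : x c = a * z c + b * y' c := by rw [← hxe]; rfl
  have h9 : x c ≤ 1 - b * S.τ c := by
    rw [h8]
    have : a = 1 - b := by linarith
    subst this
    nlinarith
  have h10 : b * S.τ c < 1 / ((i : ℝ) + 1) := by linarith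
  have hi1 : (0 : ℝ) < (i : ℝ) + 1 := by positivity
  have h11 : b < δ / 8 := by
    have h12 : 1 / ((i : ℝ) + 1) < δ * S.τ c / 8 := by
      rw [div_lt_iff₀ hi1]
      rw [div_lt_iff₀ (by positivity)] at hi
      nlinarith
    have h13 : b * S.τ c < δ / 8 * S.τ c := by linarith
    exact lt_of_mul_lt_mul_right h13 hτ.le
  have h14 := hF z hz
  have h15 : -1 ≤ h (M.ι y') := by
    have : |h (M.ι y')| ≤ 1 := by
      calc |h (M.ι y')| ≤ ‖h‖ * ‖M.ι y'‖ := h.le_opNorm _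
        _ ≤ 1 * 1 := by
          rw [hh]
          gcongr
          exact M.ball_le _ (G_sub_B S hy')
        _ = 1 := one_mul 1
    exact (abs_le.1 this).1
  have h16 : h (M.ι x) = a * h (M.ι z) + b * h (M.ι y') := by
    rw [← hxe, map_add, map_smul, map_smul, map_add, map_smul, map_smul]
    rfl
  have h17 : 1 - δ / 2 - 2 * b ≤ h (M.ι x) := by
    rw [h16]
    have : a = 1 - b := by linarith
    subst this
    nlinarith
  have h18 := (abs_lt.1 h2).2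
  linarith

end ScdAux

theorem scd (S : Sys) (M : Model S X) : IsSCD (Metric.closedBall (0 : X) 1) := by
  refine ⟨fun n => M.coord n.unpair.1, fun n => 1 / ((n.unpair.2 : ℝ) + 1),
    fun n => by positivity, ?_⟩
  intro g ε hε
  by_cases hg : g = 0
  · refine ⟨0, ?_⟩
    rintro x ⟨hx, _⟩
    refine ⟨hx, ?_⟩
    subst hg
    have : ((0 : X →L[ℝ] ℝ) : X → ℝ) '' Metric.closedBall (0 : X) 1 = {0} := by
      ext t
      constructor
      · rintro ⟨y, _, rfl⟩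
        simp
      · rintro rfl
        exact ⟨0, by simp, by simp⟩
    rw [this, csSup_singleton]
    simpa using hε
  · have hg0 : 0 < ‖g‖ := norm_pos_iff.2 hg
    set h : X →L[ℝ] ℝ := ‖g‖⁻¹ • g with hh
    have hh1 : ‖h‖ = 1 := by
      rw [hh, norm_smul, norm_inv, norm_norm, inv_mul_cancel₀ hg0.ne']
    obtain ⟨c, hc, i, hkey⟩ := ScdAux.key S M h hh1 (div_pos hε hg0)
    refine ⟨Nat.pair c i, ?_⟩
    rintro x ⟨hx, hxs⟩
    have hx1 : ‖x‖ ≤ 1 := by simpa using hx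
    simp only [Nat.unpair_pair] at hxs
    have hbd : BddAbove (M.coord c '' Metric.closedBall (0 : X) 1) := by
      refine ⟨1, ?_⟩
      rintro _ ⟨y, hy, rfl⟩
      have hy1 : ‖y‖ ≤ 1 := by simpa using hy
      calc M.coord c y ≤ |M.coord c y| := le_abs_self _
        _ ≤ ‖M.coord c‖ * ‖y‖ := (M.coord c).le_opNorm _
        _ ≤ 1 * 1 := by
          gcongr
          exact model_coord_le S M c
        _ = 1 := one_mul 1
    have hsup : 1 ≤ sSup (M.coord c '' Metric.closedBall (0 : X) 1) := by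
      refine le_csSup hbd ⟨M.ι (S.cv c), ?_, ?_⟩
      · simpa using M.ball_le _ (F_sub_B S (ScdAux.cv_mem_F S hc))
      · rw [M.coord_ι c _ (ScdAux.cv_mem_V S c), cv_self]
    have h1 := hkey x hx1 (by linarith)
    refine ⟨hx, ?_⟩
    have hsup2 : sSup (g '' Metric.closedBall (0 : X) 1) ≤ ‖g‖ := by
      refine csSup_le ⟨g 0, 0, by simp, rfl⟩ ?_
      rintro _ ⟨y, hy, rfl⟩
      have hy1 : ‖y‖ ≤ 1 := by simpa using hy
      calc g y ≤ |g y| := le_abs_self _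
        _ ≤ ‖g‖ * ‖y‖ := g.le_opNorm _
        _ ≤ ‖g‖ * 1 := by gcongr
        _ = ‖g‖ := mul_one _
    have h2 : h x = ‖g‖⁻¹ * g x := rfl
    rw [h2] at h1
    have h3 : (1 - ε / ‖g‖) * ‖g‖ < ‖g‖⁻¹ * g x * ‖g‖ := by gcongr
    have h4 : (1 - ε / ‖g‖) * ‖g‖ = ‖g‖ - ε := by field_simp
    have h5 : ‖g‖⁻¹ * g x * ‖g‖ = g x := by field_simp
    rw [h4, h5] at h3
    linarith

end Pool.Agent.MP_235f01_an
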