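import Pool.Agent.MP_235f01_an.Exists
import Pool.Agent.MP_235f01_an.ModelBasic
import Pool.Agent.MP_235f01_an.Adp
import Pool.Agent.MP_235f01_an.Scd

set_option autoImplicit false

/-!
# MP_235f01_an: a Banach space with the super-ADP whose unit ball is an SCD set (assembly)
-/

namespace Pool.Agent.MP_235f01_an

theorem final : ∃ (X : Type) (_ : NormedAddCommGroup X) (_ : NormedSpace ℝ X),
    CompleteSpace X ∧ ¬ FiniteDimensional ℝ X ∧ SuperADP X ∧
      IsSCD (Metric.closedBall (0 : X) 1) := by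
  obtain ⟨S⟩ := exists_sys
  obtain ⟨X, i1, i2, hX, ⟨M⟩⟩ := exists_model S
  exact ⟨X, i1, i2, hX, model_infinite S M, superADP S M, scd S M⟩

end Pool.Agent.MP_235f01_an
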