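import Pool.Agent.MP_235f01_an.Ball

/-!
# Paths inside a cluster
-/

set_option autoImplicit false

namespace Pool.Agent.MP_235f01_an

variable {X : Type} [NormedAddCommGroup X] [NormedSpace ℝ X]

namespace PathAux

theorem ev_zero (x : ℕ → ℝ) : ev (0 : ℕ →₀ ℝ) x = 0 := by simp [ev]

theorem lev_node (c : ℕ) (s : Bool) : (Cl.node c s).lev = c + 1 := rfl

theorem Vn_C (S : Sys) {n k : ℕ} {x : ℕ → ℝ} (hx : x ∈ S.Vn n) (hk : n ≤ k) (hC : S.C k) :
    x k = 0 := by
  have h := hx k hk
  rw [S.a_C k hC, ev_zero] at h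
  exact h

/-- at a birth coordinate the interval is `{ε}` or `[-1,1]` -/
theorem birth_interval (S : Sys) {e : Cl} (he : S.IsCl e) {k : ℕ} (hk : ¬ S.C k)
    (hlev : e.lev ≤ k) : (∃ ε : ℝ, (ε = 1 ∨ ε = -1) ∧ S.l e k = ε ∧ S.u e k = ε) ∨
      (S.l e k = -1 ∧ S.u e k = 1) := by
  by_cases h1 : S.Locked (S.a k) e 1
  · exact Or.inl ⟨1, Or.inl rfl, S.lock e k he hlev hk 1 (Or.inl rfl) h1⟩
  · by_cases h2 : S.Locked (S.a k) e (-1)
    · exact Or.inl ⟨-1, Or.inr rfl, S.lock e k he hlev hk (-1) (Or.inr rfl) h2⟩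
    · exact Or.inr (S.free e k he hlev hk h1 h2)

end PathAux

open PathAux in
theorem path_point (S : Sys) (M : Model S X) (h : X →L[ℝ] ℝ) {c m : ℕ} (hc : S.C c)
    (hm : c < m) : ∃ p ∈ S.box (Cl.node c true), p ∈ S.Vn m ∧ (∀ j ≤ c, p j = S.cv c j) ∧
      (∀ j, c < j → j < m → S.C j → p j = 0) ∧
      (∀ j, c < j → j < m → ¬ S.C j → p j = 1 ∨ p j = -1) ∧
      h (M.ι (S.cv c)) ≤ h (M.ι p) := by
  have he : S.IsCl (Cl.node c true) := hc
  induction m, hm using Nat.le_induction with
  | base =>
    exact ⟨S.cv c, cv_box S hc, cv_mem S c, fun _ _ => rfl, fun j h1 h2 => by omega,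
      fun j h1 h2 => by omega, le_rfl⟩
  | succ m hm ih =>
    obtain ⟨p, hp, hpV, hpc, hp0, hp1, hph⟩ := ih
    have hcm : c < m := hm
    by_cases hC : S.C m
    · refine ⟨p, hp, Vn_mono S (Nat.le_succ m) hpV, hpc, ?_, ?_, hph⟩
      · intro j h1 h2 h3
        rcases Nat.lt_succ_iff_lt_or_eq.1 h2 with h4 | h4
        · exact hp0 j h1 h4 h3
        · subst h4; exact Vn_C S hpV le_rfl h3
      · intro j h1 h2 h3
        rcases Nat.lt_succ_iff_lt_or_eq.1 h2 with h4 | h4
        · exact hp1 j h1 h4 h3
        · subst h4; exact absurd hC h3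
    · rcases birth_interval S he hC (by rw [lev_node]; omega) with ⟨ε, hε, hl, hu⟩ | ⟨hl, hu⟩
      · have hpm : p m = ε := by
          have := hp m
          rw [hl, hu] at this
          exact le_antisymm this.2 this.1
        refine ⟨p, hp, Vn_mono S (Nat.le_succ m) hpV, hpc, ?_, ?_, hph⟩
        · intro j h1 h2 h3
          rcases Nat.lt_succ_iff_lt_or_eq.1 h2 with h4 | h4
          · exact hp0 j h1 h4 h3
          · subst h4; exact absurd h3 hC
        · intro j h1 h2 h3
          rcases Nat.lt_succ_iff_lt_or_eq.1 h2 with h4 | h4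
          · exact hp1 j h1 h4 h3
          · subst h4; rw [hpm]; exact hε
      · obtain ⟨s, hs, hsh⟩ : ∃ s : ℝ, (s = 1 ∨ s = -1) ∧
            0 ≤ (s - p m) * h (M.ι (S.bump m)) := by
          have hpm := hp m
          rw [hl, hu] at hpm
          by_cases hb : 0 ≤ h (M.ι (S.bump m))
          · exact ⟨1, Or.inl rfl, mul_nonneg (by linarith) hb⟩
          · push Not at hb
            exact ⟨-1, Or.inr rfl, mul_nonneg_of_nonpos_of_nonpos (by linarith) hb.le⟩
        set p' : ℕ → ℝ := p + (s - p m) • S.bump m with hp'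
        have hlt : ∀ k < m, p' k = p k := fun k hk => by
          rw [hp', Pi.add_apply, Pi.smul_apply, bump_lt S hk, smul_zero, add_zero]
        have hself : p' m = s := by
          rw [hp', Pi.add_apply, Pi.smul_apply, bump_self, smul_eq_mul]; ring
        have hgt : ∀ k, m < k → p' k = ev (S.a k) p' := by
          intro k hk
          rw [hp', ev_add, ev_smul, Pi.add_apply, Pi.smul_apply, smul_eq_mul,
            ← bump_ne S (by omega : k ≠ m), ← hpV k (by omega)]
        refine ⟨p', ?_, ?_, ?_, ?_, ?_, ?_⟩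
        · apply box_of_rec S he
          intro k
          rcases lt_trichotomy k m with h1 | h1 | h1
          · left; rw [hlt k h1]; exact hp k
          · left
            subst h1
            rw [hself, hl, hu]
            rcases hs with hs | hs <;> rw [hs] <;> norm_num
          · right
            exact ⟨by rw [lev_node]; omega, hgt k h1⟩
        · intro k hk
          exact hgt k (by omega)
        · intro j hj
          rw [hlt j (by omega)]; exact hpc j hj
        · intro j h1 h2 h3
          rcases Nat.lt_succ_iff_lt_or_eq.1 h2 with h4 | h4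
          · rw [hlt j h4]; exact hp0 j h1 h4 h3
          · subst h4; exact absurd h3 hC
        · intro j h1 h2 h3
          rcases Nat.lt_succ_iff_lt_or_eq.1 h2 with h4 | h4
          · rw [hlt j h4]; exact hp1 j h1 h4 h3
          · subst h4; rw [hself]; exact hs
        · rw [hp', map_add, map_smul, map_add, map_smul, smul_eq_mul]
          linarith

end Pool.Agent.MP_235f01_an
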