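import Pool.Agent.MP_235f01_an.Defs

set_option autoImplicit false

namespace Pool.Agent.MP_235f01_an

theorem neg_neg_cl (e : Cl) : e.neg.neg = e := by
  cases e <;> simp [Cl.neg]

theorem lev_neg (e : Cl) : e.neg.lev = e.lev := by
  cases e <;> simp [Cl.neg, Cl.lev]

theorem isCl_neg (S : Sys) {e : Cl} (h : S.IsCl e) : S.IsCl e.neg := by
  cases e with
  | root => trivial
  | node c s => exact h

theorem parent_neg (S : Sys) (e : Cl) : S.parent e.neg = (S.parent e).neg := by
  cases e with
  | root => simp [Cl.neg, Raw.parent]
  | node c s =>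
    cases s with
    | true => rfl
    | false => exact (neg_neg_cl (S.par c)).symm

theorem parent_cl (S : Sys) {c : ℕ} {s : Bool} (h : S.C c) : S.IsCl (S.parent (Cl.node c s)) := by
  cases s with
  | true => exact S.par_cl c h
  | false => exact isCl_neg S (S.par_cl c h)

theorem parent_lev (S : Sys) {c : ℕ} {s : Bool} (h : S.C c) :
    (S.parent (Cl.node c s)).lev ≤ c := by
  cases s with
  | true => exact S.par_lev c h
  | false =>
    have : (S.parent (Cl.node c false)) = (S.par c).neg := rfl
    rw [this, lev_neg]
    exact S.par_lev c h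

theorem cl_trans (S : Sys) {e p q : Cl} (h1 : S.le e p) (h2 : S.le p q) : S.le e q := by
  induction h1 with
  | refl e => exact h2
  | step c s p _ ih => exact Raw.le.step c s q (ih h2)

theorem cl_le_cl (S : Sys) {e p : Cl} (he : S.IsCl e) (h : S.le e p) : S.IsCl p := by
  induction h with
  | refl e => exact he
  | step c s p _ ih => exact ih (parent_cl S he)

theorem cl_le_lev (S : Sys) {e p : Cl} (he : S.IsCl e) (h : S.le e p) : p.lev ≤ e.lev := by
  induction h with
  | refl e => exact le_rfl
  | step c s p _ ih =>
    have h1 := ih (parent_cl S he)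
    have h2 := parent_lev S (c := c) (s := s) he
    simp only [Cl.lev] at *
    omega

theorem cl_le_eq (S : Sys) {e p : Cl} (he : S.IsCl e) (h : S.le e p) (hl : p.lev = e.lev) :
    e = p := by
  cases h with
  | refl e => rfl
  | step c s p h' =>
    exfalso
    have h1 := cl_le_lev S (parent_cl S he) h'
    have h2 := parent_lev S (c := c) (s := s) he
    simp only [Cl.lev] at *
    omega

theorem cl_le_root (S : Sys) {e : Cl} (he : S.IsCl e) : S.le e Cl.root := by
  have key : ∀ n : ℕ, ∀ e : Cl, S.IsCl e → e.lev ≤ n → S.le e Cl.root := by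
    intro n
    induction n with
    | zero =>
      intro e he hn
      cases e with
      | root => exact Raw.le.refl _
      | node c s => simp [Cl.lev] at hn
    | succ n ih =>
      intro e he hn
      cases e with
      | root => exact Raw.le.refl _
      | node c s =>
        refine Raw.le.step c s _ (ih _ (parent_cl S he) ?_)
        have h2 := parent_lev S (c := c) (s := s) he
        simp only [Cl.lev] at hn
        omega
  exact key _ e he le_rfl

theorem cl_le_neg (S : Sys) {e p : Cl} (h : S.le e p) : S.le e.neg p.neg := by
  induction h with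
  | refl e => exact Raw.le.refl _
  | step c s p _ ih =>
    have : S.parent (Cl.node c (!s)) = (S.parent (Cl.node c s)).neg := parent_neg S (Cl.node c s)
    exact Raw.le.step c (!s) _ (by rw [this]; exact ih)

theorem cl_chain (S : Sys) {e p q : Cl} (h1 : S.le e p) (h2 : S.le e q) :
    S.le p q ∨ S.le q p := by
  induction h1 with
  | refl e => exact Or.inl h2
  | step c s p h1' ih =>
    cases h2 with
    | refl _ => exact Or.inr (Raw.le.step c s p h1')
    | step _ _ _ h2' => exact ih h2'

theorem cl_child (S : Sys) {e p : Cl} (h : S.le e p) (hne : e ≠ p) :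
    ∃ c s, S.parent (Cl.node c s) = p ∧ S.le e (Cl.node c s) := by
  induction h with
  | refl e => exact absurd rfl hne
  | step c s p h' ih =>
    by_cases hp : S.parent (Cl.node c s) = p
    · exact ⟨c, s, hp, Raw.le.refl _⟩
    · obtain ⟨c', s', h1, h2⟩ := ih hp
      exact ⟨c', s', h1, Raw.le.step c s _ h2⟩

theorem cl_lca (S : Sys) {e e' : Cl} (he : S.IsCl e) (he' : S.IsCl e') (h1 : ¬ S.le e e')
    (h2 : ¬ S.le e' e) : ∃ c s c' s', S.le e (Cl.node c s) ∧ S.le e' (Cl.node c' s') ∧
      Cl.node c s ≠ Cl.node c' s' ∧ S.parent (Cl.node c s) = S.parent (Cl.node c' s') := by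
  have key : ∀ n : ℕ, ∀ e' : Cl, S.IsCl e' → e'.lev ≤ n → ¬ S.le e e' → ¬ S.le e' e →
      ∃ c s c' s', S.le e (Cl.node c s) ∧ S.le e' (Cl.node c' s') ∧
      Cl.node c s ≠ Cl.node c' s' ∧ S.parent (Cl.node c s) = S.parent (Cl.node c' s') := by
    intro n
    induction n with
    | zero =>
      intro e' he' hn h1 h2
      cases e' with
      | root => exact absurd (cl_le_root S he) h1
      | node c s => simp [Cl.lev] at hn
    | succ n ih =>
      intro e' he' hn h1 h2
      cases e' with
      | root => exact absurd (cl_le_root S he) h1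
      | node c' s' =>
        by_cases hq : S.le e (S.parent (Cl.node c' s'))
        · have hne : e ≠ S.parent (Cl.node c' s') := by
            intro h
            apply h2
            exact Raw.le.step c' s' e (by rw [← h]; exact Raw.le.refl _)
          obtain ⟨c, s, hp, hle⟩ := cl_child S hq hne
          refine ⟨c, s, c', s', hle, Raw.le.refl _, ?_, hp⟩
          intro h
          rw [h] at hle
          exact h1 hle
        · have hq2 : ¬ S.le (S.parent (Cl.node c' s')) e := by
            intro h
            exact h2 (Raw.le.step c' s' e h)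
          have hlev : (S.parent (Cl.node c' s')).lev ≤ n := by
            have h3 := parent_lev S (c := c') (s := s') he'
            simp only [Cl.lev] at hn
            omega
          obtain ⟨c, s, c'', s'', h3, h4, h5, h6⟩ := ih _ (parent_cl S he') hlev hq hq2
          exact ⟨c, s, c'', s'', h3, Raw.le.step c' s' _ h4, h5, h6⟩
  exact key _ e' he' le_rfl h1 h2

end Pool.Agent.MP_235f01_an
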